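import Pool.Agent.Helper60.Fin.MainDefs

/-! A round circle is taken to a great circle by a homeomorphism of the 3-sphere. -/

set_option autoImplicit false

namespace Pool.Agent.Helper60.Fin

open Set

namespace Gr

theorem alg1 {x y p q a s : ℝ} (h : x ^ 2 + y ^ 2 + (p ^ 2 + q ^ 2) = 1) (hs : s * s = 1 - a ^ 2)
    (hD : 1 - a * x ≠ 0) : ((x - a) / (1 - a * x)) ^ 2 + (s * y / (1 - a * x)) ^ 2 +
      ((s * p / (1 - a * x)) ^ 2 + (s * q / (1 - a * x)) ^ 2) = 1 := by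
  have key : (x - a) ^ 2 + (s * y) ^ 2 + ((s * p) ^ 2 + (s * q) ^ 2) = (1 - a * x) ^ 2 := by
    have h1 : (s * y) ^ 2 + ((s * p) ^ 2 + (s * q) ^ 2) = (1 - a ^ 2) * (1 - x ^ 2) := by
      calc _ = (s * s) * (y ^ 2 + (p ^ 2 + q ^ 2)) := by ring
        _ = _ := by rw [hs]; congr 1; linarith
    linear_combination h1
  rw [div_pow, div_pow, div_pow, div_pow, ← add_div, ← add_div, ← add_div, key,
    div_self (pow_ne_zero 2 hD)]

theorem alg2 {x a : ℝ} (hD : 1 - a * x ≠ 0) :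
    1 - -a * ((x - a) / (1 - a * x)) = (1 - a ^ 2) / (1 - a * x) := by
  rw [eq_div_iff hD, sub_mul, mul_assoc, div_mul_cancel₀ _ hD]
  ring

theorem alg3 {x a : ℝ} (hD : 1 - a * x ≠ 0) (ha : 1 - a ^ 2 ≠ 0) :
    ((x - a) / (1 - a * x) - -a) / ((1 - a ^ 2) / (1 - a * x)) = x := by
  rw [div_eq_iff (div_ne_zero ha hD), sub_eq_iff_eq_add, div_eq_iff hD, add_mul, mul_div_assoc',
    div_mul_cancel₀ _ hD]
  ring

theorem alg4 {x a s y : ℝ} (hD : 1 - a * x ≠ 0) (ha : 1 - a ^ 2 ≠ 0) (hs : s * s = 1 - a ^ 2) :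
    s * (s * y / (1 - a * x)) / ((1 - a ^ 2) / (1 - a * x)) = y := by
  rw [div_eq_iff (div_ne_zero ha hD), mul_div_assoc', mul_div_assoc', ← mul_assoc, hs, mul_comm y]

/-- the conformal map of the sphere with parameter `a` along the first real axis -/
noncomputable def bo (a : ℝ) (z : ℂ × ℂ) : ℂ × ℂ :=
  (⟨(z.1.re - a) / (1 - a * z.1.re), Real.sqrt (1 - a ^ 2) * z.1.im / (1 - a * z.1.re)⟩,
   ⟨Real.sqrt (1 - a ^ 2) * z.2.re / (1 - a * z.1.re), Real.sqrt (1 - a ^ 2) * z.2.im / (1 - a * z.1.re)⟩)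

theorem S3_iff (z : ℂ × ℂ) : ‖z.1‖ ^ 2 + ‖z.2‖ ^ 2 = 1 ↔
    z.1.re ^ 2 + z.1.im ^ 2 + (z.2.re ^ 2 + z.2.im ^ 2) = 1 := by
  rw [← Complex.normSq_eq_norm_sq, ← Complex.normSq_eq_norm_sq, Complex.normSq_apply, Complex.normSq_apply]
  constructor <;> intro h <;> nlinarith

variable {a : ℝ}

theorem sq_lt (ha : |a| < 1) : 0 < 1 - a ^ 2 := by
  have := (sq_lt_one_iff_abs_lt_one a).2 ha
  linarith

theorem den_pos (ha : |a| < 1) (z : S3) : 0 < 1 - a * z.1.1.re := by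
  have h := (S3_iff z.1).1 z.2
  have h1 : |z.1.1.re| ≤ 1 := by
    rw [abs_le]; constructor <;> nlinarith [sq_nonneg z.1.1.im, sq_nonneg z.1.2.re, sq_nonneg z.1.2.im]
  have h2 : a * z.1.1.re ≤ |a| := by
    calc a * z.1.1.re ≤ |a * z.1.1.re| := le_abs_self _
      _ = |a| * |z.1.1.re| := abs_mul _ _
      _ ≤ |a| * 1 := by gcongr
      _ = |a| := mul_one _
  linarith

theorem sqrt_mul (ha : |a| < 1) : Real.sqrt (1 - a ^ 2) * Real.sqrt (1 - a ^ 2) = 1 - a ^ 2 :=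
  Real.mul_self_sqrt (sq_lt ha).le

theorem bo_mem (ha : |a| < 1) (z : S3) : ‖(bo a z.1).1‖ ^ 2 + ‖(bo a z.1).2‖ ^ 2 = 1 := by
  rw [S3_iff]
  exact alg1 ((S3_iff z.1).1 z.2) (sqrt_mul ha) (den_pos ha z).ne'

theorem bo_bo (ha : |a| < 1) (z : S3) : bo (-a) (bo a z.1) = z.1 := by
  have hD := (den_pos ha z).ne'
  have h1 := (sq_lt ha).ne'
  have hs' : Real.sqrt (1 - (-a) ^ 2) = Real.sqrt (1 - a ^ 2) := by rw [neg_sq]
  refine Prod.ext (Complex.ext ?_ ?_) (Complex.ext ?_ ?_)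
  · show ((z.1.1.re - a) / (1 - a * z.1.1.re) - -a) / (1 - -a * ((z.1.1.re - a) / (1 - a * z.1.1.re))) = _
    rw [alg2 hD, alg3 hD h1]
  · show Real.sqrt (1 - (-a) ^ 2) * (Real.sqrt (1 - a ^ 2) * z.1.1.im / (1 - a * z.1.1.re)) /
      (1 - -a * ((z.1.1.re - a) / (1 - a * z.1.1.re))) = _
    rw [alg2 hD, hs', alg4 hD h1 (sqrt_mul ha)]
  · show Real.sqrt (1 - (-a) ^ 2) * (Real.sqrt (1 - a ^ 2) * z.1.2.re / (1 - a * z.1.1.re)) /
      (1 - -a * ((z.1.1.re - a) / (1 - a * z.1.1.re))) = _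
    rw [alg2 hD, hs', alg4 hD h1 (sqrt_mul ha)]
  · show Real.sqrt (1 - (-a) ^ 2) * (Real.sqrt (1 - a ^ 2) * z.1.2.im / (1 - a * z.1.1.re)) /
      (1 - -a * ((z.1.1.re - a) / (1 - a * z.1.1.re))) = _
    rw [alg2 hD, hs', alg4 hD h1 (sqrt_mul ha)]

/-- `bo a` as a self-map of the sphere -/
noncomputable def B (ha : |a| < 1) (z : S3) : S3 := ⟨bo a z.1, bo_mem ha z⟩

theorem B_cont (ha : |a| < 1) : Continuous (B ha) := by
  refine Continuous.subtype_mk ?_ _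
  have hd : ∀ z : S3, 1 - a * z.1.1.re ≠ 0 := fun z => (den_pos ha z).ne'
  have c0 : Continuous (fun z : S3 => 1 - a * z.1.1.re) := by fun_prop
  have c1 : Continuous (fun z : S3 => (z.1.1.re - a) / (1 - a * z.1.1.re)) :=
    Continuous.div (by fun_prop) c0 hd
  have c2 : Continuous (fun z : S3 => Real.sqrt (1 - a ^ 2) * z.1.1.im / (1 - a * z.1.1.re)) :=
    Continuous.div (by fun_prop) c0 hd
  have c3 : Continuous (fun z : S3 => Real.sqrt (1 - a ^ 2) * z.1.2.re / (1 - a * z.1.1.re)) :=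
    Continuous.div (by fun_prop) c0 hd
  have c4 : Continuous (fun z : S3 => Real.sqrt (1 - a ^ 2) * z.1.2.im / (1 - a * z.1.1.re)) :=
    Continuous.div (by fun_prop) c0 hd
  have e : (fun z : S3 => bo a z.1) = fun z : S3 =>
      ((((z.1.1.re - a) / (1 - a * z.1.1.re) : ℝ) : ℂ) +
        ((Real.sqrt (1 - a ^ 2) * z.1.1.im / (1 - a * z.1.1.re) : ℝ) : ℂ) * Complex.I,
       ((Real.sqrt (1 - a ^ 2) * z.1.2.re / (1 - a * z.1.1.re) : ℝ) : ℂ) +
        ((Real.sqrt (1 - a ^ 2) * z.1.2.im / (1 - a * z.1.1.re) : ℝ) : ℂ) * Complex.I) := by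
    funext z
    refine Prod.ext ?_ ?_ <;> exact (Complex.mk_eq_add_mul_I _ _)
  rw [e]
  fun_prop

/-- `bo a` as a homeomorphism -/
noncomputable def Bh (ha : |a| < 1) : S3 ≃ₜ S3 where
  toFun := B ha
  invFun := B (a := -a) (by rwa [abs_neg])
  left_inv z := Subtype.ext (bo_bo ha z)
  right_inv z := by
    have h := bo_bo (a := -a) (by rwa [abs_neg]) z
    rw [neg_neg] at h
    exact Subtype.ext h
  continuous_toFun := B_cont ha
  continuous_invFun := B_cont _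

/-- exchanging the real parts of the coordinates -/
def sw (z : ℂ × ℂ) : ℂ × ℂ := (⟨z.2.re, z.1.im⟩, ⟨z.1.re, z.2.im⟩)

theorem sw_mem (z : S3) : ‖(sw z.1).1‖ ^ 2 + ‖(sw z.1).2‖ ^ 2 = 1 := by
  have h := (S3_iff z.1).1 z.2
  rw [S3_iff]
  simp only [sw]
  linarith

theorem sw_cont : Continuous (fun z : S3 => (⟨sw z.1, sw_mem z⟩ : S3)) := by
  refine Continuous.subtype_mk ?_ _
  have e : (fun z : S3 => sw z.1) = fun z : S3 =>
      (((z.1.2.re : ℝ) : ℂ) + ((z.1.1.im : ℝ) : ℂ) * Complex.I,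
       ((z.1.1.re : ℝ) : ℂ) + ((z.1.2.im : ℝ) : ℂ) * Complex.I) := by
    funext z
    refine Prod.ext ?_ ?_ <;> exact (Complex.mk_eq_add_mul_I _ _)
  rw [e]
  fun_prop

/-- the exchange as a homeomorphism -/
def Sw : S3 ≃ₜ S3 where
  toFun z := ⟨sw z.1, sw_mem z⟩
  invFun z := ⟨sw z.1, sw_mem z⟩
  left_inv _ := Subtype.ext rfl
  right_inv _ := Subtype.ext rfl
  continuous_toFun := sw_cont
  continuous_invFun := sw_cont

theorem great {c : ℝ} (hc : 0 < c) (hc1 : c ≤ 1) : ∃ ψ : S3 ≃ₜ S3,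
    ψ '' {z : S3 | z.1.2.im = 0 ∧ z.1.1.re = Real.sqrt (1 - c ^ 2)} = {z : S3 | z.1.2 = 0} := by
  have h0 : 0 ≤ 1 - c ^ 2 := by nlinarith
  have ha : |Real.sqrt (1 - c ^ 2)| < 1 := by
    rw [abs_of_nonneg (Real.sqrt_nonneg _), Real.sqrt_lt' one_pos]
    nlinarith
  refine ⟨(Bh ha).trans Sw, ?_⟩
  ext z
  constructor
  · rintro ⟨w, ⟨h1, h2⟩, rfl⟩
    show (sw (bo (Real.sqrt (1 - c ^ 2)) w.1)).2 = 0
    refine Complex.ext ?_ ?_
    · show (w.1.1.re - Real.sqrt (1 - c ^ 2)) / _ = 0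
      rw [h2, sub_self, zero_div]
    · show Real.sqrt (1 - (Real.sqrt (1 - c ^ 2)) ^ 2) * w.1.2.im / _ = 0
      rw [h1, mul_zero, zero_div]
  · intro hz
    have hz' : z.1.2 = 0 := hz
    refine ⟨((Bh ha).trans Sw).symm z, ?_, Homeomorph.apply_symm_apply _ _⟩
    have e : (((Bh ha).trans Sw).symm z).1 = bo (-Real.sqrt (1 - c ^ 2)) (sw z.1) := rfl
    have r0 : (sw z.1).1.re = 0 := by
      show z.1.2.re = 0
      rw [hz']; rfl
    have r1 : (sw z.1).2.im = 0 := by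
      show z.1.2.im = 0
      rw [hz']; rfl
    constructor
    · rw [e]
      show Real.sqrt (1 - (-Real.sqrt (1 - c ^ 2)) ^ 2) * (sw z.1).2.im / _ = 0
      rw [r1, mul_zero, zero_div]
    · rw [e]
      show ((sw z.1).1.re - -Real.sqrt (1 - c ^ 2)) / (1 - -Real.sqrt (1 - c ^ 2) * (sw z.1).1.re) = _
      rw [r0, mul_zero, sub_zero, div_one, zero_sub, neg_neg]

end Gr

theorem Pattern.RoundUnknotted.unknotted {P : Pattern} (h : P.RoundUnknotted) : P.Unknotted := by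
  obtain ⟨φ, c, hc, hc1, h⟩ := h
  obtain ⟨ψ, hψ⟩ := Gr.great hc hc1
  refine ⟨φ.trans ψ, ?_⟩
  rw [← hψ, ← h, ← image_comp]
  rfl

end Pool.Agent.Helper60.Fin
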