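import Pool.Agent.Helper60.Fin.T0
import Pool.Agent.Helper60.Geo.Acyc
import Pool.Agent.Helper60.Alg.Gam
import Pool.Agent.Helper60.Geo.TrefH1

/-! First level, part a: the scaled copy at the upper end, `H²(X; W) = 0`, the `Γ`-valued function. -/

set_option autoImplicit false

namespace Pool.Agent.Helper60.Fin

open Set AS Geo Alg

/-! ### scaling -/

theorem fK_smul {c : ℝ} (hc : 0 < c) (z : ℂ × ℂ) : fK (c • z) = ((c ^ 3 : ℝ) : ℂ) * fK z := by
  have h1 : nrm (c • z) = c * nrm z := nrm_smul_of_pos hc z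
  unfold fK
  rw [h1]
  simp only [Prod.smul_fst, Prod.smul_snd, Complex.real_smul]
  push_cast
  ring

theorem ang_fK_smul {c : ℝ} (hc : 0 < c) (z : ℂ × ℂ) : ang fK (c • z) = ang fK z := by
  unfold ang
  rw [fK_smul hc, Complex.arg_real_mul _ (by positivity)]

theorem TK_cf : TK cf = cf := by
  funext x y
  simp only [TK, cf, mint, cint, ang_fK_smul (Real.exp_pos 1)]

section
variable {D : Tube} {G : Type*} [Group G] {T T' : ℂ × ℂ → ℂ × ℂ → G}

theorem smul_mem_SK (hK : EndsK D) {z : ℂ × ℂ} (hz : z ∈ Sph \ Kn) : Real.exp 1 • z ∈ D.SK := by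
  have hn : nrm (Real.exp 1 • z) = Real.exp 1 := by
    rw [nrm_smul_of_pos (Real.exp_pos 1), show nrm z = 1 from hz.1, mul_one]
  refine ⟨hn, fun hc => hz.2 ?_⟩
  obtain ⟨u, t, hu, he⟩ := hc
  -- the level of the point is `t = 1`
  have ht : t = 1 := by
    have h0 : ‖(0:ℂ)‖ ≤ 1 := by simp
    rcases lt_trichotomy t 1 with h | h | h
    · exfalso
      rcases le_or_gt t 0 with h' | h'
      · have h1 := D.low u t 0 hu h0 h'
        rw [he, h1, nrm_smul_of_pos (Real.exp_pos t), D.nrm0 u 0 hu h0, mul_one] at hn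
        have := Real.exp_injective hn
        linarith
      · have h1 := (D.mid u t 0 hu h0 h' h).2
        rw [← he, hn] at h1
        exact lt_irrefl _ h1
    · exact h
    · exfalso
      have h1 := D.high u t 0 hu h0 h.le
      rw [he, h1, nrm_smul_of_pos (Real.exp_pos _), D.nrm1 u 0 hu h0, ← Real.exp_add] at hn
      have := Real.exp_injective hn
      linarith
  subst ht
  have h2 : Real.exp 1 • z ∈ {z | ∃ u : ℂ, ‖u‖ = 1 ∧ z = D.f (u, 1, 0)} := ⟨u, hu, he⟩
  rw [show {z | ∃ u : ℂ, ‖u‖ = 1 ∧ z = D.f (u, 1, 0)} = _ from hK] at h2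
  obtain ⟨k, hk, hke⟩ := h2
  have : z = k := smul_right_injective _ (Real.exp_pos 1).ne' hke
  rwa [this]

theorem TK_gauge (hK : EndsK D) (h : GaugeEq T T' D.SK) : GaugeEq (TK T) (TK T') (Sph \ Kn) := by
  obtain ⟨u, hu⟩ := h
  refine ⟨fun x => u (Real.exp 1 • x), fun a ha => ?_⟩
  obtain ⟨e, he, h⟩ := hu _ (smul_mem_SK hK ha)
  have hc : ContinuousAt (fun x : ℂ × ℂ => Real.exp 1 • x) a := by fun_prop
  obtain ⟨δ, hδ, h'⟩ := Metric.continuousAt_iff.1 hc e he
  exact ⟨δ, hδ, fun x y hx hy => h _ _ (h' hx) (h' hy)⟩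

end

/-! ### the `Γ`-valued function -/

theorem exists_gam {L W : Type*} [AddCommGroup L] [AddCommGroup W] (H : HData L W)
    {S : Set (ℂ × ℂ)} {T₀ : ℂ × ℂ → ℂ × ℂ → Multiplicative ℤ} (hT : GFlat T₀ S)
    {α : ℂ × ℂ → ℂ × ℂ → L}
    (hα : ∀ a ∈ S, ∃ ε > 0, ∀ x y z, dist x a < ε → dist y a < ε → dist z a < ε →
      α x y + H.tz (Multiplicative.toAdd (T₀ x y)) (α y z) = α x z)
    {γ : ℂ × ℂ → ℂ × ℂ → W}
    (hγ : ∀ a ∈ S, ∃ ε > 0, ∀ x y z, dist x a < ε → dist y a < ε → dist z a < ε →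
      γ x y + H.sz (Multiplicative.toAdd (T₀ x y)) (γ y z) +
        H.b (α x y) (H.tz (Multiplicative.toAdd (T₀ x y)) (α y z)) = γ x z) :
    GFlat (fun x y => (⟨α x y, γ x y, Multiplicative.toAdd (T₀ x y)⟩ : Gam H)) S := by
  intro a ha
  obtain ⟨e1, h1, t1⟩ := hT a ha
  obtain ⟨e2, h2, t2⟩ := hα a ha
  obtain ⟨e3, h3, t3⟩ := hγ a ha
  refine ⟨min e1 (min e2 e3), lt_min h1 (lt_min h2 h3), fun x y z hx hy hz => ?_⟩
  simp only [lt_min_iff] at hx hy hz
  have q1 := t1 x y z hx.1 hy.1 hz.1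
  have q2 := t2 x y z hx.2.1 hy.2.1 hz.2.1
  have q3 := t3 x y z hx.2.2 hy.2.2 hz.2.2
  ext
  · exact q2
  · exact q3
  · show Multiplicative.toAdd (T₀ x y) + Multiplicative.toAdd (T₀ y z) = Multiplicative.toAdd (T₀ x z)
    rw [← toAdd_mul, q1]

/-! ### `H²(X; W) = 0` -/

theorem H2_const {D : Tube} (hK : EndsK D) {k W : Type*} [CommRing k] [AddCommGroup W] [Module k W] :
    HV (cT : ℂ × ℂ → ℂ × ℂ → (W →ₗ[k] W)) D.X ∅ 2 :=
  HV_triple_mid (flat_cT _) D.EK_subset (empty_subset _) (D.acyclic_EK 2) (kend_H2 hK)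

theorem H2_unipotent {D : Tube} (hK : EndsK D) {T₀ : ℂ × ℂ → ℂ × ℂ → Multiplicative ℤ}
    (hT : GFlat T₀ D.O) {k : Type*} [CommRing k] (N : ℕ) :
    ∀ {W : Type} [AddCommGroup W] [Module k W] (ρ : Multiplicative ℤ →* (W →ₗ[k] W)),
      (ρ (Multiplicative.ofAdd 1) - 1) ^ N = 0 → HV (sys T₀ ρ) D.X ∅ 2 := by
  have hX : GFlat T₀ D.X := hT.mono (fun z hz => D.Xar_subset_O (by norm_num) hz)
  induction N with
  | zero =>
    intro W _ _ ρ h
    rw [pow_zero] at h
    have h0 : ∀ w : W, w = 0 := fun w => by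
      have := LinearMap.congr_fun h w
      simpa using this
    intro c _
    refine ⟨0, NZ.zero, ?_⟩
    have : c - dT (sys T₀ ρ) 0 = 0 := by
      funext l; exact h0 _
    rw [this]; exact NZ.zero
  | succ N ih =>
    intro W _ _ ρ h
    let K : Submodule k W := LinearMap.ker (ρ (Multiplicative.ofAdd 1) - 1)
    -- commutation
    have hcomm : ∀ n : Multiplicative ℤ, ρ n * ρ (Multiplicative.ofAdd 1) =
        ρ (Multiplicative.ofAdd 1) * ρ n := by
      intro n; rw [← map_mul, ← map_mul, mul_comm]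
    have hinv : ∀ n : Multiplicative ℤ, K ≤ K.comap (ρ n) := by
      intro n w hw
      have hw' : (ρ (Multiplicative.ofAdd 1)) w = w := by
        have h1 : (ρ (Multiplicative.ofAdd 1) - 1) w = 0 := hw
        simpa [sub_eq_zero] using h1
      show (ρ (Multiplicative.ofAdd 1) - 1) (ρ n w) = 0
      have h2 := LinearMap.congr_fun (hcomm n) w
      simp only [Module.End.mul_apply] at h2
      simp only [LinearMap.sub_apply, Module.End.one_apply, ← h2, hw', sub_self]
    have hfix : ∀ n : Multiplicative ℤ, ∀ w ∈ K, ρ n w = w := by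
      intro n w hw
      have hw' : (ρ (Multiplicative.ofAdd 1)) w = w := by
        have h1 : (ρ (Multiplicative.ofAdd 1) - 1) w = 0 := hw
        simpa [sub_eq_zero] using h1
      have key : ∀ z : ℤ, ρ (Multiplicative.ofAdd z) w = w := by
        intro z
        induction z using Int.induction_on with
        | zero => simp
        | succ i hi =>
          rw [ofAdd_add, map_mul, Module.End.mul_apply, hw', hi]
        | pred i hi =>
          have h3 : ρ (Multiplicative.ofAdd (-(i:ℤ) - 1)) w =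
              ρ (Multiplicative.ofAdd (-(i:ℤ) - 1)) (ρ (Multiplicative.ofAdd 1) w) := by rw [hw']
          rw [h3, ← Module.End.mul_apply, ← map_mul, ← ofAdd_add, sub_add_cancel, hi]
      exact key (Multiplicative.toAdd n)
    -- the quotient representation
    let ρ' : Multiplicative ℤ →* ((W ⧸ K) →ₗ[k] (W ⧸ K)) :=
      { toFun := fun n => K.mapQ K (ρ n) (hinv n)
        map_one' := by
          apply LinearMap.ext
          intro x
          obtain ⟨w, rfl⟩ := K.mkQ_surjective x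
          simp
        map_mul' := fun a b => by
          apply LinearMap.ext
          intro x
          obtain ⟨w, rfl⟩ := K.mkQ_surjective x
          simp }
    have hpow : ∀ (j : ℕ) (w : W), ((ρ' (Multiplicative.ofAdd 1) - 1) ^ j) (K.mkQ w) =
        K.mkQ (((ρ (Multiplicative.ofAdd 1) - 1) ^ j) w) := by
      intro j
      induction j with
      | zero => intro w; simp
      | succ j ihj =>
        intro w
        have h4 : (ρ' (Multiplicative.ofAdd 1) - 1) (K.mkQ w) =
            K.mkQ ((ρ (Multiplicative.ofAdd 1) - 1) w) := by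
          simp [ρ']
        rw [pow_succ, pow_succ, Module.End.mul_apply, Module.End.mul_apply, h4, ihj]
    have hN : (ρ' (Multiplicative.ofAdd 1) - 1) ^ N = 0 := by
      apply LinearMap.ext
      intro x
      obtain ⟨w, rfl⟩ := K.mkQ_surjective x
      rw [hpow, LinearMap.zero_apply, Submodule.mkQ_apply, Submodule.Quotient.mk_eq_zero]
      show (ρ (Multiplicative.ofAdd 1) - 1) (((ρ (Multiplicative.ofAdd 1) - 1) ^ N) w) = 0
      rw [← Module.End.mul_apply, ← pow_succ', h]
      rfl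
    have ih' := ih ρ' hN
    refine HV_ext (T := (cT : ℂ × ℂ → ℂ × ℂ → (K →ₗ[k] K))) (TU := sys T₀ ρ') K.subtype K.mkQ ?_ ?_
      K.injective_subtype K.mkQ_surjective ?_ (hX.sys ρ) (empty_subset _) (H2_const hK) ih'
    · intro x y
      apply LinearMap.ext
      intro w
      exact hfix _ _ w.2
    · intro x y
      apply LinearMap.ext
      intro w
      rfl
    · intro w
      simp

end Pool.Agent.Helper60.Fin
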