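import Pool.Agent.Helper60.Fin.L1a

/-! First level, part b: a nontrivial class (paper (5.2)). -/

set_option autoImplicit false

namespace Pool.Agent.Helper60.Fin

open Set AS Geo Alg

/-- `t ^ 6 ≠ 1` in the power series ring -/
theorem tU_pow_ne {k : Type*} [Field k] (r : kˣ) : ((tU r : (PowerSeries k)ˣ) : PowerSeries k) ^ 6 ≠ 1 := by
  intro h
  have h1 : (((Polynomial.C (r : k) + Polynomial.X) ^ 6 : Polynomial k) : PowerSeries k) =
      ((1 : Polynomial k) : PowerSeries k) := by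
    rw [Polynomial.coe_pow, Polynomial.coe_add, Polynomial.coe_C, Polynomial.coe_X, Polynomial.coe_one]
    exact h
  have h2 := Polynomial.coe_injective k h1
  have h3 : ((Polynomial.C (r : k) + Polynomial.X) ^ 6 : Polynomial k).natDegree = 6 := by
    rw [add_comm, Polynomial.natDegree_pow, Polynomial.natDegree_X_add_C]
  rw [h2] at h3
  simp at h3

/-- a 1×1 matrix which is a nonzero scalar acts invertibly over a field -/
theorem isUnit_one_sub_repM {A K : Type*} [CommRing A] [Field K] [Algebra A K] {G : Type*} [Group G]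
    {n : ℕ} (ρ : G →* Matrix (Fin n) (Fin n) A) (g : G) (s : A) (hs : ρ g = s • 1)
    (h1 : algebraMap A K s ≠ 1) : IsUnit (1 - repM K ρ g : (Fin n → K) →ₗ[A] (Fin n → K)) := by
  have key : ∀ v : Fin n → K, (repM K ρ g) v = fun i => algebraMap A K s * v i := by
    intro v
    funext i
    show ∑ j, (ρ g) i j • v j = _
    rw [hs]
    rw [Finset.sum_eq_single i]
    · simp [Algebra.smul_def]
    · intro j _ hj
      simp [Matrix.one_apply_ne hj.symm]
    · intro h; exact absurd (Finset.mem_univ i) h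
  have hne : (1 : K) - algebraMap A K s ≠ 0 := sub_ne_zero.2 h1.symm
  have e : ∀ v : Fin n → K, (1 - repM K ρ g : (Fin n → K) →ₗ[A] (Fin n → K)) v =
      fun i => (1 - algebraMap A K s) * v i := by
    intro v
    rw [LinearMap.sub_apply, key v]
    funext i
    simp [sub_mul]
  rw [Module.End.isUnit_iff]
  constructor
  · intro v w hvw
    have h2 : (fun i => (1 - algebraMap A K s) * v i) = fun i => (1 - algebraMap A K s) * w i := by
      rw [← e v, ← e w]; exact hvw
    funext i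
    exact mul_left_cancel₀ hne (congrFun h2 i)
  · intro w
    refine ⟨fun i => (1 - algebraMap A K s)⁻¹ * w i, ?_⟩
    have h3 := e (fun i => (1 - algebraMap A K s)⁻¹ * w i)
    refine h3.trans ?_
    funext i
    rw [← mul_assoc, mul_inv_cancel₀ hne, one_mul]

/-- the orbit transports of the integer class -/
theorem TK_orb {D : Tube} (hK : EndsK D) {T₀ : ℂ × ℂ → ℂ × ℂ → Multiplicative ℤ} (hT : GFlat T₀ D.O)
    (hc : GaugeEq T₀ cf D.EK) {x : ℂ × ℂ} (hx : x ∈ Sph \ Kn) {g : Multiplicative ℤ}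
    (hg : HasTr (TK T₀) (orb x) g) : g = Multiplicative.ofAdd 6 := by
  have h1 : GaugeEq (TK T₀) cf (Sph \ Kn) := by
    have := TK_gauge hK (T0_SK hK hT hc)
    rwa [TK_cf] at this
  have hee : Continuous ee := by unfold ee; fun_prop
  have hcont : Continuous (orb x) := by
    unfold orb act; fun_prop
  have nee : ∀ s, ‖ee s‖ = 1 := by
    intro s
    have h := Complex.norm_exp_ofReal_mul_I (2 * Real.pi * s)
    push_cast at h
    exact h
  have ee01 : ee 0 = ee 1 := by simp [ee, Complex.exp_two_pi_mul_I]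
  have hm : ∀ s, orb x s ∈ Sph \ Kn := by
    intro s
    refine ⟨?_, ?_⟩
    · show nrm (act (ee s) x) = 1
      rw [nrm_act (nee s)]; exact hx.1
    · rintro ⟨u, hu, he⟩
      apply hx.2
      refine ⟨(ee s)⁻¹ * u, by rw [norm_mul, norm_inv, nee, hu]; simp, ?_⟩
      have h0 : ee s ≠ 0 := by
        intro h; have := nee s; rw [h] at this; simp at this
      have h1 : x = act (ee s)⁻¹ (orb x s) := by
        ext
        · simp only [orb, act]; field_simp
        · simp only [orb, act]; field_simp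
      rw [h1, he]
      unfold eV act
      simp only [mul_zero]
      ext
      · simp only []; ring
      · simp only []; ring
  have h2 := HasTr.gauge_comm h1 hcont.continuousOn (fun s _ => hm s) (by simp only [orb, ee01]) hg
  exact h2.unique (cf_orb hx)

theorem CR_empty : CR (∅ : Set (ℂ × ℂ)) :=
  ⟨isCompact_empty, ∅, id, isOpen_empty, subset_rfl, continuousOn_id, fun _ h => h, fun _ h => h.elim⟩

/-- action of a scalar 1×1 (or n×n) matrix -/
theorem repM_scalar {A M : Type*} [CommRing A] [AddCommGroup M] [Module A M] {G : Type*} [Group G]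
    {n : ℕ} (ρ : G →* Matrix (Fin n) (Fin n) A) (g : G) (s : A) (hs : ρ g = s • 1) (v : Fin n → M) :
    repM M ρ g v = fun i => s • v i := by
  funext i
  show ∑ j, (ρ g) i j • v j = _
  rw [hs, Finset.sum_eq_single i]
  · simp
  · intro j _ hj
    simp [Matrix.one_apply_ne hj.symm]
  · intro h; exact absurd (Finset.mem_univ i) h

/-- `H¹(Ex; V_m) ≠ 0` -/
theorem Ex_nontriv {T₁ : ℂ × ℂ → ℂ × ℂ → Multiplicative ℤ} (hT : GFlat T₁ Ex)
    (hc : GaugeEq cf T₁ Ex) {F : Type} [Field F] [CharP F 5]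
    (om : Fˣ) (hom : (om : F) ^ 2 - om + 1 = 0)
    (ρ : Multiplicative ℤ →* Matrix (Fin 1) (Fin 1) (PowerSeries F))
    (hρg : ∀ g : Multiplicative ℤ, ρ g = (((tU om) ^ (Multiplicative.toAdd g) : (PowerSeries F)ˣ) :
      PowerSeries F) • (1 : Matrix (Fin 1) (Fin 1) (PowerSeries F))) (m : ℕ) (hm : 0 < m) :
    Nontrivial (H (cs T₁ ρ (Tr F m)) Ex ∅ 1) := by
  have hact : ∀ (n : ℤ) (v : Fin 1 → Tr F m), repM (Tr F m) ρ (Multiplicative.ofAdd n) v =
      fun i => (((tU om) ^ n : (PowerSeries F)ˣ) : PowerSeries F) • v i :=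
    fun n v => repM_scalar ρ _ _ (hρg _) v
  -- the socle element
  let e : Tr F m := Ideal.Quotient.mk _ ((PowerSeries.X : PowerSeries F) ^ (m - 1))
  have hXe : (PowerSeries.X : PowerSeries F) • e = 0 := by
    show Ideal.Quotient.mk _ ((PowerSeries.X : PowerSeries F) * (PowerSeries.X : PowerSeries F) ^ (m - 1)) = 0
    rw [← pow_succ', Nat.sub_add_cancel hm, Ideal.Quotient.eq_zero_iff_mem]
    exact Ideal.subset_span rfl
  have he : e ≠ 0 := by
    intro h
    rw [Ideal.Quotient.eq_zero_iff_mem, Ideal.mem_span_singleton, PowerSeries.X_pow_dvd_iff] at h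
    have := h (m - 1) (by omega)
    rw [PowerSeries.coeff_X_pow_self] at this
    exact one_ne_zero this
  have hom3 : (om : F) ^ 3 = -1 := by
    have : (om : F) ^ 3 + 1 = ((om : F) + 1) * ((om : F) ^ 2 - om + 1) := by ring
    rw [hom, mul_zero] at this
    exact eq_neg_of_add_eq_zero_left this
  have ht1 : ((tU om : (PowerSeries F)ˣ) : PowerSeries F) • e = PowerSeries.C (om : F) • e := by
    show (PowerSeries.C (om : F) + PowerSeries.X) • e = _
    rw [add_smul, hXe, add_zero]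
  have ht3 : (((tU om) ^ (3 : ℤ) : (PowerSeries F)ˣ) : PowerSeries F) • e = -e := by
    have h3 : (((tU om) ^ (3 : ℤ) : (PowerSeries F)ˣ) : PowerSeries F) =
        ((tU om : (PowerSeries F)ˣ) : PowerSeries F) * (((tU om : (PowerSeries F)ˣ) : PowerSeries F) *
          ((tU om : (PowerSeries F)ˣ) : PowerSeries F)) := by
      rw [show (3 : ℤ) = ((3 : ℕ) : ℤ) from rfl, zpow_natCast, Units.val_pow_eq_pow_val]; ring
    have hc1 : ((tU om : (PowerSeries F)ˣ) : PowerSeries F) • (PowerSeries.C (om : F) • e) =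
        PowerSeries.C (om : F) • (PowerSeries.C (om : F) • e) := by rw [smul_comm, ht1]
    have hc2 : ((tU om : (PowerSeries F)ˣ) : PowerSeries F) • (PowerSeries.C (om : F) • (PowerSeries.C (om : F) • e)) =
        PowerSeries.C (om : F) • (PowerSeries.C (om : F) • (PowerSeries.C (om : F) • e)) := by
      rw [smul_comm, hc1]
    rw [h3, mul_smul, mul_smul, ht1, hc1, hc2, smul_smul, smul_smul, ← map_mul, ← map_mul]
    rw [show (om : F) * om * om = (om : F) ^ 3 by ring, hom3, map_neg, map_one, neg_smul, one_smul]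
  -- the pair
  let U : Aff (repM (Tr F m) ρ) := ⟨fun _ => e, Multiplicative.ofAdd 3⟩
  let W : Aff (repM (Tr F m) ρ) := ⟨0, Multiplicative.ofAdd 2⟩
  have hUW : U ^ 2 = W ^ 3 := by
    ext
    · rename_i i
      have h1 : (U ^ 2).v i = e + (((tU om) ^ (3 : ℤ) : (PowerSeries F)ˣ) : PowerSeries F) • e := by
        rw [pow_two, Aff.mul_v, Pi.add_apply, hact]
      have h2 : (W ^ 3).v = 0 := by
        rw [pow_succ, pow_two, Aff.mul_v, Aff.mul_v]; simp [W]
      rw [h1, h2, ht3]; simp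
    · rfl
  have hpair : UW T₁ U.g W.g := by
    obtain ⟨u, hu⟩ := hc
    have h1 := UW.gauge (gflat_cf.mono ?_) UW_cf hu
    · rw [mul_comm (u x0)⁻¹, mul_comm (u x0)⁻¹, mul_assoc, mul_assoc, inv_mul_cancel, mul_one, mul_one] at h1
      exact h1
    · intro z hz
      refine ⟨by rw [show nrm z = 1 from hz.1]; norm_num, fun k hk he => ?_⟩
      rw [show nrm z = 1 from hz.1, one_smul] at he
      obtain ⟨v, hv, hkv⟩ := hk
      exact hz.2 ⟨v, 0, hv, by norm_num, by rw [he, hkv]⟩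
  obtain ⟨c, hcZ, hcU⟩ := tref_lift hT hpair hUW
  refine ⟨⟨(H.mk (cs T₁ ρ (Tr F m)) Ex ∅ 1) ⟨c, hcZ⟩, 0, fun h0 => ?_⟩⟩
  have hB : c ∈ Bc (sys T₁ (repM (Tr F m) ρ)) Ex ∅ 1 :=
    (H.mk_eq_zero (T := cs T₁ ρ (Tr F m)) (S := Ex) (S' := ∅) (q := 1) ⟨c, hcZ⟩).1 h0
  have hF : GFlat (aff (repM (Tr F m) ρ) T₁ c) Ex := (gflat_aff _ hT).2 hcZ
  obtain ⟨x, hx1, hx2⟩ := (tref_tri hF hcU).1 ((tri_iff hT).2 hB)
  -- `x = 0`
  have hx0 : x = 0 := by
    funext i
    have h1 := congrFun hx2 i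
    have h2 : (0 : Tr F m) = x i - (((tU om) ^ (2 : ℤ) : (PowerSeries F)ˣ) : PowerSeries F) • x i := by
      have h3 := congrFun (hact 2 x) i
      rw [← h3]; exact h1
    have hunit : IsUnit ((1 : PowerSeries F) - (((tU om) ^ (2 : ℤ) : (PowerSeries F)ˣ) : PowerSeries F)) := by
      rw [PowerSeries.isUnit_iff_constantCoeff]
      have h4 : PowerSeries.constantCoeff ((1 : PowerSeries F) - (((tU om) ^ (2 : ℤ) : (PowerSeries F)ˣ) : PowerSeries F)) =
          1 - (om : F) ^ 2 := by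
        rw [map_sub, map_one, show (2 : ℤ) = ((2 : ℕ) : ℤ) from rfl, zpow_natCast, Units.val_pow_eq_pow_val, map_pow]
        simp [tU]
      rw [h4, isUnit_iff_ne_zero]
      intro h5
      have h6 : (om : F) = 2 := by linear_combination -hom - h5
      rw [h6] at hom
      have h7 : (3 : F) = 0 := by linear_combination hom
      have h8 : ((3 : ℕ) : F) = 0 := by exact_mod_cast h7
      rw [CharP.cast_eq_zero_iff F 5] at h8
      omega
    have h9 : ((1 : PowerSeries F) - (((tU om) ^ (2 : ℤ) : (PowerSeries F)ˣ) : PowerSeries F)) • x i = 0 := by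
      rw [sub_smul, one_smul]; exact h2.symm
    rw [Pi.zero_apply]
    exact hunit.smul_left_cancel.1 (by rw [h9, smul_zero])
  rw [hx0] at hx1
  apply he
  have h10 := congrFun hx1 0
  simpa using h10

/-- (5.2) a nontrivial class over the truncated power series ring of a field `F` with 25 elements -/
theorem exists_class {D : Tube} (hK : EndsK D)
    {T₀ : ℂ × ℂ → ℂ × ℂ → Multiplicative ℤ} (hT : GFlat T₀ D.O) (hc : GaugeEq T₀ cf D.EK)
    {F : Type} [Field F] [Finite F] [Algebra (ZMod 5) F] (σ : F ≃ₐ[ZMod 5] F) (hσ : ∀ a, σ (σ a) = a)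
    (om : Fˣ) (hom : (om : F) ^ 2 - om + 1 = 0) (hs : σ (om : F) = ((om⁻¹ : Fˣ) : F))
    (ρ : Multiplicative ℤ →* Matrix (Fin 1) (Fin 1) (PowerSeries F))
    (hρ : ρ = repR (MonoidHom.id _) (1 : Multiplicative ℤ →* Matrix (Fin 1) (Fin 1) F) om) :
    ∃ m : ℕ, 0 < m ∧ ∃ α : List (ℂ × ℂ) → (Fin 1 → Tr F m), Coc T₀ ρ m D.X α ∧
      (¬ Cob T₀ ρ m D.EJ α ∨ ¬ Cob T₀ ρ m D.EK α) := by
  have : Fact (Nat.Prime 5) := ⟨by norm_num⟩
  have : FiniteDimensional (ZMod 5) F := Module.Finite.of_finite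
  -- ρ of an element
  have hρg : ∀ g : Multiplicative ℤ, ρ g =
      (((tU om) ^ (Multiplicative.toAdd g) : (PowerSeries F)ˣ) : PowerSeries F) • (1 : Matrix (Fin 1) (Fin 1) (PowerSeries F)) := by
    intro g
    rw [hρ]
    show (((tU om) ^ (Multiplicative.toAdd g) : (PowerSeries F)ˣ) : PowerSeries F) •
      ((1 : Matrix (Fin 1) (Fin 1) F)).map PowerSeries.C = _
    rw [Matrix.map_one _ (map_zero _) (map_one _)]
  have hom1 : (om : F) ≠ 1 := by
    intro h; rw [h] at hom; norm_num at hom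
  have hXO : D.X ⊆ D.O := fun z hz => D.Xar_subset_O (by norm_num) hz
  -- acyclicity
  have aK : ∀ q, HV (cs T₀ ρ (LaurentSeries F)) D.EK ∅ q := by
    intro q
    refine kend_acyclic hK hT (repM (LaurentSeries F) ρ) ?_ q
    intro x hx g hg
    have hg6 := TK_orb hK hT hc hx hg
    refine isUnit_one_sub_repM ρ g _ (hρg g) ?_
    rw [hg6]
    intro h
    have h2 : ((tU om : (PowerSeries F)ˣ) : PowerSeries F) ^ 6 = 1 := by
      apply FaithfulSMul.algebraMap_injective (PowerSeries F) (LaurentSeries F)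
      rw [map_one, ← h]
      rfl
    exact tU_pow_ne om h2
  have hflat : Flat (cs T₀ ρ (LaurentSeries F)) D.X := (hT.mono hXO).sys _
  have aX : ∀ q, HV (cs T₀ ρ (LaurentSeries F)) D.X ∅ q := fun q =>
    HV_triple_mid hflat D.EK_subset (empty_subset _) (chain_one hT (Or.inr rfl) om ρ hρ q) (aK q)
  have aJ : ∀ q, HV (cs T₀ ρ (LaurentSeries F)) D.EJ ∅ q := fun q =>
    HV_triple_sub hflat D.EJ_subset (empty_subset _) (aX q) (chain_one hT (Or.inl rfl) om ρ hρ (q + 1))
  -- meridian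
  have hu1 : ‖(1:ℂ)‖ = 1 := by simp
  obtain ⟨g, hg⟩ := exists_hasTr hT (γ := D.mer 1 0 (1/2))
    (D.mer_cont hu1 (by norm_num) (by norm_num)).continuousOn
    (fun s _ => D.mer_mem hu1 (by norm_num) (by norm_num) s)
  have hu : IsUnit (1 - rep0 (MonoidHom.id (Multiplicative ℤ)) (1 : Multiplicative ℤ →* Matrix (Fin 1) (Fin 1) F) om g) := by
    have h1 : (1 - rep0 (MonoidHom.id (Multiplicative ℤ)) (1 : Multiplicative ℤ →* Matrix (Fin 1) (Fin 1) F) om g) =
        (1 - ((om ^ (Multiplicative.toAdd g) : Fˣ) : F)) • (1 : Matrix (Fin 1) (Fin 1) F) := by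
      rw [sub_smul, one_smul]; rfl
    rw [h1]
    have h2 : (1 - ((om ^ (Multiplicative.toAdd g) : Fˣ) : F)) ≠ 0 := by
      rw [sub_ne_zero]
      rcases T0_mer hK hT hc hu1 (by norm_num) (by norm_num) hg with h | h
      · rw [h, toAdd_ofAdd, zpow_one]; exact hom1.symm
      · rw [h, toAdd_ofAdd, zpow_neg, zpow_one]
        intro h3
        apply hom1
        have h4 : (om⁻¹ : Fˣ) = 1 := Units.ext h3.symm
        rw [inv_eq_one.1 h4]; rfl
    rw [← Algebra.algebraMap_eq_smul_one]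
    exact (IsUnit.mk0 _ h2).map (algebraMap F (Matrix (Fin 1) (Fin 1) F))
  obtain ⟨m₀, hm₀⟩ := half_lives (k₀ := ZMod 5) D (kend_preconnected hK) hT σ hσ (MonoidHom.id _)
    (1 : Multiplicative ℤ →* Matrix (Fin 1) (Fin 1) F) om hs
    (by intro g; simp) ρ hρ hg hu aX aJ aK
  have hEK : GFlat T₀ D.EK := hT.mono (fun z hz => hXO (D.EK_subset hz))
  obtain ⟨f1, m1, hm1⟩ := finite_of_frac D.CR_EK CR_empty (empty_subset _) hEK ρ 1 (aK 1)
  obtain ⟨f2, m2, hm2⟩ := finite_of_frac D.CR_EK CR_empty (empty_subset _) hEK ρ 2 (aK 2)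
  let m := m₀ + m1 + m2 + 1
  obtain ⟨ff, -⟩ := finrank_trunc hEK (empty_subset _) ρ 1 m (hm1 m (by omega)) (hm2 m (by omega)) f1 f2
  have hTKc : GaugeEq cf (TK T₀) Ex := by
    have h1 := TK_gauge hK (T0_SK hK hT hc)
    rw [TK_cf] at h1
    refine (GaugeEq.mono' h1 ?_).symm
    intro z hz
    refine ⟨hz.1, ?_⟩
    rintro ⟨v, hv, hkv⟩
    exact hz.2 ⟨v, 0, hv, by norm_num, hkv⟩
  have : CharP F 5 := by
    exact charP_of_injective_algebraMap (algebraMap (ZMod 5) F).injective 5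
  have hTE : GFlat (TK T₀) Ex := (TK_flat hK hT).mono (by
    intro z hz
    refine ⟨hz.1, ?_⟩
    rintro ⟨v, hv, hkv⟩
    exact hz.2 ⟨v, 0, hv, by norm_num, hkv⟩)
  have hnt := Ex_nontriv hTE hTKc om hom ρ hρg m (by omega)
  obtain ⟨eqv⟩ := kend_H1 hK hT (repM (Tr F m) ρ)
  have hnt' : Nontrivial (H (sys (TK T₀) (repM (Tr F m) ρ)) Ex ∅ 1) := hnt
  have hnt2 : Nontrivial (H (cs T₀ ρ (Tr F m)) D.EK ∅ 1) :=
    @Equiv.nontrivial _ _ eqv.toEquiv hnt'
  have hpos : 0 < hm T₀ ρ m D.EK ∅ 1 := by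
    unfold hm
    have := ff
    exact Module.finrank_pos
  exact ⟨m, by omega, (hm₀ m (by omega)).2 (by omega)⟩

end Pool.Agent.Helper60.Fin
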