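import Pool.Agent.Helper60.Alg.Gam

/-! `s - 1` is nilpotent, `s X = M X (σ M)ᵀ`. -/

set_option autoImplicit false

namespace Pool.Agent.Helper60.Fin

open Alg

theorem unip161_step {F : Type*} [Field F] {om : Fˣ} {m : ℕ} (σ : F ≃+* F)
    (hσ : σ (om : F) = ((om⁻¹ : Fˣ) : F)) (Y : Matrix (Fin m) (Fin m) F) (N : ℕ)
    (hY : ∀ i j : Fin m, (i : ℕ) + (j : ℕ) < N → Y i j = 0) (i j : Fin m)
    (hij : (i : ℕ) + (j : ℕ) < N + 1) :
    (Mt F om m * Y * ((Mt F om m).map σ).transpose) i j = Y i j := by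
  have hd : ∀ i : Fin m, Mt F om m i i = (om : F) := fun i => by simp [Mt]
  have hz : ∀ i k : Fin m, k ≠ i → (i : ℕ) ≠ (k : ℕ) + 1 → Mt F om m i k = 0 := by
    intro i k h1 h2
    unfold Mt
    rw [if_neg (Ne.symm h1), if_neg h2]
  rw [Matrix.mul_apply, Finset.sum_eq_single j]
  · rw [Matrix.mul_apply, Finset.sum_eq_single i]
    · rw [Matrix.transpose_apply, Matrix.map_apply, hd, hd, hσ]
      have h1 : (om : F) * ((om⁻¹ : Fˣ) : F) = 1 := Units.mul_inv om
      linear_combination (Y i j) * h1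
    · intro k _ hk
      by_cases h : (i : ℕ) = (k : ℕ) + 1
      · rw [hY k j (by omega), mul_zero]
      · rw [hz i k hk h, zero_mul]
    · intro h
      exact absurd (Finset.mem_univ _) h
  · intro l _ hl
    rw [Matrix.transpose_apply, Matrix.map_apply]
    by_cases h : (j : ℕ) = (l : ℕ) + 1
    · rw [Matrix.mul_apply, Finset.sum_eq_zero, zero_mul]
      intro k _
      by_cases hk : k = i
      · subst hk
        rw [hY k l (by omega), mul_zero]
      · by_cases h' : (i : ℕ) = (k : ℕ) + 1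
        · rw [hY k l (by omega), mul_zero]
        · rw [hz i k hk h', zero_mul]
    · rw [hz j l hl h, map_zero, mul_zero]
  · intro h
    exact absurd (Finset.mem_univ _) h

theorem unip161 {F : Type*} [Field F] {om : Fˣ} {m : ℕ} (σ : F ≃+* F)
    (hσ : σ (om : F) = ((om⁻¹ : Fˣ) : F)) (s : Module.End ℤ (Matrix (Fin m) (Fin m) F))
    (hs : ∀ X, s X = Mt F om m * X * ((Mt F om m).map σ).transpose) :
    (s - 1) ^ (2 * m) = 0 := by
  have key : ∀ (N : ℕ) (X : Matrix (Fin m) (Fin m) F) (i j : Fin m), (i : ℕ) + (j : ℕ) < N →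
      ((s - 1) ^ N) X i j = 0 := by
    intro N X
    induction N with
    | zero => intro i j h; omega
    | succ N ih =>
      intro i j h
      rw [pow_succ', Module.End.mul_apply]
      have e : (s - 1) (((s - 1) ^ N) X) = s (((s - 1) ^ N) X) - ((s - 1) ^ N) X := rfl
      rw [e, Matrix.sub_apply, hs, unip161_step σ hσ _ N ih i j h, sub_self]
  apply LinearMap.ext
  intro X
  apply Matrix.ext
  intro i j
  exact key (2 * m) X i j (by have := i.2; have := j.2; omega)

end Pool.Agent.Helper60.Fin
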