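import Pool.Agent.Helper60.Fin.L1b
import Pool.Agent.Helper60.Fin.Unip161
import Pool.Agent.Helper60.Alg.Coord

/-! First level, part c: algebra around the class `α` (coordinates, unipotency, the 2-cochain). -/

set_option autoImplicit false

namespace Pool.Agent.Helper60.Fin

open Set AS Geo Alg

section powers

variable {L W : Type*} [AddCommGroup L] [AddCommGroup W] (H : HData L W)

theorem l1_tz_zero (x : L) : H.tz 0 x = x := by
  show ((H.t ^ (0:ℤ) : (AddMonoid.End L)ˣ) : AddMonoid.End L) x = x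
  rw [zpow_zero]; rfl
theorem l1_tz_add (a b : ℤ) (x : L) : H.tz (a + b) x = H.tz a (H.tz b x) := by
  show ((H.t ^ (a + b) : (AddMonoid.End L)ˣ) : AddMonoid.End L) x = _
  rw [zpow_add]; rfl
theorem l1_sz_zero (x : W) : H.sz 0 x = x := by
  show ((H.s ^ (0:ℤ) : (AddMonoid.End W)ˣ) : AddMonoid.End W) x = x
  rw [zpow_zero]; rfl
theorem l1_sz_add (a b : ℤ) (x : W) : H.sz (a + b) x = H.sz a (H.sz b x) := by
  show ((H.s ^ (a + b) : (AddMonoid.End W)ˣ) : AddMonoid.End W) x = _
  rw [zpow_add]; rfl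

/-- the representations of `ℤ` on `L` and `W` -/
def rL : Multiplicative ℤ →* (L →ₗ[ℤ] L) where
  toFun n := (H.tz (Multiplicative.toAdd n)).toIntLinearMap
  map_one' := by
    apply LinearMap.ext; intro x
    exact l1_tz_zero H x
  map_mul' a b := by
    apply LinearMap.ext; intro x
    exact l1_tz_add H _ _ x

def rW : Multiplicative ℤ →* (W →ₗ[ℤ] W) where
  toFun n := (H.sz (Multiplicative.toAdd n)).toIntLinearMap
  map_one' := by
    apply LinearMap.ext; intro x
    exact l1_sz_zero H x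
  map_mul' a b := by
    apply LinearMap.ext; intro x
    exact l1_sz_add H _ _ x

@[simp] theorem rL_apply (n : Multiplicative ℤ) (x : L) : rL H n x = H.tz (Multiplicative.toAdd n) x := rfl
@[simp] theorem rW_apply (n : Multiplicative ℤ) (x : W) : rW H n x = H.sz (Multiplicative.toAdd n) x := rfl

/-- projection of `Γ` to `L ⋊ ℤ` -/
def prL : Gam H →* Aff (rL H) where
  toFun x := ⟨x.a, Multiplicative.ofAdd x.d⟩
  map_one' := rfl
  map_mul' _ _ := rfl

end powers

/-- intertwining of all powers -/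
theorem coord_zpow {F : Type*} [Field F] {om : Fˣ} {m : ℕ}
    {H : HData (Fin m → F) (Matrix (Fin m) (Fin m) F)}
    (ht : ∀ x, H.tz 1 x = (Mt F om m).mulVec x)
    {ρ : Multiplicative ℤ →* Matrix (Fin 1) (Fin 1) (PowerSeries F)}
    {φ : (Fin 1 → Tr F m) ≃ₗ[F] (Fin m → F)}
    (hφ : ∀ v : Fin 1 → Tr F m, φ (matAct (Tr F m) (ρ (Multiplicative.ofAdd 1)) v) = (Mt F om m).mulVec (φ v))
    (n : ℤ) (v : Fin 1 → Tr F m) :
    φ (repM (Tr F m) ρ (Multiplicative.ofAdd n) v) = H.tz n (φ v) := by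
  have h1 : ∀ v : Fin 1 → Tr F m, φ (repM (Tr F m) ρ (Multiplicative.ofAdd 1) v) = H.tz 1 (φ v) := by
    intro v; rw [ht]; exact hφ v
  induction n using Int.induction_on generalizing v with
  | zero => rw [l1_tz_zero]; simp
  | succ i hi =>
    rw [ofAdd_add, map_mul, Module.End.mul_apply, hi, h1, l1_tz_add]
  | pred i hi =>
    have h2 : v = repM (Tr F m) ρ (Multiplicative.ofAdd 1) (repM (Tr F m) ρ (Multiplicative.ofAdd (-1)) v) := by
      rw [← Module.End.mul_apply, ← map_mul, ← ofAdd_add, add_neg_cancel, ofAdd_zero, map_one]; rfl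
    have h3 : φ (repM (Tr F m) ρ (Multiplicative.ofAdd (-1)) v) = H.tz (-1) (φ v) := by
      have h4 := h1 (repM (Tr F m) ρ (Multiplicative.ofAdd (-1)) v)
      rw [← h2] at h4
      rw [h4, ← l1_tz_add, neg_add_cancel, l1_tz_zero]
    rw [sub_eq_add_neg, ofAdd_add, map_mul, Module.End.mul_apply, hi, h3, l1_tz_add]

/-- `1 - t^n` is invertible on `L` if `ω^n ≠ 1` -/
theorem isUnit_one_sub_rL {F : Type*} [Field F] {om : Fˣ} {m : ℕ}
    {H : HData (Fin m → F) (Matrix (Fin m) (Fin m) F)}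
    (ht : ∀ x, H.tz 1 x = (Mt F om m).mulVec x)
    {ρ : Multiplicative ℤ →* Matrix (Fin 1) (Fin 1) (PowerSeries F)}
    (hρg : ∀ g : Multiplicative ℤ, ρ g = (((tU om) ^ (Multiplicative.toAdd g) : (PowerSeries F)ˣ) :
      PowerSeries F) • (1 : Matrix (Fin 1) (Fin 1) (PowerSeries F)))
    {φ : (Fin 1 → Tr F m) ≃ₗ[F] (Fin m → F)}
    (hφ : ∀ v : Fin 1 → Tr F m, φ (matAct (Tr F m) (ρ (Multiplicative.ofAdd 1)) v) = (Mt F om m).mulVec (φ v))
    (n : ℤ) (hn : ((om ^ n : Fˣ) : F) ≠ 1) : IsUnit (1 - rL H (Multiplicative.ofAdd n)) := by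
  have hcc : PowerSeries.constantCoeff (((tU om) ^ n : (PowerSeries F)ˣ) : PowerSeries F) = ((om ^ n : Fˣ) : F) := by
    have h1 : Units.map (PowerSeries.constantCoeff (R := F)).toMonoidHom (tU om) = om := by
      ext
      simp [tU]
    have h2 : Units.map (PowerSeries.constantCoeff (R := F)).toMonoidHom ((tU om) ^ n) = om ^ n := by
      rw [map_zpow, h1]
    exact congrArg Units.val h2
  have hunit : IsUnit ((1 : PowerSeries F) - (((tU om) ^ n : (PowerSeries F)ˣ) : PowerSeries F)) := by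
    rw [PowerSeries.isUnit_iff_constantCoeff, map_sub, map_one, hcc, isUnit_iff_ne_zero, sub_ne_zero]
    exact hn.symm
  have key : ∀ v : Fin 1 → Tr F m, (1 - rL H (Multiplicative.ofAdd n)) (φ v) =
      φ (fun i => ((1 : PowerSeries F) - (((tU om) ^ n : (PowerSeries F)ˣ) : PowerSeries F)) • v i) := by
    intro v
    have h1 := coord_zpow ht hφ n v
    rw [LinearMap.sub_apply, rL_apply, toAdd_ofAdd, ← h1, Module.End.one_apply, ← map_sub]
    congr 1
    rw [repM_scalar ρ _ _ (hρg _) v]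
    funext i
    rw [Pi.sub_apply, sub_smul, one_smul]; rfl
  rw [Module.End.isUnit_iff]
  constructor
  · intro x y hxy
    obtain ⟨v, rfl⟩ := φ.surjective x
    obtain ⟨w, rfl⟩ := φ.surjective y
    have h2 := (key v).symm.trans (hxy.trans (key w))
    have h3 := φ.injective h2
    congr 1
    funext i
    exact hunit.smul_left_cancel.1 (congrFun h3 i)
  · intro y
    obtain ⟨w, rfl⟩ := φ.surjective y
    obtain ⟨u, hu⟩ := hunit
    refine ⟨φ (fun i => ((u⁻¹ : (PowerSeries F)ˣ) : PowerSeries F) • w i), ?_⟩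
    rw [key]
    congr 1
    funext i
    rw [← hu, smul_smul, Units.mul_inv, one_smul]

/-- `s - 1` is nilpotent on `W` -/
theorem sW_unipotent {F : Type*} [Field F] {om : Fˣ} {m : ℕ} (σ : F ≃+* F)
    (hσ : σ (om : F) = ((om⁻¹ : Fˣ) : F))
    {H : HData (Fin m → F) (Matrix (Fin m) (Fin m) F)}
    (hs : ∀ X, H.sz 1 X = Mt F om m * X * ((Mt F om m).map σ).transpose) :
    (rW H (Multiplicative.ofAdd 1) - 1) ^ (2 * m) = 0 :=
  unip161 σ hσ (rW H (Multiplicative.ofAdd 1)) hs

end Pool.Agent.Helper60.Fin
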