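import Pool.Agent.Helper60.Fin.L1c

/-! First level, part d: the flat function with values in `Γ` on the exterior. -/

set_option autoImplicit false

namespace Pool.Agent.Helper60.Fin

open Set AS Geo Alg

theorem l1_dT_four {Ω k V : Type*} [CommRing k] [AddCommGroup V] [Module k V]
    (T : Ω → Ω → (V →ₗ[k] V)) (c : List Ω → V) (x y z w : Ω) :
    dT T c [x, y, z, w] = T x y (c [y, z, w]) - c [x, z, w] + c [x, y, w] - c [x, y, z] := by
  simp [dT_cons, d0_cons]; abel

/-- from a 1-cocycle `α` with values in `L` over the integer class to a `Γ`-valued flat function -/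
theorem exists_gamma_fun {D : Tube} (hK : EndsK D) {L W : Type} [AddCommGroup L] [AddCommGroup W]
    (H : HData L W) {N : ℕ} (hN : (rW H (Multiplicative.ofAdd 1) - 1) ^ N = 0)
    {T₀ : ℂ × ℂ → ℂ × ℂ → Multiplicative ℤ} (hT : GFlat T₀ D.O)
    {α : ℂ × ℂ → ℂ × ℂ → L}
    (hα : ∀ a ∈ D.X, ∃ ε > 0, ∀ x y z, dist x a < ε → dist y a < ε → dist z a < ε →
      α x y + H.tz (Multiplicative.toAdd (T₀ x y)) (α y z) = α x z) :
    ∃ γ : ℂ × ℂ → ℂ × ℂ → W,
      GFlat (fun x y => (⟨α x y, γ x y, Multiplicative.toAdd (T₀ x y)⟩ : Gam H)) D.X := by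
  have hX : GFlat T₀ D.X := hT.mono (fun z hz => D.Xar_subset_O (by norm_num) hz)
  let κ : List (ℂ × ℂ) → W := fun l => match l with
    | [x, y, z] => H.b (α x y) (H.tz (Multiplicative.toAdd (T₀ x y)) (α y z))
    | _ => 0
  have hκ : κ ∈ Zc (sys T₀ (rW H)) D.X ∅ 2 := by
    refine ⟨NZ.empty, fun a ha => ?_⟩
    obtain ⟨e1, h1, t1⟩ := hX a ha
    obtain ⟨e2, h2, t2⟩ := hα a ha
    refine ⟨min e1 e2, lt_min h1 h2, fun l hl hx => ?_⟩
    match l, hl, hx with
    | [x, y, z, w], _, hx =>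
      have hx1 := hx x (by simp)
      have hy1 := hx y (by simp)
      have hz1 := hx z (by simp)
      have hw1 := hx w (by simp)
      simp only [lt_min_iff] at hx1 hy1 hz1 hw1
      have q1 := t1 x y z hx1.1 hy1.1 hz1.1
      have q2 := t2 x y z hx1.2 hy1.2 hz1.2
      have q3 := t2 y z w hy1.2 hz1.2 hw1.2
      have q4 : Multiplicative.toAdd (T₀ x z) =
          Multiplicative.toAdd (T₀ x y) + Multiplicative.toAdd (T₀ y z) := by
        rw [← toAdd_mul, q1]
      rw [l1_dT_four]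
      simp only [κ, sys, rW_apply]
      rw [← Gam.hb_zpow, ← l1_tz_add, ← q4, ← q2, ← q3, map_add, map_add, ← l1_tz_add, ← q4]
      simp only [map_add, AddMonoidHom.add_apply]
      abel
  obtain ⟨b, -, hb⟩ := H2_unipotent hK hT N (rW H) hN hκ
  refine ⟨fun x y => - b [x, y], ?_⟩
  refine exists_gam H hX hα (fun a ha => ?_)
  obtain ⟨e, he, h⟩ := hb a ha
  refine ⟨e, he, fun x y z hx hy hz => ?_⟩
  have h1 := h [x, y, z] rfl (by simp [hx, hy, hz])
  rw [Pi.sub_apply, dT_three, sub_eq_zero] at h1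
  have h2 : H.b (α x y) (H.tz (Multiplicative.toAdd (T₀ x y)) (α y z)) =
      H.sz (Multiplicative.toAdd (T₀ x y)) (b [y, z]) - b [x, z] + b [x, y] := h1
  rw [h2, map_neg]
  abel

/-- pairs and degrees -/
theorem deg_of_UW {L W : Type*} [AddCommGroup L] [AddCommGroup W] {H : HData L W}
    {T : ℂ × ℂ → ℂ × ℂ → Gam H} (hT : GFlat T Ex) {m : ℤ}
    (hc : GaugeEq (fun x y => (cf x y) ^ m) (fun x y => Gam.deg H (T x y)) Ex)
    {U V : Gam H} (h : UW T U V) : U.d = 3 * m ∧ V.d = 2 * m := by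
  have hEx : Ex ⊆ {z | nrm z ≠ 0 ∧ ∀ k ∈ Kn, z ≠ nrm z • k} := by
    intro z hz
    refine ⟨by rw [show nrm z = 1 from hz.1]; norm_num, fun k hk he => ?_⟩
    rw [show nrm z = 1 from hz.1, one_smul] at he
    obtain ⟨v, hv, hkv⟩ := hk
    exact hz.2 ⟨v, 0, hv, by norm_num, by rw [he, hkv]⟩
  have h1 := UW.map (zpowGroupHom m) UW_cf
  have hfl : GFlat (fun x y => (cf x y) ^ m) Ex := (gflat_cf.mono hEx).map (zpowGroupHom m)
  obtain ⟨u, hu⟩ := hc
  have h2 := UW.gauge hfl h1 hu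
  rw [mul_comm (u x0)⁻¹, mul_comm (u x0)⁻¹, mul_assoc, mul_assoc, inv_mul_cancel, mul_one, mul_one] at h2
  have h3 := UW.map (Gam.deg H) h
  have hT' : GFlat (fun x y => Gam.deg H (T x y)) Ex := hT.map _
  obtain ⟨h4, h5⟩ := UW.unique hT' h3 h2
  constructor
  · have h6 := congrArg Multiplicative.toAdd h4
    have h7 : Multiplicative.toAdd (zpowGroupHom m (Multiplicative.ofAdd (3:ℤ))) = 3 * m := by
      show Multiplicative.toAdd ((Multiplicative.ofAdd (3:ℤ)) ^ m) = 3 * m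
      rw [toAdd_zpow, toAdd_ofAdd, smul_eq_mul, mul_comm]
    rw [h7] at h6
    exact h6
  · have h6 := congrArg Multiplicative.toAdd h5
    have h7 : Multiplicative.toAdd (zpowGroupHom m (Multiplicative.ofAdd (2:ℤ))) = 2 * m := by
      show Multiplicative.toAdd ((Multiplicative.ofAdd (2:ℤ)) ^ m) = 2 * m
      rw [toAdd_zpow, toAdd_ofAdd, smul_eq_mul, mul_comm]
    rw [h7] at h6
    exact h6

end Pool.Agent.Helper60.Fin
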