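import Pool.Agent.Helper60.Fin.L2K

set_option autoImplicit false

namespace Pool.Agent.Helper60.Fin

open Set AS Geo Alg

/-- the cohomology of the lower end -/
theorem L2_dimJ {D : Tube} (hJ : StartsJ D) (hK : EndsK D) (L : Lev1 D) {b : L.G}
    (hr : Rel b L.y) (hg : GaugeEq (TV L.T) (patT b L.y) VP) {n : ℕ}
    (ρ : L.G →* Matrix (Fin n) (Fin n) (PowerSeries ℂ)) (hu : ∀ g, L.deg g ≠ 1 → IsUnit (1 - ρ g))
    (hy : IsUnit (1 - ρ L.y)) (m : ℕ) :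
    hm L.T ρ m D.EJ ∅ 1 = Module.finrank ℂ (LinearMap.ker (Dop (repM (Tr ℂ m) ρ b) (repM (Tr ℂ m) ρ L.y))) := by
  have hTJ : GFlat L.T (Sph \ Jn) := L.flat.mono (Sph_diff_subset_O hJ)
  obtain ⟨e1⟩ := (D.H1_SJ L.flat (repM (Tr ℂ m) ρ)).1
  rw [SJ_eq hJ] at e1
  have hlc : Continuous (lonE 1) := by
    unfold lonE
    exact continuous_eV.comp ((by unfold ee; fun_prop : Continuous ee).prodMk continuous_const)
  have hlm : ∀ s, lonE 1 s ∈ Sph \ Jn := by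
    intro s
    refine eV_mem_of_VP (p := (ee s, ((1:ℝ) : ℂ))) ?_
    rw [Complex.ofReal_one]
    exact ph1_bdry (ph1_norm_ee s) (by simp)
  obtain ⟨g, hg'⟩ := exists_hasTr hTJ hlc.continuousOn (fun s _ => hlm s)
  have hgy : g = L.y := L.lonE g hg'
  have hyM : IsUnit (1 - repM (Tr ℂ m) ρ L.y) := hl_unit_M (Tr ℂ m) ρ hy
  obtain ⟨e2⟩ := J_mv_iso (repM (Tr ℂ m) ρ) hTJ hg' (by rw [hgy]; exact hyM)
    (L2_Ex hJ hK L ρ hu (Tr ℂ m) 1)
  have hyM' : IsUnit (repM (Tr ℂ m) ρ L.y - 1) := by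
    have h1 := hyM.neg
    rwa [neg_sub] at h1
  obtain ⟨e3⟩ := H1_VP (ρ := repM (Tr ℂ m) ρ) (TV_flat hTJ) hg hr (L.hyc b) hyM'
  have h4 := LinearEquiv.finrank_eq ((e1.trans (e2.trans e3)).restrictScalars ℂ)
  exact h4

/-- the cohomology of the upper end -/
theorem L2_dimK {D : Tube} (hK : EndsK D) (L : Lev1 D) {n : ℕ}
    (ρ : L.G →* Matrix (Fin n) (Fin n) (PowerSeries ℂ)) (hu : ∀ g, L.deg g ≠ 1 → IsUnit (1 - ρ g)) (m : ℕ) :
    hm L.T ρ m D.EK ∅ 1 = 0 := by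
  have h := L2_K hK L ρ hu (Tr ℂ m) 1
  have := HV_iff_subsingleton.1 h
  exact Module.finrank_zero_of_subsingleton

end Pool.Agent.Helper60.Fin
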