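import Pool.Agent.Helper60.Fin.PreDef

set_option autoImplicit false

namespace Pool.Agent.Helper60.Fin

open Set AS Geo Alg

/-- the function on the complement of the pattern is the model of a pair `(b, y)` with `deg b = ±1` -/
theorem L2_struct {D : Tube} (hJ : StartsJ D) (hK : EndsK D) (L : Lev1 D) :
    ∃ (b : L.G) (c : ℤ), (c = 1 ∨ c = -1) ∧ L.deg b = Multiplicative.ofAdd c ∧ Rel b L.y ∧
      GaugeEq (TV L.T) (patT b L.y) VP := by
  have hTJ : GFlat L.T (Sph \ Jn) := L.flat.mono (Sph_diff_subset_O hJ)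
  have hV : GFlat (TV L.T) VP := TV_flat hTJ
  obtain ⟨b, l, hbl, u, hu, hu0⟩ := pat_classify hV
  -- the loops
  have hee : Continuous ee := ph1_continuous_ee
  have cl : Continuous (lonE 1) := by
    unfold lonE; exact continuous_eV.comp (hee.prodMk continuous_const)
  have hin : ∀ p : ℂ × ℂ, ‖p.1‖ = 1 → ‖p.2‖ = 1 → eV p ∈ Ex := by
    intro p h1 h2
    refine ⟨eV_sph ⟨h1, h2.le⟩, ?_⟩
    rintro ⟨u, w, hu, hw, he⟩
    have := injOn_eV (show p ∈ Geo.ST from ⟨h1, h2.le⟩) (show (u, w) ∈ Geo.ST from ⟨hu, hw.le⟩) he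
    rw [this] at h2
    exact absurd h2 hw.ne
  have ml : ∀ s, lonE 1 s ∈ Ex := fun s => hin _ (ph1_norm_ee s) (by simp)
  have hVP : ∀ p : ℂ × ℂ, ‖p.1‖ = 1 → ‖p.2‖ = 1 → p ∈ VP :=
    fun p h1 h2 => ⟨⟨h1, h2.le⟩, fun hp => absurd h2 (Pat_norm_lt hp).ne⟩
  have cgl : Continuous gl := by unfold gl; exact (hee.neg).prodMk continuous_const
  have gl0 : gl 0 = v0 := by simp only [gl, v0, ph1_ee_zero]
  have gl1 : gl 1 = v0 := by simp only [gl, v0, ph1_ee_one]
  -- transport of `TV T` along `gl` is `l`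
  have s1 : HasTr (TV L.T) gl l := by
    have h := HasTr.gauge hu.symm cgl.continuousOn (fun s _ => hVP _ (by simp [gl, ph1_norm_ee])
      (by simp [gl])) (patT_gl hbl)
    rw [gl0, gl1, hu0] at h
    simpa using h
  obtain ⟨g, hg⟩ := exists_hasTr (hTJ.mono Ex_subset) cl.continuousOn (fun s _ => ml s)
  obtain ⟨a, ha⟩ := lonE_gl hTJ hg s1
  have hly : l = L.y := by
    have h1 : g = L.y := L.lonE g hg
    rw [h1] at ha
    have h2 : l = a * L.y * a⁻¹ := by rw [ha]; group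
    rw [h2, L.hyc a, mul_assoc, mul_inv_cancel, mul_one]
  subst hly
  -- degrees
  have hT0 : GFlat (fun x y => L.deg (L.T x y)) D.O := L.flat.map L.deg
  have hdy : L.deg L.y = 1 := MonoidHom.mem_ker.1 L.hy
  have hg0 : GaugeEq (TV (fun x y => L.deg (L.T x y)))
      (patT (Multiplicative.ofAdd (Multiplicative.toAdd (L.deg b))) 1) VP := by
    have h := GaugeEq.map L.deg (T := TV L.T) (T' := patT b L.y) ⟨u, hu⟩
    have e : (fun x y => L.deg (patT b L.y x y)) =
        patT (Multiplicative.ofAdd (Multiplicative.toAdd (L.deg b))) 1 := by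
      funext x y
      rw [patT_map, hdy, ofAdd_toAdd]
    rw [e] at h
    exact h
  have hu1 : ‖(1:ℂ)‖ = 1 := by simp
  obtain ⟨g1, hg1⟩ := exists_hasTr hT0 (γ := D.mer 1 0 1)
    (D.mer_cont hu1 one_pos le_rfl).continuousOn (fun s _ => D.mer_mem hu1 one_pos le_rfl s)
  have hc : Multiplicative.toAdd (L.deg b) = 1 ∨ Multiplicative.toAdd (L.deg b) = -1 := by
    rcases T0_mer hK hT0 L.hEK hu1 one_pos le_rfl hg1 with h | h
    · rw [h] at hg1
      exact jend_unit hJ hT0 hg0 one_pos le_rfl (Or.inl rfl) hg1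
    · rw [h] at hg1
      exact jend_unit hJ hT0 hg0 one_pos le_rfl (Or.inr rfl) hg1
  exact ⟨b, Multiplicative.toAdd (L.deg b), hc, (ofAdd_toAdd _).symm, hbl, ⟨u, hu⟩⟩

end Pool.Agent.Helper60.Fin
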