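import Pool.Agent.Helper60.Fin.PreDef

set_option autoImplicit false

namespace Pool.Agent.Helper60.Fin

open Set AS Geo Alg

/-- acyclicity of the upper end -/
theorem L2_K {D : Tube} (hK : EndsK D) (L : Lev1 D) {n : ℕ}
    (ρ : L.G →* Matrix (Fin n) (Fin n) (PowerSeries ℂ)) (hu : ∀ g, L.deg g ≠ 1 → IsUnit (1 - ρ g))
    (M : Type) [AddCommGroup M] [Module (PowerSeries ℂ) M] (q : ℕ) : HV (cs L.T ρ M) D.EK ∅ q := by
  refine kend_acyclic hK L.flat (repM M ρ) ?_ q
  intro x hx g hg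
  have h1 : HasTr (TK (fun a b => L.deg (L.T a b))) (orb x) (L.deg g) := hg.map L.deg
  have h2 := TK_orb hK (L.flat.map L.deg) L.hEK hx h1
  refine hl_unit_M M ρ (hu g ?_)
  rw [h2]
  decide

/-- acyclicity of the trefoil exterior at the lower end -/
theorem L2_Ex {D : Tube} (hJ : StartsJ D) (hK : EndsK D) (L : Lev1 D) {n : ℕ}
    (ρ : L.G →* Matrix (Fin n) (Fin n) (PowerSeries ℂ)) (hu : ∀ g, L.deg g ≠ 1 → IsUnit (1 - ρ g))
    (M : Type) [AddCommGroup M] [Module (PowerSeries ℂ) M] (q : ℕ) : HV (cs L.T ρ M) Ex ∅ q := by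
  have hEx : Exr 1 = Ex := by
    ext z; simp [Exr, Ex]
  have hsub : Ex ⊆ Sph \ Kn := by
    intro z hz
    refine ⟨hz.1, ?_⟩
    rintro ⟨u, hu, rfl⟩
    exact hz.2 ⟨u, 0, hu, by simp, rfl⟩
  have hO : Ex ⊆ D.O := Ex_subset.trans (Sph_diff_subset_O hJ)
  have hT1 : GFlat (fun a b => L.deg (L.T a b)) D.O := L.flat.map L.deg
  obtain ⟨c, m, hc, hm, -, hg⟩ := T0_jend hJ hK hT1 L.hEK
  have key : HV (cs L.T ρ M) (Exr 1) ∅ q := by
    refine tref_acyclic (T := L.T) one_pos le_rfl ?_ (repM M ρ) ?_ q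
    · rw [hEx]; exact L.flat.mono hO
    · intro x hx g hgt
      rw [hEx] at hx
      refine hl_unit_M M ρ (hu g ?_)
      have hee : Continuous ee := by unfold ee; fun_prop
      have hcont : Continuous (orb x) := by
        unfold orb act; fun_prop
      have h1 : HasTr (fun a b => L.deg (L.T a b)) (orb x) (L.deg g) := hgt.map L.deg
      have h2 : HasTr (fun a b => (cf a b) ^ m) (orb x) ((Multiplicative.ofAdd (6:ℤ)) ^ m) :=
        (cf_orb (hsub hx)).map (zpowGroupHom m)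
      have hor : ∀ s, orb x s ∈ Ex := fun s => TC.act_mem_Exr (tcf_norm_ee s) hx
      have h01 : orb x 0 = orb x 1 := by rw [TB371.orb_zero, TB371.orb_one]
      have h3 := HasTr.gauge_comm hg hcont.continuousOn (fun s _ => hor s) h01 h2
      have h4 := h1.unique h3
      rw [h4]
      rcases hm with rfl | rfl
      · decide
      · decide
  rwa [hEx] at key

end Pool.Agent.Helper60.Fin
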