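import Pool.Agent.Helper60.Fin.PreDef
import Pool.Agent.Helper60.Geo.Parity

set_option autoImplicit false

namespace Pool.Agent.Helper60.Fin

open Set AS Geo Alg

/-- the representation with odd dimensional cohomology at the lower end -/
theorem L2_rep {D : Tube} (L : Lev1 D) {b : L.G} {c : ℤ} (hc : c = 1 ∨ c = -1)
    (hb : L.deg b = Multiplicative.ofAdd c) :
    ∃ (n : ℕ) (M : Mono L.G n) (z : ℂ) (hz : z ^ 5 = 1) (r : ℂˣ), IsPrimitiveRoot z 5 ∧
      ‖(r : ℂ)‖ = 1 ∧ (∀ N : ℕ, 0 < N → (r : ℂ) ^ N ≠ 1) ∧ M.rep z hz L.y = z • 1 ∧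
      ∀ m, 0 < m → Odd (Module.finrank ℂ (LinearMap.ker
        (Dop (repM (Tr ℂ m) (repR L.deg (M.rep z hz) r) b)
          (repM (Tr ℂ m) (repR L.deg (M.rep z hz) r) L.y)))) := by
  obtain ⟨n, M, hn, hMp, hMe⟩ := exists_mono L.deg L.hf L.hp L.t L.ht L.y L.hy L.hyc L.hy1 L.hy5
  have hz : IsPrimitiveRoot (Complex.exp (2 * Real.pi * Complex.I / ((5 : ℕ) : ℂ))) 5 :=
    Complex.isPrimitiveRoot_exp 5 (by norm_num)
  generalize Complex.exp (2 * Real.pi * Complex.I / ((5 : ℕ) : ℂ)) = z at hz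
  have hz5 : z ^ 5 = 1 := hz.pow_eq_one
  have hy : M.rep z hz5 L.y = z • 1 := by
    ext i j
    rw [Mono.rep_apply, hMp, hMe, Equiv.Perm.one_apply, Matrix.smul_apply, Matrix.one_apply]
    split_ifs with h
    · show z ^ (1 : ZMod 5).val = z • (1 : ℂ)
      rw [smul_eq_mul, mul_one]
      exact pow_one z
    · rw [smul_zero]
  obtain ⟨r, hr1, hr2, hr3⟩ := exists_r z hz hn (M.rep z hz5 b) (M.rep_finite_order z hz5 b) c hc
  refine ⟨n, M, z, hz5, r, hz, hr1, hr2, hy, fun m hm => hr3 m hm _ _ ?_ ?_⟩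
  · show (((tU r) ^ (Multiplicative.toAdd (L.deg b)) : (PowerSeries ℂ)ˣ) : PowerSeries ℂ) •
      (M.rep z hz5 b).map PowerSeries.C = _
    rw [hb, toAdd_ofAdd]
  · show (((tU r) ^ (Multiplicative.toAdd (L.deg L.y)) : (PowerSeries ℂ)ˣ) : PowerSeries ℂ) •
      (M.rep z hz5 L.y).map PowerSeries.C = _
    have hdy : L.deg L.y = 1 := L.hy
    rw [hdy, toAdd_one, zpow_zero, Units.val_one, one_smul, hy]
    ext1 i j
    rw [Matrix.map_apply, Matrix.smul_apply, Matrix.smul_apply, Matrix.one_apply, Matrix.one_apply]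
    split_ifs with h
    · rw [smul_eq_mul, mul_one, smul_eq_mul, mul_one]
    · rw [smul_zero, smul_zero, map_zero]

end Pool.Agent.Helper60.Fin
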