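import Pool.Agent.Helper60.Fin.PreDef

set_option autoImplicit false

namespace Pool.Agent.Helper60.Fin

open Set AS Geo Alg

/-- `1 - ρ(g)` is invertible if `deg g ≠ 0` -/
theorem L2_unit {G : Type*} [Group G] (deg : G →* Multiplicative ℤ) {n : ℕ} (M : Mono G n) (z : ℂ)
    (hz : z ^ 5 = 1) (r : ℂˣ) (hr : ∀ N : ℕ, 0 < N → (r : ℂ) ^ N ≠ 1) {g : G} (hg : deg g ≠ 1) :
    IsUnit (1 - rep0 deg (M.rep z hz) r g) := by
  obtain ⟨N, hN, hB⟩ := M.rep_finite_order z hz g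
  have hd : Multiplicative.toAdd (deg g) ≠ 0 := fun h => hg (by
    rw [← ofAdd_toAdd (deg g), h, ofAdd_zero])
  -- the scalar
  have hc : ((r ^ (Multiplicative.toAdd (deg g)) : ℂˣ) : ℂ) ^ N ≠ 1 := by
    intro h
    rw [Units.val_zpow_eq_zpow_val, ← zpow_natCast, ← zpow_mul] at h
    rcases lt_or_gt_of_ne (mul_ne_zero hd (Nat.cast_ne_zero.2 hN.ne' : (N : ℤ) ≠ 0)) with h1 | h1
    · have h2 : (r : ℂ) ^ (-(Multiplicative.toAdd (deg g) * (N : ℤ))) = 1 := by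
        rw [zpow_neg, h, inv_one]
      lift -(Multiplicative.toAdd (deg g) * (N : ℤ)) to ℕ using by omega with m hm
      rw [zpow_natCast] at h2
      exact hr m (by omega) h2
    · lift (Multiplicative.toAdd (deg g) * (N : ℤ)) to ℕ using by omega with m hm
      rw [zpow_natCast] at h
      exact hr m (by omega) h
  set c : ℂ := ((r ^ (Multiplicative.toAdd (deg g)) : ℂˣ) : ℂ) with hcdef
  have hA : rep0 deg (M.rep z hz) r g = c • M.rep z hz g := rfl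
  have hAN : rep0 deg (M.rep z hz) r g ^ N = (c ^ N) • (1 : Matrix (Fin n) (Fin n) ℂ) := by
    rw [hA, smul_pow, hB]
  have h3 : (1 - rep0 deg (M.rep z hz) r g) * ∑ i ∈ Finset.range N, rep0 deg (M.rep z hz) r g ^ i =
      (1 - c ^ N) • (1 : Matrix (Fin n) (Fin n) ℂ) := by
    rw [mul_neg_geom_sum, hAN, sub_smul, one_smul]
  have h4 : (1 - rep0 deg (M.rep z hz) r g) *
      ((1 - c ^ N)⁻¹ • ∑ i ∈ Finset.range N, rep0 deg (M.rep z hz) r g ^ i) = 1 := by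
    rw [mul_smul_comm, h3, smul_smul, inv_mul_cancel₀ (sub_ne_zero.2 (Ne.symm hc)), one_smul]
  exact IsUnit.of_mul_eq_one _ h4

/-- `1 - ρ(y)` is invertible -/
theorem L2_unit_y {G : Type*} [Group G] (deg : G →* Multiplicative ℤ) {n : ℕ} (M : Mono G n) (z : ℂ)
    (hz : z ^ 5 = 1) (hz1 : z ≠ 1) (r : ℂˣ) {y : G} (hy : deg y = 1) (h : M.rep z hz y = z • 1) :
    IsUnit (1 - rep0 deg (M.rep z hz) r y) := by
  have hA : rep0 deg (M.rep z hz) r y = z • (1 : Matrix (Fin n) (Fin n) ℂ) := by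
    show ((r ^ (Multiplicative.toAdd (deg y)) : ℂˣ) : ℂ) • M.rep z hz y = _
    rw [hy, toAdd_one, zpow_zero, Units.val_one, one_smul, h]
  have h4 : (1 - rep0 deg (M.rep z hz) r y) * ((1 - z)⁻¹ • (1 : Matrix (Fin n) (Fin n) ℂ)) = 1 := by
    have e : (1 : Matrix (Fin n) (Fin n) ℂ) - z • (1 : Matrix (Fin n) (Fin n) ℂ) =
        (1 - z) • (1 : Matrix (Fin n) (Fin n) ℂ) := by rw [sub_smul, one_smul]
    rw [hA, e, mul_smul_comm, mul_one, smul_smul, inv_mul_cancel₀ (sub_ne_zero.2 (Ne.symm hz1)),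
      one_smul]
  exact IsUnit.of_mul_eq_one _ h4

end Pool.Agent.Helper60.Fin
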