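import Pool.Agent.Helper60.Fin.PreDef

set_option autoImplicit false

namespace Pool.Agent.Helper60.Fin

open Set AS Geo Alg

/-- (5.2)–(5.4): the `Γ`-valued function with nontrivial `L`-class at one end -/
theorem exists_pre {D : Tube} (hJ : StartsJ D) (hK : EndsK D) : Nonempty (Pre D) := by
  obtain ⟨T₀, hT, hc⟩ := exists_T0 hK
  obtain ⟨F, fF, finF, alg, σ, om, hσσ, hom, hσ⟩ := exists_F25
  have : Fact (Nat.Prime 5) := ⟨by norm_num⟩
  have : CharP F 5 := charP_of_injective_algebraMap (algebraMap (ZMod 5) F).injective 5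
  let ρ := repR (MonoidHom.id (Multiplicative ℤ)) (1 : Multiplicative ℤ →* Matrix (Fin 1) (Fin 1) F) om
  have hρg : ∀ g : Multiplicative ℤ, ρ g =
      (((tU om) ^ (Multiplicative.toAdd g) : (PowerSeries F)ˣ) : PowerSeries F) • (1 : Matrix (Fin 1) (Fin 1) (PowerSeries F)) := by
    intro g
    show (((tU om) ^ (Multiplicative.toAdd g) : (PowerSeries F)ˣ) : PowerSeries F) •
      ((1 : Matrix (Fin 1) (Fin 1) F)).map PowerSeries.C = _
    rw [Matrix.map_one _ (map_zero _) (map_one _)]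
  obtain ⟨m, hm, α, hα, hne⟩ := exists_class hK hT hc σ hσσ om hom hσ ρ rfl
  obtain ⟨φ, hφ⟩ := exists_coord om m ρ rfl
  obtain ⟨H, ht, hs, hb⟩ := exists_HData F om m (σ : F ≃+* F)
  have hX : GFlat T₀ D.X := hT.mono (fun z hz => D.Xar_subset_O (by norm_num) hz)
  -- the cocycle in coordinates
  let c' : List (ℂ × ℂ) → (Fin m → F) := fun l => φ (α l)
  have hφz : ∀ (g : Multiplicative ℤ) (v : Fin 1 → Tr F m), φ (repM (Tr F m) ρ g v) = rL H g (φ v) := by
    intro g v
    exact coord_zpow ht hφ (Multiplicative.toAdd g) v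
  have hcoc : ∀ a ∈ D.X, ∃ ε > 0, ∀ x y z, dist x a < ε → dist y a < ε → dist z a < ε →
      c' [x, y] + H.tz (Multiplicative.toAdd (T₀ x y)) (c' [y, z]) = c' [x, z] := by
    intro a ha
    obtain ⟨e, he, h⟩ := hα.2 a ha
    refine ⟨e, he, fun x y z hx hy hz => ?_⟩
    have h1 := h [x, y, z] rfl (by simp [hx, hy, hz])
    have h2 : (repM (Tr F m) ρ (T₀ x y)) (α [y, z]) - α [x, z] + α [x, y] = 0 := by
      rw [← h1]; exact (dT_three (sys T₀ (repM (Tr F m) ρ)) α x y z).symm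
    have h3 := congrArg φ h2
    rw [map_add, map_sub, hφz, map_zero, rL_apply] at h3
    show φ (α [x, y]) + H.tz (Multiplicative.toAdd (T₀ x y)) (φ (α [y, z])) = φ (α [x, z])
    rw [add_comm]
    have h4 : H.tz (Multiplicative.toAdd (T₀ x y)) (φ (α [y, z])) + φ (α [x, y]) - φ (α [x, z]) = 0 := by
      rw [← h3]; abel
    exact sub_eq_zero.1 h4
  obtain ⟨γ, hγ⟩ := exists_gamma_fun hK H (N := 2 * m) (sW_unipotent (σ : F ≃+* F) hσ hs) hT hcoc
  obtain ⟨T, hTO, hTX⟩ := D.extend_flat hγ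
  have hEX : ∀ E, E = D.EJ ∨ E = D.EK → E ⊆ D.X := by
    rintro E (rfl | rfl)
    exacts [D.EJ_subset, D.EK_subset]
  -- nontriviality
  have key : ∀ E, (E = D.EJ ∨ E = D.EK) → ¬ Cob T₀ ρ m E α → ¬ Tri (fun x y => prL H (T x y)) E := by
    intro E hE hcob htri
    apply hcob
    have h1 : GaugeEq (fun x y => prL H (T x y))
        (fun x y => prL H (⟨c' [x, y], γ x y, Multiplicative.toAdd (T₀ x y)⟩ : Gam H)) E :=
      (GaugeEq.mono' (GaugeEq.map (prL H) hTX) (hEX E hE)).symm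
    have h2 : Tri (aff (rL H) T₀ c') E := htri.congr h1
    rw [tri_iff (hX.mono (hEX E hE)), mem_Bc_one _ (hX.mono (hEX E hE))] at h2
    obtain ⟨u, hu⟩ := h2
    show α ∈ Bc (sys T₀ (repM (Tr F m) ρ)) E ∅ 1
    rw [mem_Bc_one _ (hX.mono (hEX E hE))]
    refine ⟨fun x => φ.symm (u x), fun a ha => ?_⟩
    obtain ⟨e, he, h⟩ := hu a ha
    refine ⟨e, he, fun x y hx hy => ?_⟩
    apply φ.injective
    rw [map_sub, hφz, LinearEquiv.apply_symm_apply, LinearEquiv.apply_symm_apply]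
    exact h x y hx hy
  exact ⟨{
    F := F
    om := om
    hom := hom
    σ := (σ : F ≃+* F)
    hσ := hσ
    m := m
    H := H
    ht := ht
    hs := hs
    hb := hb
    hu := fun n hn => isUnit_one_sub_rL ht hρg hφ n hn
    T := T
    flat := hTO
    deg := by
      refine GaugeEq.trans ?_ hc
      have h1 := GaugeEq.mono' (GaugeEq.map (Gam.deg H) hTX) D.EK_subset
      exact h1.symm
    ne := by
      rcases hne with h | h
      · exact Or.inl (key _ (Or.inl rfl) h)
      · exact Or.inr (key _ (Or.inr rfl) h) }⟩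

end Pool.Agent.Helper60.Fin
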