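import Pool.Agent.Helper60.Fin.PreDef

set_option autoImplicit false

namespace Pool.Agent.Helper60.Fin

open Set AS Geo Alg

/-- transport of an integer class along the meridian of the solid torus -/
theorem preJ_mer {T₀ : ℂ × ℂ → ℂ × ℂ → Multiplicative ℤ} {m : ℤ}
    (hm : GaugeEq (fun x y => (cf x y) ^ m) T₀ Ex) :
    HasTr T₀ (merE 1) (Multiplicative.ofAdd m) := by
  have hee : Continuous ee := by unfold ee; fun_prop
  have cm : Continuous (merE 1) := by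
    unfold merE; exact continuous_eV.comp (continuous_const.prodMk (by fun_prop))
  have nee : ∀ s, ‖ee s‖ = 1 := by
    intro s
    have h := Complex.norm_exp_ofReal_mul_I (2 * Real.pi * s)
    push_cast at h
    exact h
  have hin : ∀ p : ℂ × ℂ, ‖p.1‖ = 1 → ‖p.2‖ = 1 → eV p ∈ Ex := by
    intro p h1 h2
    refine ⟨eV_sph ⟨h1, h2.le⟩, ?_⟩
    rintro ⟨u, w, hu, hw, he⟩
    have := injOn_eV (show p ∈ Geo.ST from ⟨h1, h2.le⟩) (show (u, w) ∈ Geo.ST from ⟨hu, hw.le⟩) he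
    rw [this] at h2
    exact absurd h2 hw.ne
  have mm : ∀ s, merE 1 s ∈ Ex := fun s => hin _ (by simp) (by simp [nee])
  have ee01 : ee 0 = ee 1 := by simp [ee, Complex.exp_two_pi_mul_I]
  have lm : merE 1 0 = merE 1 1 := by simp only [merE, ee01]
  have h := HasTr.map (zpowGroupHom m) (cf_merE one_pos le_rfl)
  have h2 := HasTr.gauge_comm hm cm.continuousOn (fun s _ => mm s) lm h
  have h3 : zpowGroupHom m (Multiplicative.ofAdd (1:ℤ)) = Multiplicative.ofAdd m := by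
    show (Multiplicative.ofAdd (1:ℤ)) ^ m = Multiplicative.ofAdd m
    rw [← ofAdd_zsmul, smul_eq_mul, mul_one]
  rwa [h3] at h2

/-- powers `±1` of `om` are nontrivial -/
theorem preJ_om {F : Type} [Field F] {om : Fˣ} (hom : (om : F) ^ 2 - om + 1 = 0) {n : ℤ}
    (hn : n = 1 ∨ n = -1) : ((om ^ n : Fˣ) : F) ≠ 1 := by
  intro h
  have h1 : om ^ n = 1 := Units.ext h
  have h2 : om = 1 := by
    rcases hn with rfl | rfl
    · rwa [zpow_one] at h1
    · rwa [zpow_neg_one, inv_eq_one] at h1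
  rw [h2] at hom
  simp at hom

theorem Pre.case_J {D : Tube} (hJ : StartsJ D) (hK : EndsK D) (P : Pre D)
    (ht : Tri (fun x y => prL P.H (P.T x y)) Ex) : Tri (fun x y => prL P.H (P.T x y)) D.EJ := by
  obtain ⟨T1, hT1def⟩ : ∃ T1 : ℂ × ℂ → ℂ × ℂ → Multiplicative ℤ,
      T1 = fun x y => Gam.deg P.H (P.T x y) := ⟨_, rfl⟩
  have hF : GFlat (fun x y => prL P.H (P.T x y)) D.O := P.flat.map _
  have hT1 : GFlat T1 D.O := by rw [hT1def]; exact P.flat.map _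
  have hg : ∀ x y, (prL P.H (P.T x y)).g = T1 x y := by intro x y; rw [hT1def]; rfl
  have hdeg : GaugeEq T1 cf D.EK := by rw [hT1def]; exact P.deg
  obtain ⟨hc, haff⟩ := unaff_mem (rL P.H) hT1 hF hg
  generalize unaff (fun x y => prL P.H (P.T x y)) = c at hc haff
  obtain ⟨c', m, hc', hm, hVP, hEx⟩ := T0_jend hJ hK hT1 hdeg
  have hTJ : GFlat T1 (Sph \ Jn) := by
    rw [← SJ_eq hJ]; exact hT1.mono SJ_subset_O
  have hcJ : c ∈ Zc (sys T1 (rL P.H)) (Sph \ Jn) ∅ 1 := by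
    rw [← gflat_aff (rL P.H) hTJ, haff, ← SJ_eq hJ]
    exact hF.mono SJ_subset_O
  have h1 : c ∈ Bc (sys T1 (rL P.H)) Ex ∅ 1 := by
    rw [← tri_iff (hTJ.mono Ex_subset), haff]
    exact ht
  have hZ : pb eV c ∈ Zc (sys (TV T1) (rL P.H)) VP ∅ 1 := by
    rw [← gflat_aff (rL P.H) (TV_flat hTJ)]
    have h3 : GFlat (aff (rL P.H) T1 c) (Sph \ Jn) := (gflat_aff (rL P.H) hTJ).2 hcJ
    exact GFlat.pull (F := eV) h3 (fun _ _ => continuous_eV.continuousAt)
      (fun _ hp => eV_mem_of_VP hp)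
  have hu1 : IsUnit (1 - rL P.H (Multiplicative.ofAdd m)) := P.hu m (preJ_om P.hom hm)
  have hu2 : IsUnit (rL P.H (Multiplicative.ofAdd c') - 1) := by
    rw [← IsUnit.neg_iff, neg_sub]
    exact P.hu c' (preJ_om P.hom hc')
  have h2 : pb eV c ∈ Bc (sys (TV T1) (rL P.H)) VP ∅ 1 :=
    H1_VP_zero (rL P.H) (TV_flat hTJ) hVP hu2 hZ
  have h3 : c ∈ Bc (sys T1 (rL P.H)) (Sph \ Jn) ∅ 1 :=
    J_mv_inj (rL P.H) hTJ (preJ_mer hEx) hu1 hcJ h1 h2
  rw [← SJ_eq hJ] at h3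
  have h4 := ((D.H1_SJ hT1 (rL P.H)).2 c hc).2 h3
  have h5 : GFlat T1 D.EJ := hT1.mono (fun z hz => D.Xar_subset_O (by norm_num) (D.EJ_subset hz))
  rw [← tri_iff h5, haff] at h4
  exact h4

end Pool.Agent.Helper60.Fin
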