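import Pool.Agent.Helper60.Fin.PreDef

set_option autoImplicit false

namespace Pool.Agent.Helper60.Fin

open Set AS Geo Alg

theorem preK_ee_norm (s : ℝ) : ‖ee s‖ = 1 := by
  have h := Complex.norm_exp_ofReal_mul_I (2 * Real.pi * s)
  push_cast at h
  exact h

theorem preK_ee_cont : Continuous ee := by unfold ee; fun_prop

theorem preK_ee01 : ee 0 = ee 1 := by simp [ee, Complex.exp_two_pi_mul_I]

theorem preK_lonE_mem (s : ℝ) : Geo.lonE 1 s ∈ Ex := by
  have h1 : ‖ee s‖ = 1 := preK_ee_norm s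
  have h2 : ‖((1 : ℝ) : ℂ)‖ = 1 := by simp
  refine ⟨eV_sph ⟨h1, h2.le⟩, ?_⟩
  rintro ⟨u, w, hu, hw, he⟩
  have h3 : (ee s, ((1 : ℝ) : ℂ)) = (u, w) :=
    injOn_eV (show (ee s, ((1 : ℝ) : ℂ)) ∈ Geo.ST from ⟨h1, h2.le⟩) (show (u, w) ∈ Geo.ST from ⟨hu, hw.le⟩) he
  have h4 : w = 1 := by
    have := congrArg Prod.snd h3
    simpa using this.symm
  rw [h4, norm_one] at hw
  exact lt_irrefl _ hw

theorem preK_lonE_cont : Continuous (Geo.lonE 1) := by
  unfold Geo.lonE; exact continuous_eV.comp (preK_ee_cont.prodMk continuous_const)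

theorem preK_lon_loop {D : Tube} {k : ℤ} {t r : ℝ} : D.lon k t r 0 = D.lon k t r 1 := by
  unfold Tube.lon
  have e1 : Complex.exp (2 * Real.pi * ((1:ℝ):ℂ) * Complex.I) = 1 := by
    rw [Complex.ofReal_one, mul_one, Complex.exp_two_pi_mul_I]
  have e2 : Complex.exp (2 * Real.pi * (k * ((1:ℝ):ℂ)) * Complex.I) = 1 := by
    rw [Complex.ofReal_one, mul_one]
    have : (2 * Real.pi * (k:ℂ) * Complex.I) = k * (2 * Real.pi * Complex.I) := by ring
    rw [this, Complex.exp_int_mul_two_pi_mul_I]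
  simp only [e1, e2]
  simp

theorem preK_lon_SK {D : Tube} {k : ℤ} {r : ℝ} (hr : 0 < r) (hr1 : r ≤ 1) (s : ℝ) :
    D.lon k 1 r s ∈ D.SK := by
  refine ⟨?_, (D.lon_mem hr hr1 s).2⟩
  unfold Tube.lon
  refine D.nrm1 _ _ (Tube.norm_ee' s) ?_
  have h := Tube.norm_r_exp hr (k * s)
  push_cast at h
  exact h.le.trans hr1

/-- the loop `gl` lies in `VP` -/
theorem preK_gl {G : Type*} [Group G] {T : ℂ × ℂ → ℂ × ℂ → G} (hT : GFlat T (Sph \ Jn)) {g : G}
    (hg : HasTr T (Geo.lonE 1) g) (hg1 : g = 1) : ∃ b : G, GaugeEq (TV T) (patT b 1) VP := by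
  obtain ⟨b, l, hbl, u, hu, hu0⟩ := pat_classify (TV_flat hT)
  have hm : ∀ s, gl s ∈ VP := fun s =>
    ⟨⟨by simp [gl], by simp [gl]⟩, fun hp => absurd (show ‖(gl s).2‖ = 1 by simp [gl])
      (Pat_norm_lt hp).ne⟩
  have hc : Continuous gl := by unfold gl; exact (preK_ee_cont.neg).prodMk continuous_const
  obtain ⟨l', hl'⟩ := exists_hasTr (TV_flat hT) hc.continuousOn (fun s _ => hm s)
  have h1 := HasTr.gauge hu hc.continuousOn (fun s _ => hm s) hl'
  have h2 := h1.unique (patT_gl hbl)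
  obtain ⟨a, ha⟩ := lonE_gl hT hg hl'
  have h3 : l' = 1 := by
    have h4 : l' = a * g * a⁻¹ := by rw [ha]; group
    rw [h4, hg1]; group
  have h5 : gl 0 = gl 1 := by simp only [gl, preK_ee01]
  have h6 : l = 1 := by rw [← h2, h3, h5]; group
  subst h6
  exact ⟨b, u, hu⟩

theorem Pre.case_K {D : Tube} (hJ : StartsJ D) (hK : EndsK D) (P : Pre D)
    (hy : ∀ g, HasTr P.T (Geo.lonE 1) g → g = 1) : Tri (fun x y => prL P.H (P.T x y)) D.EK := by
  by_contra hne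
  obtain ⟨T1, hT1def⟩ : ∃ T1 : ℂ × ℂ → ℂ × ℂ → Multiplicative ℤ,
      T1 = fun x y => Gam.deg P.H (P.T x y) := ⟨_, rfl⟩
  have hF : GFlat (fun x y => prL P.H (P.T x y)) D.O := P.flat.map _
  have hT1 : GFlat T1 D.O := by rw [hT1def]; exact P.flat.map _
  have hg : ∀ x y, (prL P.H (P.T x y)).g = T1 x y := by intro x y; rw [hT1def]; rfl
  have hdeg : GaugeEq T1 cf D.EK := by rw [hT1def]; exact P.deg
  obtain ⟨hc, haff⟩ := unaff_mem (rL P.H) hT1 hF hg
  generalize unaff (fun x y => prL P.H (P.T x y)) = c at hc haff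
  -- nontriviality on `Ex` for the scaled copy
  have hKsub : Ex ⊆ Sph \ Kn := by
    intro z hz
    refine ⟨hz.1, ?_⟩
    rintro ⟨v, hv, hkv⟩
    exact hz.2 ⟨v, 0, hv, by norm_num, hkv⟩
  have hTKx : GFlat (TK P.T) Ex := (TK_flat hK P.flat).mono hKsub
  have hT1x : GFlat (TK T1) Ex := (TK_flat hK hT1).mono hKsub
  have hne1 : c ∉ Bc (sys T1 (rL P.H)) D.EK ∅ 1 := by
    intro h
    apply hne
    have h5 : GFlat T1 D.EK := hT1.mono EK_sub_O
    rw [← tri_iff h5, haff] at h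
    exact h
  have hne2 := kend_nontriv hK hT1 (rL P.H) hc hne1
  rw [← tri_iff hT1x] at hne2
  have haff2 : aff (rL P.H) (TK T1) (fun l => c (l.map (fun x => Real.exp 1 • x))) =
      fun x y => prL P.H (TK P.T x y) := by
    funext x y
    exact congrFun (congrFun haff (Real.exp 1 • x)) (Real.exp 1 • y)
  rw [haff2] at hne2
  -- the pair of the scaled copy
  obtain ⟨U, V, hUV⟩ := exists_UW hTKx
  have hTKc : GaugeEq (fun x y => (cf x y) ^ (1 : ℤ)) (fun x y => Gam.deg P.H (TK P.T x y)) Ex := by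
    have h1 := TK_gauge hK (T0_SK hK hT1 hdeg)
    rw [TK_cf] at h1
    have h2 := (GaugeEq.mono' h1 hKsub).symm
    have h3 : (fun x y => (cf x y) ^ (1 : ℤ)) = cf := by
      funext x y; rw [zpow_one]
    rw [h3]
    rw [hT1def] at h2
    exact h2
  obtain ⟨hU, hV⟩ := deg_of_UW hTKx hTKc hUV
  obtain ⟨hrel, -, -, hlon⟩ := tref_rel hTKx hUV
  have hd : (U.d = 3 ∧ V.d = 2) ∨ (U.d = -3 ∧ V.d = -2) := Or.inl ⟨by rw [hU]; norm_num, by rw [hV]; norm_num⟩
  obtain ⟨l1, l2, l3, l4⟩ :=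
    lam_formula P.F P.om P.m P.σ P.hom P.hσ P.H P.ht P.hs P.hb U V hrel hd
  generalize hy' : U ^ 2 * ((U * V⁻¹) ^ 6)⁻¹ = y at l1 l2 l3 l4 hlon
  have hy1 : y ≠ 1 := by
    intro h1
    obtain ⟨x, hx1, hx2⟩ := l4 h1
    apply hne2
    exact (tref_tri (hTKx.map (prL P.H)) (UW.map (prL P.H) hUV)).2 ⟨x, hx1, hx2⟩
  have hyt : HasTr (TK P.T) (Geo.lonE 1) y := by
    obtain ⟨g, hg⟩ := exists_hasTr hTKx preK_lonE_cont.continuousOn (fun s _ => preK_lonE_mem s)
    obtain ⟨a, ha⟩ := hlon g hg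
    have : g = y := by rw [ha, l1 a⁻¹, mul_assoc, inv_mul_cancel, mul_one]
    rwa [this] at hg
  -- the longitude with degree zero
  have hu1 : ‖(1:ℂ)‖ = 1 := by simp
  have hr : (0:ℝ) < 1/2 := by norm_num
  have hr1 : (1/2:ℝ) ≤ 1 := by norm_num
  obtain ⟨a0, ha0⟩ := exists_hasTr hT1 (D.lon_cont (m := 0) (t := 1) hr hr1).continuousOn
    (fun s _ => D.lon_mem hr hr1 s)
  obtain ⟨b0, hb0⟩ := exists_hasTr hT1 (D.mer_cont (t := 1) hu1 hr hr1).continuousOn
    (fun s _ => D.mer_mem hu1 hr hr1 s)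
  obtain ⟨k, hk⟩ : ∃ k : ℤ, a0 * b0 ^ k = 1 := by
    rcases T0_mer hK hT1 hdeg hu1 hr hr1 hb0 with h | h
    · refine ⟨-(Multiplicative.toAdd a0), ?_⟩
      apply Multiplicative.toAdd.injective
      rw [toAdd_mul, toAdd_zpow, h, toAdd_ofAdd, toAdd_one]
      simp
    · refine ⟨Multiplicative.toAdd a0, ?_⟩
      apply Multiplicative.toAdd.injective
      rw [toAdd_mul, toAdd_zpow, h, toAdd_ofAdd, toAdd_one]
      simp
  obtain ⟨c0, hc0⟩ := exists_hasTr hT1 (D.lon_cont (m := k) (t := 1) hr hr1).continuousOn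
    (fun s _ => D.lon_mem hr hr1 s)
  have hc1 : c0 = 1 := (D.lon_int hT1 hr hr1 ha0 hb0 hc0).trans hk
  rw [hc1] at hc0
  have hcf : HasTr cf (D.lon k 1 (1/2)) 1 :=
    HasTr.gauge_comm (T0_SK hK hT1 hdeg) (D.lon_cont hr hr1).continuousOn
      (fun s _ => preK_lon_SK hr hr1 s) preK_lon_loop hc0
  obtain ⟨g1, hg1⟩ := exists_hasTr P.flat (D.lon_cont (m := k) (t := 1) hr hr1).continuousOn
    (fun s _ => D.lon_mem hr hr1 s)
  obtain ⟨g0, hg0⟩ := exists_hasTr P.flat (D.lon_cont (m := k) (t := 0) hr hr1).continuousOn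
    (fun s _ => D.lon_mem hr hr1 s)
  obtain ⟨a1, ha1⟩ := kend_lon hK P.flat hr hr1 hcf hg1 hyt
  obtain ⟨a2, ha2⟩ := D.lon_conj P.flat hr hr1 hr hr1 hg1 hg0
  have l1' : ∀ g, g * y⁻¹ = y⁻¹ * g := by
    intro g
    have := l1 g⁻¹
    have h2 := congrArg (·⁻¹) this
    simp only [mul_inv_rev, inv_inv] at h2
    exact h2.symm
  have hg0y : g0 = y ∨ g0 = y⁻¹ := by
    rcases ha1 with h | h
    · left
      have h1 : g1 = y := by rw [h, l1 a1⁻¹, mul_assoc, inv_mul_cancel, mul_one]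
      rw [ha2, h1, l1 a2⁻¹, mul_assoc, inv_mul_cancel, mul_one]
    · right
      have h1 : g1 = y⁻¹ := by rw [h, l1' a1⁻¹, mul_assoc, inv_mul_cancel, mul_one]
      rw [ha2, h1, l1' a2⁻¹, mul_assoc, inv_mul_cancel, mul_one]
  have hg0d : Gam.deg P.H g0 = 1 := by
    have h1 : Gam.deg P.H y = 1 := by
      show Multiplicative.ofAdd y.d = 1
      rw [l3]; rfl
    rcases hg0y with h | h
    · rw [h, h1]
    · rw [h, map_inv, h1, inv_one]
  have hg01 : g0 ≠ 1 := by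
    rcases hg0y with h | h
    · rw [h]; exact hy1
    · rw [h]; exact fun h1 => hy1 (inv_eq_one.1 h1)
  -- the lower end
  have hTJ : GFlat P.T (Sph \ Jn) := by
    rw [← SJ_eq hJ]; exact P.flat.mono SJ_subset_O
  obtain ⟨ge, hge⟩ := exists_hasTr hTJ preK_lonE_cont.continuousOn
    (fun s _ => Ex_subset (preK_lonE_mem s))
  obtain ⟨b, hb⟩ := preK_gl hTJ hge (hy ge hge)
  obtain ⟨a3, N, hN⟩ := jend_lon hJ P.flat hb hr hr1 hg0
  -- the degree of `b`
  have hb1 : GaugeEq (TV T1) (patT (Multiplicative.ofAdd (Multiplicative.toAdd (Gam.deg P.H b))) 1) VP := by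
    have h1 := GaugeEq.map (Gam.deg P.H) hb
    have h2 : (fun x y => Gam.deg P.H (patT b 1 x y)) = patT (Gam.deg P.H b) 1 := by
      funext x y
      rw [patT_map, map_one]
    rw [h2] at h1
    rw [ofAdd_toAdd, hT1def]
    exact h1
  obtain ⟨e, he⟩ := exists_hasTr hT1 (D.mer_cont (t := 0) hu1 one_pos le_rfl).continuousOn
    (fun s _ => D.mer_mem hu1 one_pos le_rfl s)
  have hbd : Multiplicative.toAdd (Gam.deg P.H b) = 1 ∨ Multiplicative.toAdd (Gam.deg P.H b) = -1 := by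
    rcases T0_mer hK hT1 hdeg hu1 one_pos le_rfl he with h | h
    · rw [h] at he
      exact jend_unit hJ hT1 hb1 one_pos le_rfl (Or.inl rfl) he
    · rw [h] at he
      exact jend_unit hJ hT1 hb1 one_pos le_rfl (Or.inr rfl) he
  have hN0 : N = 0 := by
    rw [hN] at hg0d
    rw [map_mul, map_mul, map_zpow, map_inv, mul_comm (Gam.deg P.H a3)⁻¹, mul_assoc, inv_mul_cancel,
      mul_one] at hg0d
    have h1 := congrArg Multiplicative.toAdd hg0d
    rw [toAdd_zpow, toAdd_one, smul_eq_mul] at h1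
    rcases hbd with h | h <;> rw [h] at h1 <;> omega
  apply hg01
  rw [hN, hN0, zpow_zero, mul_one, inv_mul_cancel]

end Pool.Agent.Helper60.Fin
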