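import Pool.Agent.Helper60.Fin.PreY
import Pool.Agent.Helper60.Fin.PreJ
import Pool.Agent.Helper60.Fin.PreK
import Pool.Agent.Helper60.Fin.PreEx

/-! First level: a flat function on the exterior with values in `Γ = P ⋊ ℤ` (`P` a finite 5-group)
for which the longitude of `e` at the lower end is a nontrivial central element. -/

set_option autoImplicit false

namespace Pool.Agent.Helper60.Fin

open Set AS Geo Alg

theorem gam_pow_d0 {L W : Type*} [AddCommGroup L] [AddCommGroup W] {H : HData L W} {y : Gam H}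
    (ha : y.a = 0) (hd : y.d = 0) (n : ℕ) : (y ^ n).a = 0 ∧ (y ^ n).d = 0 ∧ (y ^ n).c = n • y.c := by
  induction n with
  | zero => exact ⟨rfl, rfl, by rw [pow_zero, zero_smul]; rfl⟩
  | succ n ih =>
    obtain ⟨h1, h2, h3⟩ := ih
    rw [pow_succ]
    refine ⟨?_, ?_, ?_⟩
    · rw [Gam.mul_a, h1, ha, map_zero, add_zero]
    · rw [Gam.mul_d, h2, hd, add_zero]
    · rw [Gam.mul_c, h2, h1, h3, l1_sz_zero, map_zero, AddMonoidHom.zero_apply, add_zero, add_smul, one_smul]

theorem level1 {D : Tube} (hJ : StartsJ D) (hK : EndsK D) : Nonempty (Lev1 D) := by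
  obtain ⟨P⟩ := exists_pre hJ hK
  obtain ⟨y, hy, hyc, hya, hyd, hy1⟩ := P.exists_y hJ hK
  have hne : y ≠ 1 := by
    intro h
    have h1 := hy1 h
    rcases P.ne with h2 | h2
    · exact h2 (P.case_J hJ hK h1)
    · exact h2 (P.case_K hJ hK (fun g hg => (hy g hg).trans h))
  have h5 : y ^ 5 = 1 := by
    obtain ⟨a1, a2, a3⟩ := gam_pow_d0 hya hyd 5
    refine Gam.ext a1 ?_ a2
    rw [a3]
    ext i j
    rw [Matrix.smul_apply, nsmul_eq_mul]
    have : ((5 : ℕ) : P.F) = 0 := CharP.cast_eq_zero P.F 5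
    rw [this, zero_mul]; rfl
  obtain ⟨f1, f2⟩ := gam_ker (F := P.F) (m := P.m) P.H
  exact ⟨{
    G := Gam P.H
    deg := Gam.deg P.H
    hf := f1
    hp := f2
    t := ⟨0, 0, 1⟩
    ht := rfl
    T := P.T
    flat := P.flat
    y := y
    hy := by
      show Multiplicative.ofAdd y.d = 1
      rw [hyd]; rfl
    hyc := hyc
    hy1 := hne
    hy5 := h5
    lonE := hy
    hEK := P.deg }⟩

end Pool.Agent.Helper60.Fin
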