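import Pool.Agent.Helper60.Fin.Level1
import Pool.Agent.Helper60.Fin.L2J
import Pool.Agent.Helper60.Fin.L2R
import Pool.Agent.Helper60.Fin.L2U
import Pool.Agent.Helper60.Fin.L2H

/-! Second level: the parity contradiction. -/

set_option autoImplicit false

namespace Pool.Agent.Helper60.Fin

open Set AS Geo Alg

theorem level2 {D : Tube} (hJ : StartsJ D) (hK : EndsK D) (L : Lev1 D) : False := by
  obtain ⟨b, c, hc, hb, hrel, hg⟩ := L2_struct hJ hK L
  obtain ⟨n, M, z, hz, r, hzp, hr1, hrN, hMy, hodd⟩ := L2_rep L hc hb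
  have hz1 : z ≠ 1 := hzp.ne_one (by norm_num)
  let ρ := repR L.deg (M.rep z hz) r
  have hu : ∀ g, L.deg g ≠ 1 → IsUnit (1 - ρ g) := fun g hg =>
    hl_unit_R L.deg (M.rep z hz) r (L2_unit L.deg M z hz r hrN hg)
  have hy : IsUnit (1 - ρ L.y) :=
    hl_unit_R L.deg (M.rep z hz) r (L2_unit_y L.deg M z hz hz1 r L.hy hMy)
  -- acyclicity over the fraction field
  have hXO : D.X ⊆ D.O := fun z hz => D.Xar_subset_O (by norm_num) hz
  have aK : ∀ q, HV (cs L.T ρ (LaurentSeries ℂ)) D.EK ∅ q := fun q => L2_K hK L ρ hu _ q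
  have hflat : Flat (cs L.T ρ (LaurentSeries ℂ)) D.X := (L.flat.mono hXO).sys _
  have aX : ∀ q, HV (cs L.T ρ (LaurentSeries ℂ)) D.X ∅ q := fun q =>
    HV_triple_mid hflat D.EK_subset (empty_subset _)
      (chain5 L.deg L.hf L.hp L.flat (Or.inr rfl) M r z hz hz1 ρ rfl q) (aK q)
  have aJ : ∀ q, HV (cs L.T ρ (LaurentSeries ℂ)) D.EJ ∅ q := fun q =>
    HV_triple_sub hflat D.EJ_subset (empty_subset _) (aX q)
      (chain5 L.deg L.hf L.hp L.flat (Or.inl rfl) M r z hz hz1 ρ rfl (q + 1))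
  -- meridian
  have hu1 : ‖(1:ℂ)‖ = 1 := by simp
  obtain ⟨g, hg'⟩ := exists_hasTr L.flat (γ := D.mer 1 0 (1/2))
    (D.mer_cont hu1 (by norm_num) (by norm_num)).continuousOn
    (fun s _ => D.mer_mem hu1 (by norm_num) (by norm_num) s)
  have hdg : L.deg g ≠ 1 := by
    have h1 : HasTr (fun x y => L.deg (L.T x y)) (D.mer 1 0 (1/2)) (L.deg g) := hg'.map L.deg
    have h2 : GFlat (fun x y => L.deg (L.T x y)) D.O := L.flat.map L.deg
    rcases T0_mer hK h2 L.hEK hu1 (by norm_num) (by norm_num) h1 with h | h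
    · rw [h]; decide
    · rw [h]; decide
  have hσr : Complex.conjAe (r : ℂ) = ((r⁻¹ : ℂˣ) : ℂ) := by
    rw [Units.val_inv_eq_inv_val, Complex.inv_def, Complex.normSq_eq_norm_sq, hr1]
    simp
  have hzz : (starRingEnd ℂ) z * z = 1 := by
    have h1 : ‖z‖ = 1 := Complex.norm_eq_one_of_pow_eq_one hz (by norm_num)
    rw [mul_comm, Complex.mul_conj, Complex.normSq_eq_norm_sq, h1]
    simp
  obtain ⟨m₀, hm₀⟩ := half_lives (k₀ := ℝ) D (kend_preconnected hK) L.flat Complex.conjAe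
    (fun a => Complex.conj_conj a) L.deg (M.rep z hz) r hσr
    (fun g => M.rep_unitary z hz (starRingEnd ℂ) hzz g) ρ rfl hg'
    (L2_unit L.deg M z hz r hrN hdg) aX aJ aK
  obtain ⟨he, -⟩ := hm₀ (m₀ + 1) (by omega)
  rw [L2_dimK hK L ρ hu, add_zero, L2_dimJ hJ hK L hrel hg ρ hu hy] at he
  exact (Nat.not_even_iff_odd.2 (hodd (m₀ + 1) (by omega))) he

theorem no_tube {D : Tube} (hJ : StartsJ D) (hK : EndsK D) : False := by
  obtain ⟨L⟩ := level1 hJ hK
  exact level2 hJ hK L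

end Pool.Agent.Helper60.Fin
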