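import Pool.Agent.Helper60.Fin.PatHom

/-! The functions of the level used to unknot the pattern. -/

set_option autoImplicit false

namespace Pool.Agent.Helper60.Fin.PT

open Set Filter Topology

/-- the parameter of a level -/
noncomputable def rr (x : ℝ) : ℝ := max 0 (min 1 (Real.sqrt 2 * x + 1/2))
/-- the level of a parameter -/
noncomputable def xx (r : ℝ) : ℝ := (r - 1/2) / Real.sqrt 2

theorem s2_pos : 0 < Real.sqrt 2 := Real.sqrt_pos.2 (by norm_num)
theorem s2_sq : Real.sqrt 2 ^ 2 = 2 := Real.sq_sqrt (by norm_num)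

theorem rr_mem (x : ℝ) : rr x ∈ Icc (0:ℝ) 1 :=
  ⟨le_max_left _ _, max_le zero_le_one (min_le_left _ _)⟩

theorem rr_xx {r : ℝ} (hr : r ∈ Icc (0:ℝ) 1) : rr (xx r) = r := by
  have h : Real.sqrt 2 * xx r + 1/2 = r := by
    rw [xx, mul_div_cancel₀ _ s2_pos.ne']; ring
  rw [rr, h, min_eq_right hr.2, max_eq_right hr.1]

theorem continuous_rr : Continuous rr := by unfold rr; fun_prop

theorem xx_sq (r : ℝ) : xx r ^ 2 = (r - 1/2) ^ 2 / 2 := by
  rw [xx, div_pow, s2_sq]

theorem MM_xx_sq {r : ℝ} (hr : r ∈ Icc (0:ℝ) 1) : MM (xx r) ^ 2 = 1 - (r - 1/2) ^ 2 / 2 := by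
  rw [MM, xx_sq, Real.sq_sqrt]
  nlinarith [hr.1, hr.2]

theorem MM_xx_pos {r : ℝ} (hr : r ∈ Icc (0:ℝ) 1) : 0 < MM (xx r) := by
  have h := MM_xx_sq hr
  have h0 := MM_nonneg (xx r)
  rcases h0.lt_or_eq with h1 | h1
  · exact h1
  · rw [← h1] at h
    nlinarith [hr.1, hr.2]

/-- first coordinate of the arc `A` -/
noncomputable def aa (r : ℝ) : ℝ := Real.sqrt (1 - ((r - 1/2) ^ 2 + Geo.hh r ^ 2) / 2)

theorem hh_sq_le {r : ℝ} (hr : r ∈ Icc (0:ℝ) 1) : Geo.hh r ^ 2 ≤ 1/4 := by
  have h2 : |Geo.hh r| ≤ 1/2 := by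
    unfold Geo.hh
    have h3 : 0 ≤ r * (1 - r) := mul_nonneg hr.1 (by linarith [hr.2])
    have h4 : r * (1 - r) ≤ 1/4 := by nlinarith [sq_nonneg (r - 1/2)]
    rw [abs_mul, abs_of_nonneg h3]
    have h5 : |3 * r - 1| ≤ 2 := by
      rw [abs_le]; constructor <;> linarith [hr.1, hr.2]
    nlinarith [abs_nonneg (3 * r - 1)]
  rw [← sq_abs]
  nlinarith [abs_nonneg (Geo.hh r)]

theorem aa_sq {r : ℝ} (hr : r ∈ Icc (0:ℝ) 1) :
    aa r ^ 2 = 1 - ((r - 1/2) ^ 2 + Geo.hh r ^ 2) / 2 := by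
  have h := hh_sq_le hr
  rw [aa, Real.sq_sqrt]
  nlinarith [hr.1, hr.2]

theorem aa_pos {r : ℝ} (hr : r ∈ Icc (0:ℝ) 1) : 0 < aa r := by
  have h := hh_sq_le hr
  apply Real.sqrt_pos.2
  nlinarith [hr.1, hr.2]

theorem continuous_sg : Continuous Geo.sg := by unfold Geo.sg; fun_prop
theorem continuous_hh : Continuous Geo.hh := by unfold Geo.hh; fun_prop

theorem continuous_aa : Continuous aa := by
  unfold aa
  have := continuous_hh
  fun_prop

theorem mul_sinc (x : ℝ) : x * Real.sinc x = Real.sin x := by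
  by_cases h : x = 0
  · rw [h, zero_mul, Real.sin_zero]
  · rw [Real.sinc_of_ne_zero h, mul_div_cancel₀ _ h]

/-- `sin (2 π σ(r)) / (r (1 - r))` -/
noncomputable def SS (r : ℝ) : ℝ :=
  2 * Real.pi * (7 * r - 6) * Real.sinc (2 * Real.pi * (7 * r - 6) * r) -
    2 * Real.pi * (7 * r + 1) * Real.sinc (2 * Real.pi * (7 * r + 1) * (r - 1))

theorem SS_eq (r : ℝ) : r * (1 - r) * SS r = Real.sin (2 * Real.pi * Geo.sg r) := by
  have h1 := mul_sinc (2 * Real.pi * (7 * r - 6) * r)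
  have h2 := mul_sinc (2 * Real.pi * (7 * r + 1) * (r - 1))
  have e1 : Real.sin (2 * Real.pi * (7 * r - 6) * r) = Real.sin (2 * Real.pi * Geo.sg r) := by
    congr 1; unfold Geo.sg; ring
  have e2 : Real.sin (2 * Real.pi * (7 * r + 1) * (r - 1)) = Real.sin (2 * Real.pi * Geo.sg r) := by
    rw [← Real.sin_sub_two_pi (2 * Real.pi * Geo.sg r)]
    congr 1; unfold Geo.sg; ring
  rw [e1] at h1
  rw [e2] at h2
  unfold SS
  linear_combination (1 - r) * h1 + r * h2

theorem continuous_SS : Continuous SS := by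
  unfold SS
  have := Real.continuous_sinc
  fun_prop

/-- the direction of the arc `A` seen from `G` -/
noncomputable def VV (r : ℝ) : ℂ := ⟨-(aa r * SS r), (3 * r - 1) / Real.sqrt 2⟩

theorem continuous_VV : Continuous VV := by
  have h1 := continuous_aa
  have h2 := continuous_SS
  exact continuous_mk (by fun_prop) (by fun_prop)

theorem VV_ne {r : ℝ} (hr : r ∈ Icc (0:ℝ) 1) : VV r ≠ 0 := by
  intro h
  have h1 : (3 * r - 1) / Real.sqrt 2 = 0 := congrArg Complex.im h
  have h2 : -(aa r * SS r) = 0 := congrArg Complex.re h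
  have h3 : r = 1/3 := by
    rcases div_eq_zero_iff.1 h1 with h4 | h4
    · linarith
    · exact absurd h4 s2_pos.ne'
  have h4 : SS r = 0 := by
    rcases mul_eq_zero.1 (neg_eq_zero.1 h2) with h5 | h5
    · exact absurd h5 (aa_pos hr).ne'
    · exact h5
  have h5 := SS_eq r
  rw [h4, mul_zero, h3] at h5
  have h6 : 2 * Real.pi * Geo.sg (1/3) = -(4 * Real.pi / 9) - 2 * Real.pi := by
    unfold Geo.sg; ring
  rw [h6, Real.sin_sub_two_pi, Real.sin_neg] at h5
  have h7 : 0 < Real.sin (4 * Real.pi / 9) := by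
    apply Real.sin_pos_of_pos_of_lt_pi <;> linarith [Real.pi_pos]
  linarith

theorem hh_eq (r : ℝ) : Geo.hh r / Real.sqrt 2 = r * (1 - r) * ((3 * r - 1) / Real.sqrt 2) := by
  unfold Geo.hh; ring

/-- the key identity -/
theorem key_id {r : ℝ} (hr : r ∈ Icc (0:ℝ) 1) :
    (aa r * Real.cos (2 * Real.pi * Geo.sg r)) ^ 2 + (r * (1 - r) * ‖VV r‖) ^ 2 = MM (xx r) ^ 2 := by
  have h1 : (r * (1 - r) * ‖VV r‖) ^ 2 = (aa r * Real.sin (2 * Real.pi * Geo.sg r)) ^ 2 +
      Geo.hh r ^ 2 / 2 := by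
    rw [mul_pow, sq_norm]
    show (r * (1 - r)) ^ 2 * ((-(aa r * SS r)) ^ 2 + ((3 * r - 1) / Real.sqrt 2) ^ 2) = _
    rw [← SS_eq, div_pow, s2_sq]
    unfold Geo.hh
    ring
  rw [h1, MM_xx_sq hr]
  have h2 := aa_sq hr
  have h3 := Real.sin_sq_add_cos_sq (2 * Real.pi * Geo.sg r)
  linear_combination (aa r ^ 2) * h3 + h2

/-- cosine of the angle between `G` and `A` -/
noncomputable def co (r : ℝ) : ℝ := aa r * Real.cos (2 * Real.pi * Geo.sg r) / MM (xx r)

/-- the angle between `G` and `A` -/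
noncomputable def th (r : ℝ) : ℝ := Real.arccos (co r)

theorem co_sq {r : ℝ} (hr : r ∈ Icc (0:ℝ) 1) :
    co r ^ 2 + (r * (1 - r) * ‖VV r‖ / MM (xx r)) ^ 2 = 1 := by
  have h := key_id hr
  have h1 := (MM_xx_pos hr).ne'
  rw [co, div_pow, div_pow, ← add_div, h, div_self (pow_ne_zero 2 h1)]

theorem co_mem {r : ℝ} (hr : r ∈ Icc (0:ℝ) 1) : -1 ≤ co r ∧ co r ≤ 1 := by
  have h := co_sq hr
  exact abs_le.1 ((sq_le_one_iff_abs_le_one _).1 (by nlinarith [sq_nonneg (r * (1 - r) * ‖VV r‖ / MM (xx r))]))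

theorem cos_th {r : ℝ} (hr : r ∈ Icc (0:ℝ) 1) : MM (xx r) * Real.cos (th r) =
    aa r * Real.cos (2 * Real.pi * Geo.sg r) := by
  rw [th, Real.cos_arccos (co_mem hr).1 (co_mem hr).2, co, mul_div_cancel₀ _ (MM_xx_pos hr).ne']

theorem sin_th {r : ℝ} (hr : r ∈ Icc (0:ℝ) 1) : MM (xx r) * Real.sin (th r) =
    r * (1 - r) * ‖VV r‖ := by
  have h0 : 0 ≤ r * (1 - r) * ‖VV r‖ / MM (xx r) :=
    div_nonneg (mul_nonneg (mul_nonneg hr.1 (by linarith [hr.2])) (norm_nonneg _)) (MM_nonneg _)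
  have h1 : 1 - co r ^ 2 = (r * (1 - r) * ‖VV r‖ / MM (xx r)) ^ 2 := by
    linarith [co_sq hr]
  rw [th, Real.sin_arccos, h1, Real.sqrt_sq h0, mul_div_cancel₀ _ (MM_xx_pos hr).ne']

theorem th_nonneg (r : ℝ) : 0 ≤ th r := Real.arccos_nonneg _
theorem th_le (r : ℝ) : th r ≤ Real.pi := Real.arccos_le_pi _

theorem th_pos {r : ℝ} (h0 : 0 < r) (h1 : r < 1) : 0 < th r := by
  rcases (th_nonneg r).lt_or_eq with h | h
  · exact h
  · exfalso
    have hr : r ∈ Icc (0:ℝ) 1 := ⟨h0.le, h1.le⟩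
    have h2 := sin_th hr
    rw [← h, Real.sin_zero, mul_zero] at h2
    have h3 : 0 < r * (1 - r) * ‖VV r‖ :=
      mul_pos (mul_pos h0 (by linarith)) (norm_pos_iff.2 (VV_ne hr))
    linarith

theorem th_zero : th 0 = 0 := by
  have hr : (0:ℝ) ∈ Icc (0:ℝ) 1 := by simp
  have h : co 0 = 1 := by
    have h1 : aa 0 ^ 2 = MM (xx 0) ^ 2 := by
      rw [aa_sq hr, MM_xx_sq hr]; unfold Geo.hh; ring
    have h2 : aa 0 = MM (xx 0) := by
      rw [← Real.sqrt_sq (aa_pos hr).le, h1, Real.sqrt_sq (MM_nonneg _)]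
    rw [co, h2]
    have h3 : Geo.sg 0 = 0 := by unfold Geo.sg; ring
    rw [h3, mul_zero, Real.cos_zero, mul_one, div_self (MM_xx_pos hr).ne']
  rw [th, h, Real.arccos_one]

theorem th_one : th 1 = 0 := by
  have hr : (1:ℝ) ∈ Icc (0:ℝ) 1 := by simp
  have h : co 1 = 1 := by
    have h1 : aa 1 ^ 2 = MM (xx 1) ^ 2 := by
      rw [aa_sq hr, MM_xx_sq hr]; unfold Geo.hh; ring
    have h2 : aa 1 = MM (xx 1) := by
      rw [← Real.sqrt_sq (aa_pos hr).le, h1, Real.sqrt_sq (MM_nonneg _)]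
    rw [co, h2]
    have h3 : Geo.sg 1 = 1 := by unfold Geo.sg; ring
    rw [h3, mul_one, Real.cos_two_pi, mul_one, div_self (MM_xx_pos hr).ne']
  rw [th, h, Real.arccos_one]

theorem continuous_th : Continuous fun x => th (rr x) := by
  unfold th
  refine Real.continuous_arccos.comp ?_
  unfold co
  refine Continuous.div ?_ ?_ (fun x => (MM_xx_pos (rr_mem x)).ne')
  · exact (continuous_aa.comp continuous_rr).mul (Real.continuous_cos.comp
      (continuous_const.mul (continuous_sg.comp continuous_rr)))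
  · have h1 : Continuous xx := by unfold xx; fun_prop
    exact continuous_MM.comp (h1.comp continuous_rr)

/-- source and target of the stretch -/
noncomputable def fA (x : ℝ) : ℝ := MM x * Real.cos (th (rr x) / 2)
noncomputable def fB (x : ℝ) : ℝ := min (MM x) (Real.sqrt (7/8))

theorem continuous_fA : Continuous fA := by
  have h1 := continuous_MM
  have h2 := continuous_th
  unfold fA
  exact h1.mul (Real.continuous_cos.comp (h2.div_const 2))

theorem continuous_fB : Continuous fB := by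
  have h1 := continuous_MM
  unfold fB
  fun_prop

theorem cos_half_nonneg (r : ℝ) : 0 ≤ Real.cos (th r / 2) :=
  Real.cos_nonneg_of_mem_Icc ⟨by linarith [th_nonneg r, Real.pi_pos], by linarith [th_le r]⟩

theorem sin_half_nonneg (r : ℝ) : 0 ≤ Real.sin (th r / 2) :=
  Real.sin_nonneg_of_nonneg_of_le_pi (by linarith [th_nonneg r]) (by linarith [th_le r, Real.pi_pos])

theorem PL_ok (x : ℝ) : PLok (MM x) (fA x) (fB x) := by
  have h0 := MM_nonneg x
  refine ⟨mul_nonneg h0 (cos_half_nonneg _), ?_, le_min h0 (Real.sqrt_nonneg _), min_le_left _ _, ?_⟩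
  · exact mul_le_of_le_one_right h0 (Real.cos_le_one _)
  by_cases hx : x ^ 2 < 1/8
  · -- inside
    have hs : (Real.sqrt 2 * x) ^ 2 < 1/4 := by rw [mul_pow, s2_sq]; linarith
    have hs1 := abs_lt_of_sq_lt_sq' (b := 1/2) (by linarith : (Real.sqrt 2 * x) ^ 2 < (1/2) ^ 2) (by norm_num)
    have hM : Real.sqrt (7/8) < MM x := by
      unfold MM
      apply Real.sqrt_lt_sqrt (by norm_num)
      linarith
    have hr : rr x = Real.sqrt 2 * x + 1/2 := by
      rw [rr, min_eq_right (by linarith [hs1.2]), max_eq_right (by linarith [hs1.1])]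
    have ht : 0 < th (rr x) := by
      rw [hr]
      exact th_pos (by linarith [hs1.1]) (by linarith [hs1.2])
    have h7 := Real.sqrt_nonneg (7/8 : ℝ)
    have hMpos : 0 < MM x := by linarith
    have hc : Real.cos (th (rr x) / 2) < 1 := by
      rw [← Real.cos_zero]
      apply Real.cos_lt_cos_of_nonneg_of_le_pi le_rfl
      · linarith [th_le (rr x), Real.pi_pos]
      · linarith
    constructor
    · intro h
      exfalso
      have : fA x < MM x := by
        unfold fA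
        nlinarith
      linarith
    · intro h
      exfalso
      rw [fB, min_eq_right hM.le] at h
      linarith
  · -- outside
    have hM : MM x ≤ Real.sqrt (7/8) := by
      unfold MM
      apply Real.sqrt_le_sqrt
      linarith
    have hr : rr x = 0 ∨ rr x = 1 := by
      have h1 : 1/4 ≤ (Real.sqrt 2 * x) ^ 2 := by rw [mul_pow, s2_sq]; linarith
      rcases le_total 0 (Real.sqrt 2 * x) with h2 | h2
      · right
        have h3 : 1/2 ≤ Real.sqrt 2 * x := by nlinarith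
        rw [rr, min_eq_left (by linarith)]
        norm_num
      · left
        have h3 : Real.sqrt 2 * x ≤ -(1/2) := by nlinarith
        rw [rr]
        apply max_eq_left
        exact (min_le_right _ _).trans (by linarith)
    have ht : th (rr x) = 0 := by
      rcases hr with h | h
      · rw [h, th_zero]
      · rw [h, th_one]
    have e1 : fA x = MM x := by rw [fA, ht, zero_div, Real.cos_zero, mul_one]
    have e2 : fB x = MM x := min_eq_left hM
    simp [e1, e2]

/-- the unit complex numbers of the three rotations -/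
noncomputable def u1 (x : ℝ) : ℂ := (starRingEnd ℂ) (Geo.ee (Geo.sg (rr x)))
noncomputable def u2 (x : ℝ) : ℂ := (starRingEnd ℂ) (VV (rr x)) / (‖VV (rr x)‖ : ℝ)
noncomputable def u3 (x : ℝ) : ℂ := Complex.exp (((-(th (rr x) / 2) : ℝ) : ℂ) * Complex.I)

theorem ee_eq (s : ℝ) : Geo.ee s = ⟨Real.cos (2 * Real.pi * s), Real.sin (2 * Real.pi * s)⟩ := by
  unfold Geo.ee
  have : (2 * Real.pi * (s : ℂ) * Complex.I) = ((2 * Real.pi * s : ℝ) : ℂ) * Complex.I := by
    push_cast; ring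
  rw [this]
  exact Complex.ext (Complex.exp_ofReal_mul_I_re _) (Complex.exp_ofReal_mul_I_im _)

theorem ee_norm (s : ℝ) : ‖Geo.ee s‖ = 1 := by
  unfold Geo.ee
  rw [Complex.norm_exp]
  simp

theorem u1_norm (x : ℝ) : ‖u1 x‖ = 1 := by rw [u1, Complex.norm_conj, ee_norm]

theorem u2_norm (x : ℝ) : ‖u2 x‖ = 1 := by
  rw [u2, norm_div, Complex.norm_conj, Complex.norm_real, norm_norm,
    div_self (norm_ne_zero_iff.2 (VV_ne (rr_mem x)))]

theorem u3_norm (x : ℝ) : ‖u3 x‖ = 1 := Complex.norm_exp_ofReal_mul_I _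

theorem continuous_u1 : Continuous u1 := by
  unfold u1 Geo.ee
  have h1 := continuous_sg
  have h2 := continuous_rr
  fun_prop

theorem continuous_u2 : Continuous u2 := by
  unfold u2
  have h1 := continuous_VV.comp continuous_rr
  refine Continuous.div (Complex.continuous_conj.comp h1)
    (Complex.continuous_ofReal.comp h1.norm) (fun x => ?_)
  exact Complex.ofReal_ne_zero.2 (norm_ne_zero_iff.2 (VV_ne (rr_mem x)))

theorem continuous_u3 : Continuous u3 := by
  unfold u3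
  have h1 := continuous_th
  fun_prop

/-- the homeomorphism which unknots the pattern -/
noncomputable def phi : S3 ≃ₜ S3 :=
  (((HA u1 u1_norm continuous_u1).trans (HB u2 u2_norm continuous_u2)).trans
    (HA u3 u3_norm continuous_u3)).trans (HS fA fB PL_ok continuous_fA continuous_fB)

end Pool.Agent.Helper60.Fin.PT
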