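import Pool.Agent.Helper60.Fin.Great
import Pool.Agent.Helper60.Fin.PatFun

/-! The pattern: a simple closed curve in the solid torus, winding number one, unknotted. -/

set_option autoImplicit false

namespace Pool.Agent.Helper60.Fin

namespace PT

open Set Filter Topology

/-! ### the images of the two arcs -/

theorem sqrt78_le {r : ℝ} (hr : r ∈ Icc (0:ℝ) 1) : Real.sqrt (7/8) ≤ MM (xx r) := by
  unfold MM
  apply Real.sqrt_le_sqrt
  rw [xx_sq]
  nlinarith [hr.1, hr.2]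

/-- the last step -/
theorem last_step {r : ℝ} (hr : r ∈ Icc (0:ℝ) 1) (z : S3) (t : ℝ) (ht : Real.cos t = Real.cos (th r / 2))
    (h1 : z.1.1 = (MM (xx r) : ℂ) * Complex.exp ((t : ℂ) * Complex.I))
    (h2 : z.1.2 = ((xx r : ℝ) : ℂ)) :
    (HS fA fB PL_ok continuous_fA continuous_fB z).1.1.re = Real.sqrt (7/8) ∧
    (HS fA fB PL_ok continuous_fA continuous_fB z).1.2.im = 0 ∧
    (HS fA fB PL_ok continuous_fA continuous_fB z).1.2.re = xx r ∧
    ∃ k : ℝ, 0 ≤ k ∧ (HS fA fB PL_ok continuous_fA continuous_fB z).1.1.im = k * Real.sin t := by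
  have hx : z.1.2.re = xx r := by rw [h2, Complex.ofReal_re]
  have him : z.1.2.im = 0 := by rw [h2, Complex.ofReal_im]
  have hre : z.1.1.re = fA (xx r) := by
    rw [h1, Complex.re_ofReal_mul, Complex.exp_ofReal_mul_I_re, ht, fA, rr_xx hr]
  have hi1 : z.1.1.im = MM (xx r) * Real.sin t := by
    rw [h1, Complex.im_ofReal_mul, Complex.exp_ofReal_mul_I_im]
  have hv : vv z.1 = ((MM (xx r) * Real.sin t : ℝ) : ℂ) := by
    apply Complex.ext
    · rw [Complex.ofReal_re]; exact hi1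
    · rw [Complex.ofReal_im]; exact him
  have hB : fB (xx r) = Real.sqrt (7/8) := min_eq_right (sqrt78_le hr)
  have hX : nX fA fB z = Real.sqrt (7/8) := by
    rw [nX, hre, hx, pl_A (PL_ok _), hB]
  refine ⟨hX, ?_, hx, ?_⟩
  · show (vv z.1 * ((nL fA fB z / ‖vv z.1‖ : ℝ) : ℂ)).im = 0
    rw [hv, ← Complex.ofReal_mul, Complex.ofReal_im]
  · refine ⟨MM (xx r) * (nL fA fB z / ‖vv z.1‖), mul_nonneg (MM_nonneg _)
      (div_nonneg (Real.sqrt_nonneg _) (norm_nonneg _)), ?_⟩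
    show (vv z.1 * ((nL fA fB z / ‖vv z.1‖ : ℝ) : ℂ)).re = _
    rw [hv, ← Complex.ofReal_mul, Complex.ofReal_re]
    ring

theorem phi_G {r : ℝ} (hr : r ∈ Icc (0:ℝ) 1) (z : S3)
    (h1 : z.1.1 = Geo.ee (Geo.sg r) * (MM (xx r) : ℂ)) (h2 : z.1.2 = ((xx r : ℝ) : ℂ)) :
    (phi z).1.1.re = Real.sqrt (7/8) ∧ (phi z).1.2.im = 0 ∧ (phi z).1.2.re = xx r ∧
      (phi z).1.1.im ≤ 0 := by
  have hx : z.1.2.re = xx r := by rw [h2, Complex.ofReal_re]
  let z1 := HA u1 u1_norm continuous_u1 z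
  let z2 := HB u2 u2_norm continuous_u2 z1
  let z3 := HA u3 u3_norm continuous_u3 z2
  have e1 : z1.1.1 = (MM (xx r) : ℂ) := by
    show z.1.1 * u1 z.1.2.re = _
    rw [h1, hx, u1, rr_xx hr]
    have := mul_conj_one (ee_norm (Geo.sg r))
    linear_combination (MM (xx r) : ℂ) * this
  have e1' : z1.1.2 = ((xx r : ℝ) : ℂ) := h2
  have e2 : z2.1 = ((MM (xx r) : ℂ), ((xx r : ℝ) : ℂ)) := by
    show pt z1.1.1.re (vv z1.1 * u2 z1.1.2.re) z1.1.2.re = _
    have hv : vv z1.1 = 0 := by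
      apply Complex.ext
      · show z1.1.1.im = 0
        rw [e1, Complex.ofReal_im]
      · show z1.1.2.im = 0
        rw [e1', Complex.ofReal_im]
    rw [hv, zero_mul, e1, e1', Complex.ofReal_re, Complex.ofReal_re]
    rfl
  have e3 : z3.1.1 = (MM (xx r) : ℂ) * Complex.exp (((-(th r / 2) : ℝ) : ℂ) * Complex.I) := by
    show z2.1.1 * u3 z2.1.2.re = _
    rw [e2]
    show (MM (xx r) : ℂ) * u3 (((xx r : ℝ) : ℂ)).re = _
    rw [Complex.ofReal_re, u3, rr_xx hr]
  have e3' : z3.1.2 = ((xx r : ℝ) : ℂ) := by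
    show z2.1.2 = _
    rw [e2]
  obtain ⟨k1, k2, k3, k, hk, k4⟩ := last_step hr z3 (-(th r / 2)) (Real.cos_neg _) e3 e3'
  refine ⟨k1, k2, k3, ?_⟩
  have : (phi z).1.1.im = k * Real.sin (-(th r / 2)) := k4
  rw [this, Real.sin_neg]
  have := mul_nonneg hk (sin_half_nonneg r)
  linarith

theorem phi_A {r : ℝ} (hr : r ∈ Icc (0:ℝ) 1) (z : S3)
    (h1 : z.1.1 = (aa r : ℂ)) (h2 : z.1.2 = ⟨xx r, Geo.hh r / Real.sqrt 2⟩) :
    (phi z).1.1.re = Real.sqrt (7/8) ∧ (phi z).1.2.im = 0 ∧ (phi z).1.2.re = xx r ∧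
      0 ≤ (phi z).1.1.im := by
  have hx : z.1.2.re = xx r := by rw [h2]
  let z1 := HA u1 u1_norm continuous_u1 z
  let z2 := HB u2 u2_norm continuous_u2 z1
  let z3 := HA u3 u3_norm continuous_u3 z2
  have e1 : z1.1.1 = ⟨aa r * Real.cos (2 * Real.pi * Geo.sg r), -(aa r * Real.sin (2 * Real.pi * Geo.sg r))⟩ := by
    show z.1.1 * u1 z.1.2.re = _
    rw [h1, hx, u1, rr_xx hr, ee_eq]
    apply Complex.ext
    · rw [Complex.re_ofReal_mul]; rfl
    · rw [Complex.im_ofReal_mul]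
      show aa r * (-Real.sin (2 * Real.pi * Geo.sg r)) = _
      ring
  have e1' : z1.1.2 = ⟨xx r, Geo.hh r / Real.sqrt 2⟩ := h2
  have hv : vv z1.1 = ((r * (1 - r) : ℝ) : ℂ) * VV r := by
    apply Complex.ext
    · rw [Complex.re_ofReal_mul]
      show z1.1.1.im = r * (1 - r) * (-(aa r * SS r))
      rw [e1]
      show -(aa r * Real.sin (2 * Real.pi * Geo.sg r)) = _
      rw [← SS_eq]; ring
    · rw [Complex.im_ofReal_mul]
      show z1.1.2.im = r * (1 - r) * ((3 * r - 1) / Real.sqrt 2)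
      rw [e1']
      exact hh_eq r
  have hw : vv z1.1 * u2 (xx r) = ((r * (1 - r) * ‖VV r‖ : ℝ) : ℂ) := by
    rw [hv, u2, rr_xx hr, mul_assoc, mul_div_assoc', Complex.mul_conj, Complex.normSq_eq_norm_sq]
    have hn : ((‖VV r‖ : ℝ) : ℂ) ≠ 0 := Complex.ofReal_ne_zero.2 (norm_ne_zero_iff.2 (VV_ne hr))
    push_cast
    field_simp
  have e2 : z2.1 = ((MM (xx r) : ℂ) * Complex.exp ((th r : ℂ) * Complex.I), ((xx r : ℝ) : ℂ)) := by
    show pt z1.1.1.re (vv z1.1 * u2 z1.1.2.re) z1.1.2.re = _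
    have e4 : z1.1.2.re = xx r := by rw [e1']
    have e5 : z1.1.1.re = aa r * Real.cos (2 * Real.pi * Geo.sg r) := by rw [e1]
    rw [e4, hw, e5]
    refine Prod.ext ?_ ?_
    · apply Complex.ext
      · rw [Complex.re_ofReal_mul, Complex.exp_ofReal_mul_I_re, cos_th hr]; rfl
      · rw [Complex.im_ofReal_mul, Complex.exp_ofReal_mul_I_im, sin_th hr]; rfl
    · rfl
  have e3 : z3.1.1 = (MM (xx r) : ℂ) * Complex.exp (((th r / 2 : ℝ) : ℂ) * Complex.I) := by
    show z2.1.1 * u3 z2.1.2.re = _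
    rw [e2]
    show (MM (xx r) : ℂ) * Complex.exp ((th r : ℂ) * Complex.I) * u3 (((xx r : ℝ) : ℂ)).re = _
    rw [Complex.ofReal_re, u3, rr_xx hr, mul_assoc, ← Complex.exp_add]
    congr 2
    push_cast
    ring
  have e3' : z3.1.2 = ((xx r : ℝ) : ℂ) := by
    show z2.1.2 = _
    rw [e2]
  obtain ⟨k1, k2, k3, k, hk, k4⟩ := last_step hr z3 (th r / 2) rfl e3 e3'
  refine ⟨k1, k2, k3, ?_⟩
  have : (phi z).1.1.im = k * Real.sin (th r / 2) := k4
  rw [this]
  exact mul_nonneg hk (sin_half_nonneg r)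

/-! ### the curve -/

/-- the parameter of a point of the circle -/
noncomputable def ru (u : Circle) : ℝ := (1 - (u : ℂ).re) / 2

theorem circ_sq (u : Circle) : (u : ℂ).re ^ 2 + (u : ℂ).im ^ 2 = 1 := by
  rw [← sq_norm, Circle.norm_coe, one_pow]

theorem ru_mem (u : Circle) : ru u ∈ Icc (0:ℝ) 1 := by
  have h := circ_sq u
  have h1 : -1 ≤ (u : ℂ).re ∧ (u : ℂ).re ≤ 1 :=
    abs_le.1 ((sq_le_one_iff_abs_le_one _).1 (by nlinarith [sq_nonneg (u : ℂ).im]))
  unfold ru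
  constructor <;> linarith [h1.1, h1.2]

theorem continuous_ru : Continuous ru := by
  unfold ru
  have := continuous_subtype_val (p := fun x : ℂ => x ∈ Submonoid.unitSphere ℂ)
  fun_prop

/-- the two arcs -/
noncomputable def cG (r : ℝ) : Circle × ℂ := (Circle.exp (2 * Real.pi * Geo.sg r), ((r - 1/2 : ℝ) : ℂ))
noncomputable def cA (r : ℝ) : Circle × ℂ := (1, ((r - 1/2 : ℝ) : ℂ) + (Geo.hh r : ℂ) * Complex.I)

theorem cG_coe (r : ℝ) : (((cG r).1 : ℂ), (cG r).2) = Geo.Gc r := by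
  unfold cG Geo.Gc Geo.ee
  refine Prod.ext ?_ rfl
  show ((Circle.exp (2 * Real.pi * Geo.sg r) : Circle) : ℂ) = _
  rw [Circle.coe_exp]
  push_cast
  rfl

theorem cA_coe (r : ℝ) : (((cA r).1 : ℂ), (cA r).2) = Geo.Ac r := rfl

theorem continuous_cG : Continuous cG := by
  unfold cG
  have h1 := continuous_sg
  exact (Circle.exp.continuous.comp (by fun_prop)).prodMk (by fun_prop)

theorem continuous_cA : Continuous cA := by
  unfold cA
  have h1 := continuous_hh
  fun_prop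

theorem ends0 : cG 0 = cA 0 := by
  unfold cG cA
  have h1 : Geo.sg 0 = 0 := by unfold Geo.sg; ring
  have h2 : Geo.hh 0 = 0 := by unfold Geo.hh; ring
  rw [h1, h2]
  simp

theorem ends1 : cG 1 = cA 1 := by
  unfold cG cA
  have h1 : Geo.sg 1 = 1 := by unfold Geo.sg; ring
  have h2 : Geo.hh 1 = 0 := by unfold Geo.hh; ring
  rw [h1, h2]
  simp

/-- the curve -/
noncomputable def crv (u : Circle) : Circle × ℂ := if 0 ≤ (u : ℂ).im then cG (ru u) else cA (ru u)

theorem ru_of_im {u : Circle} (h : (u : ℂ).im = 0) : ru u = 0 ∨ ru u = 1 := by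
  have h1 := circ_sq u
  rw [h] at h1
  have h2 : ((u : ℂ).re - 1) * ((u : ℂ).re + 1) = 0 := by nlinarith
  rcases mul_eq_zero.1 h2 with h3 | h3
  · left; unfold ru; linarith
  · right; unfold ru; linarith

theorem continuous_crv : Continuous crv := by
  unfold crv
  refine Continuous.if_le (continuous_cG.comp continuous_ru) (continuous_cA.comp continuous_ru)
    continuous_const (Complex.continuous_im.comp continuous_subtype_val) ?_
  intro u hu
  show cG (ru u) = cA (ru u)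
  rcases ru_of_im (show (u : ℂ).im = 0 from hu.symm) with h | h
  · rw [h, ends0]
  · rw [h, ends1]

theorem cG_re (r : ℝ) : (cG r).2.re = r - 1/2 := Complex.ofReal_re _
theorem cA_re (r : ℝ) : (cA r).2.re = r - 1/2 := by simp [cA]

theorem G_ne_A {r : ℝ} (h0 : 0 < r) (h1 : r < 1) : cG r ≠ cA r := by
  intro h
  have h2 : (cG r).2.im = (cA r).2.im := by rw [h]
  have h3 : Geo.hh r = 0 := by
    have : (cA r).2.im = Geo.hh r := by simp [cA]
    rw [← this, ← h2]
    exact Complex.ofReal_im _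
  have h4 : r = 1/3 := by
    unfold Geo.hh at h3
    rcases mul_eq_zero.1 h3 with h4 | h4
    · exact absurd h4 (mul_pos h0 (by linarith)).ne'
    · linarith
  have h5 : (((cG r).1 : ℂ)).im = (((cA r).1 : ℂ)).im := by rw [h]
  have h6 : (((cG r).1 : ℂ)) = Geo.ee (Geo.sg r) := congrArg Prod.fst (cG_coe r)
  rw [h6, ee_eq] at h5
  have h7 : Real.sin (2 * Real.pi * Geo.sg r) = 0 := by
    have : (((cA r).1 : ℂ)).im = 0 := by simp [cA]
    rw [← this, ← h5]
  have h8 : 2 * Real.pi * Geo.sg r = -(4 * Real.pi / 9) - 2 * Real.pi := by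
    rw [h4]; unfold Geo.sg; ring
  rw [h8, Real.sin_sub_two_pi, Real.sin_neg] at h7
  have h9 : 0 < Real.sin (4 * Real.pi / 9) := by
    apply Real.sin_pos_of_pos_of_lt_pi <;> linarith [Real.pi_pos]
  linarith

theorem im_pos_ru {u : Circle} (h : (u : ℂ).im ≠ 0) : 0 < ru u ∧ ru u < 1 := by
  have h1 := circ_sq u
  have h2 : 0 < (u : ℂ).im ^ 2 := by positivity
  have h3 : (u : ℂ).re ^ 2 < 1 := by linarith
  have h4 := abs_lt.1 ((sq_lt_one_iff_abs_lt_one _).1 h3)
  unfold ru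
  constructor <;> linarith [h4.1, h4.2]

theorem crv_re (u : Circle) : (crv u).2.re = ru u - 1/2 := by
  unfold crv
  split_ifs
  · exact cG_re _
  · exact cA_re _

theorem crv_inj : Function.Injective crv := by
  intro u v h
  have h1 : ru u = ru v := by
    have h2 := crv_re u
    rw [h, crv_re v] at h2
    linarith
  have h2 : (u : ℂ).re = (v : ℂ).re := by unfold ru at h1; linarith
  have h3 : (u : ℂ).im ^ 2 = (v : ℂ).im ^ 2 := by
    have e1 := circ_sq u
    have e2 := circ_sq v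
    rw [h2] at e1
    linarith
  have key : ∀ a b : Circle, crv a = crv b → ru a = ru b → 0 ≤ (a : ℂ).im → (b : ℂ).im < 0 → False := by
    intro a b hab hr ha hb
    have hb' := im_pos_ru (u := b) hb.ne
    unfold crv at hab
    rw [if_pos ha, if_neg (not_le.2 hb), hr] at hab
    exact G_ne_A hb'.1 hb'.2 hab
  have h4 : (u : ℂ).im = (v : ℂ).im := by
    rcases le_or_gt 0 (u : ℂ).im with hu | hu
    · rcases le_or_gt 0 (v : ℂ).im with hv | hv
      · nlinarith [sq_nonneg ((u : ℂ).im - (v : ℂ).im), sq_nonneg ((u : ℂ).im + (v : ℂ).im),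
          abs_of_nonneg hu, abs_of_nonneg hv, abs_eq_abs.2 (sq_eq_sq_iff_eq_or_eq_neg.1 h3)]
      · exact (key u v h h1 hu hv).elim
    · rcases le_or_gt 0 (v : ℂ).im with hv | hv
      · exact (key v u h.symm h1.symm hv hu).elim
      · have := abs_eq_abs.2 (sq_eq_sq_iff_eq_or_eq_neg.1 h3)
        rw [abs_of_neg hu, abs_of_neg hv] at this
        linarith
  exact Circle.ext (Complex.ext h2 h4)

theorem crv_coe_mem (u : Circle) : (((crv u).1 : ℂ), (crv u).2) ∈ Geo.Pat := by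
  unfold crv
  split_ifs
  · left
    exact ⟨ru u, ru_mem u, (cG_coe _).symm⟩
  · right
    exact ⟨ru u, ru_mem u, (cA_coe _).symm⟩

/-- a point of the circle with given real part -/
theorem exists_u {r : ℝ} (hr : r ∈ Icc (0:ℝ) 1) : ∃ u : Circle, ru u = r ∧ 0 ≤ (u : ℂ).im := by
  have h0 : 0 ≤ 1 - (1 - 2 * r) ^ 2 := by nlinarith [hr.1, hr.2]
  let c : ℂ := ⟨1 - 2 * r, Real.sqrt (1 - (1 - 2 * r) ^ 2)⟩
  have hc : ‖c‖ = 1 := by
    have h1 : ‖c‖ ^ 2 = 1 := by
      rw [sq_norm]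
      show (1 - 2 * r) ^ 2 + Real.sqrt (1 - (1 - 2 * r) ^ 2) ^ 2 = 1
      rw [Real.sq_sqrt h0]; ring
    have h2 := norm_nonneg c
    nlinarith
  refine ⟨⟨c, by simpa [Submonoid.unitSphere] using hc⟩, ?_, Real.sqrt_nonneg _⟩
  show (1 - (1 - 2 * r)) / 2 = r
  ring

theorem exists_u' {r : ℝ} (hr : r ∈ Icc (0:ℝ) 1) : ∃ u : Circle, ru u = r ∧ (u : ℂ).im ≤ 0 := by
  obtain ⟨u, h1, h2⟩ := exists_u hr
  refine ⟨u⁻¹, ?_, ?_⟩
  · rw [← h1, ru, ru, Circle.coe_inv_eq_conj, Complex.conj_re]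
  · rw [Circle.coe_inv_eq_conj, Complex.conj_im]; linarith

theorem crv_G {u : Circle} (h : 0 ≤ (u : ℂ).im) : crv u = cG (ru u) := if_pos h

theorem crv_A {u : Circle} (h : (u : ℂ).im ≤ 0) : crv u = cA (ru u) := by
  rcases h.lt_or_eq with h | h
  · exact if_neg (not_le.2 h)
  · rw [crv_G h.ge]
    rcases ru_of_im h with h1 | h1
    · rw [h1, ends0]
    · rw [h1, ends1]

theorem range_crv : (range fun u : Circle => (((crv u).1 : ℂ), (crv u).2)) = Geo.Pat := by
  apply Subset.antisymm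
  · rintro _ ⟨u, rfl⟩
    exact crv_coe_mem u
  · rintro _ (⟨r, hr, rfl⟩ | ⟨r, hr, rfl⟩)
    · obtain ⟨u, h1, h2⟩ := exists_u hr
      refine ⟨u, ?_⟩
      show (((crv u).1 : ℂ), (crv u).2) = _
      rw [crv_G h2, h1, cG_coe]
    · obtain ⟨u, h1, h2⟩ := exists_u' hr
      refine ⟨u, ?_⟩
      show (((crv u).1 : ℂ), (crv u).2) = _
      rw [crv_A h2, h1, cA_coe]

theorem crv_norm (u : Circle) : ‖(crv u).2‖ < 1 := by
  have h2 : ∀ r ∈ Icc (0:ℝ) 1, ‖(cG r).2‖ < 1 ∧ ‖(cA r).2‖ < 1 := by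
    intro r hr
    have hh := hh_sq_le hr
    have h4 : (r - 1/2) ^ 2 ≤ 1/4 := by nlinarith [hr.1, hr.2]
    constructor
    · have h1 : ‖(cG r).2‖ ^ 2 < 1 := by
        rw [sq_norm]
        show ((r - 1/2 : ℝ) : ℂ).re ^ 2 + ((r - 1/2 : ℝ) : ℂ).im ^ 2 < 1
        rw [Complex.ofReal_re, Complex.ofReal_im]
        linarith
      nlinarith [norm_nonneg (cG r).2]
    · have h1 : ‖(cA r).2‖ ^ 2 < 1 := by
        rw [sq_norm, cA_re]
        have : (cA r).2.im = Geo.hh r := by simp [cA]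
        rw [this]
        linarith
      nlinarith [norm_nonneg (cA r).2]
  unfold crv
  split_ifs
  · exact (h2 _ (ru_mem u)).1
  · exact (h2 _ (ru_mem u)).2

/-- the pattern -/
noncomputable def PP : Pattern := ⟨crv, continuous_crv, crv_inj, crv_norm⟩

theorem MM_xx (r : ℝ) : MM (xx r) = Real.sqrt (1 - (r - 1/2) ^ 2 / 2) := by rw [MM, xx_sq]

theorem std_G (u : Circle) (h : 0 ≤ (u : ℂ).im) :
    (stdEmb (crv u) (crv_norm u)).1.1 = Geo.ee (Geo.sg (ru u)) * (MM (xx (ru u)) : ℂ) ∧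
    (stdEmb (crv u) (crv_norm u)).1.2 = ((xx (ru u) : ℝ) : ℂ) := by
  have e1 : (((crv u).1 : Circle) : ℂ) = Geo.ee (Geo.sg (ru u)) := by
    rw [crv_G h]; exact congrArg Prod.fst (cG_coe _)
  have e2 : (crv u).2 = ((ru u - 1/2 : ℝ) : ℂ) := by rw [crv_G h]; rfl
  constructor
  · show (((crv u).1 : Circle) : ℂ) * (Real.sqrt (1 - ‖(crv u).2‖ ^ 2 / 2) : ℂ) = _
    rw [e1, e2, Complex.norm_real, Real.norm_eq_abs, sq_abs, MM_xx]
  · show (crv u).2 / (Real.sqrt 2 : ℂ) = _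
    rw [e2, ← Complex.ofReal_div]
    rfl

theorem std_A (u : Circle) (h : (u : ℂ).im ≤ 0) :
    (stdEmb (crv u) (crv_norm u)).1.1 = (aa (ru u) : ℂ) ∧
    (stdEmb (crv u) (crv_norm u)).1.2 = ⟨xx (ru u), Geo.hh (ru u) / Real.sqrt 2⟩ := by
  have e1 : (((crv u).1 : Circle) : ℂ) = 1 := by rw [crv_A h]; rfl
  have e2 : (crv u).2 = ⟨ru u - 1/2, Geo.hh (ru u)⟩ := by
    rw [crv_A h]
    apply Complex.ext
    · exact cA_re _
    · simp [cA]
  constructor
  · show (((crv u).1 : Circle) : ℂ) * (Real.sqrt (1 - ‖(crv u).2‖ ^ 2 / 2) : ℂ) = _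
    rw [e1, e2, sq_norm, one_mul]
    rfl
  · show (crv u).2 / (Real.sqrt 2 : ℂ) = _
    rw [e2]
    apply Complex.ext
    · rw [Complex.div_ofReal_re]; rfl
    · rw [Complex.div_ofReal_im]

theorem roundUnknotted : PP.RoundUnknotted := by
  refine ⟨phi, Real.sqrt (1/8), Real.sqrt_pos.2 (by norm_num), ?_, ?_⟩
  · rw [Real.sqrt_le_one]; norm_num
  have hc : Real.sqrt (1 - Real.sqrt (1/8) ^ 2) = Real.sqrt (7/8) := by
    rw [Real.sq_sqrt (by norm_num)]; norm_num
  rw [hc]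
  apply Subset.antisymm
  · rintro _ ⟨_, ⟨u, rfl⟩, rfl⟩
    show (phi (stdEmb (crv u) (crv_norm u))).1.2.im = 0 ∧
      (phi (stdEmb (crv u) (crv_norm u))).1.1.re = Real.sqrt (7/8)
    rcases le_total 0 (u : ℂ).im with h | h
    · obtain ⟨h1, h2⟩ := std_G u h
      obtain ⟨k1, k2, -, -⟩ := phi_G (ru_mem u) _ h1 h2
      exact ⟨k2, k1⟩
    · obtain ⟨h1, h2⟩ := std_A u h
      obtain ⟨k1, k2, -, -⟩ := phi_A (ru_mem u) _ h1 h2
      exact ⟨k2, k1⟩
  · rintro z ⟨hz1, hz2⟩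
    have h0 := S3_eq z
    rw [hz1, hz2, Real.sq_sqrt (by norm_num)] at h0
    have hx : z.1.2.re ^ 2 ≤ 1/8 := by nlinarith [sq_nonneg z.1.1.im]
    have hr : Real.sqrt 2 * z.1.2.re + 1/2 ∈ Icc (0:ℝ) 1 := by
      have h1 : (Real.sqrt 2 * z.1.2.re) ^ 2 ≤ (1/2) ^ 2 := by rw [mul_pow, s2_sq]; linarith
      have h2 := abs_le_of_sq_le_sq' h1 (by norm_num)
      constructor <;> linarith [h2.1, h2.2]
    have hxx : xx (Real.sqrt 2 * z.1.2.re + 1/2) = z.1.2.re := by
      rw [xx, add_sub_cancel_right, mul_div_cancel_left₀ _ s2_pos.ne']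
    have fin : ∀ y : S3, y.1.1.re = Real.sqrt (7/8) → y.1.2.im = 0 → y.1.2.re = z.1.2.re →
        0 ≤ y.1.1.im * z.1.1.im → y = z := by
      intro y y1 y2 y3 y4
      have h3 := S3_eq y
      rw [y1, y2, y3, Real.sq_sqrt (by norm_num)] at h3
      have h4 : y.1.1.im ^ 2 = z.1.1.im ^ 2 := by linarith
      have h5 : y.1.1.im = z.1.1.im := by
        rcases sq_eq_sq_iff_eq_or_eq_neg.1 h4 with h5 | h5
        · exact h5
        · rw [h5] at y4 ⊢
          have h6 : z.1.1.im ^ 2 = 0 := by nlinarith [sq_nonneg z.1.1.im]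
          rw [pow_eq_zero_iff two_ne_zero] at h6
          rw [h6, neg_zero]
      apply Subtype.ext
      refine Prod.ext (Complex.ext ?_ h5) (Complex.ext y3 ?_)
      · rw [y1, hz2]
      · rw [y2, hz1]
    rcases le_total z.1.1.im 0 with hs | hs
    · obtain ⟨u, hu1, hu2⟩ := exists_u hr
      refine ⟨stdEmb (crv u) (crv_norm u), ⟨u, rfl⟩, ?_⟩
      obtain ⟨h1, h2⟩ := std_G u hu2
      obtain ⟨k1, k2, k3, k4⟩ := phi_G (ru_mem u) _ h1 h2
      refine fin _ k1 k2 (by rw [k3, hu1, hxx]) ?_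
      exact mul_nonneg_of_nonpos_of_nonpos k4 hs
    · obtain ⟨u, hu1, hu2⟩ := exists_u' hr
      refine ⟨stdEmb (crv u) (crv_norm u), ⟨u, rfl⟩, ?_⟩
      obtain ⟨h1, h2⟩ := std_A u hu2
      obtain ⟨k1, k2, k3, k4⟩ := phi_A (ru_mem u) _ h1 h2
      refine fin _ k1 k2 (by rw [k3, hu1, hxx]) ?_
      exact mul_nonneg k4 hs

/-! ### winding number -/

/-- the lift on one period -/
noncomputable def ws (τ : ℝ) : ℝ :=
  if τ ≤ 1/2 then Geo.sg ((1 - Real.cos (2 * Real.pi * τ)) / 2) else 1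

theorem continuous_ws : Continuous ws := by
  unfold ws
  have h1 := continuous_sg
  refine Continuous.if_le ?_ continuous_const continuous_id continuous_const ?_
  · exact h1.comp (by fun_prop)
  · intro τ hτ
    rw [hτ]
    have : 2 * Real.pi * (1/2) = Real.pi := by ring
    rw [this, Real.cos_pi]
    unfold Geo.sg
    norm_num

theorem windOne : PP.WindOne := by
  refine ⟨fun t => t + (ws (Int.fract t) - Int.fract t), ?_, ?_, ?_⟩
  · refine continuous_id.add ?_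
    have h1 : ContinuousOn (fun τ : ℝ => ws τ - τ) (Icc 0 1) :=
      (continuous_ws.sub continuous_id).continuousOn
    have h2 : (fun τ : ℝ => ws τ - τ) 0 = (fun τ : ℝ => ws τ - τ) 1 := by
      show ws 0 - 0 = ws 1 - 1
      unfold ws
      rw [if_pos (by norm_num), if_neg (by norm_num), mul_zero, Real.cos_zero]
      unfold Geo.sg
      norm_num
    exact h1.comp_fract'' h2
  · intro t
    show t + 1 + (ws (Int.fract (t + 1)) - Int.fract (t + 1)) = _
    rw [Int.fract_add_one]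
    ring
  · intro t
    show (crv (Circle.exp (2 * Real.pi * t))).1 = Circle.exp (2 * Real.pi * (t + (ws (Int.fract t) - Int.fract t)))
    have ht : t = Int.floor t + Int.fract t := (Int.floor_add_fract t).symm
    have e1 : t + (ws (Int.fract t) - Int.fract t) = ws (Int.fract t) + Int.floor t := by
      linear_combination ht
    have e2 : Circle.exp (2 * Real.pi * (ws (Int.fract t) + Int.floor t)) =
        Circle.exp (2 * Real.pi * ws (Int.fract t)) := by
      have : 2 * Real.pi * (ws (Int.fract t) + Int.floor t) =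
        2 * Real.pi * ws (Int.fract t) + Int.floor t * (2 * Real.pi) := by ring
      rw [this]
      exact Circle.periodic_exp.int_mul _ _
    have e3 : Circle.exp (2 * Real.pi * t) = Circle.exp (2 * Real.pi * Int.fract t) := by
      have : 2 * Real.pi * t = 2 * Real.pi * Int.fract t + Int.floor t * (2 * Real.pi) := by
        linear_combination (2 * Real.pi) * ht
      rw [this]
      exact Circle.periodic_exp.int_mul _ _
    rw [e1, e2, e3]
    have hf0 := Int.fract_nonneg t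
    have hf1 := Int.fract_lt_one t
    generalize Int.fract t = τ at hf0 hf1
    have c1 : ((Circle.exp (2 * Real.pi * τ) : Circle) : ℂ).re = Real.cos (2 * Real.pi * τ) := by
      rw [Circle.coe_exp, Complex.exp_ofReal_mul_I_re]
    have c2 : ((Circle.exp (2 * Real.pi * τ) : Circle) : ℂ).im = Real.sin (2 * Real.pi * τ) := by
      rw [Circle.coe_exp, Complex.exp_ofReal_mul_I_im]
    by_cases hτ : τ ≤ 1/2
    · have h3 : 0 ≤ Real.sin (2 * Real.pi * τ) :=
        Real.sin_nonneg_of_nonneg_of_le_pi (by positivity) (by nlinarith [Real.pi_pos])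
      rw [crv_G (by rw [c2]; exact h3), ws, if_pos hτ]
      show Circle.exp (2 * Real.pi * Geo.sg (ru _)) = _
      rw [ru, c1]
    · have h3 : Real.sin (2 * Real.pi * τ) ≤ 0 := by
        have h4 : 0 ≤ Real.sin (2 * Real.pi * τ - Real.pi) :=
          Real.sin_nonneg_of_nonneg_of_le_pi (by nlinarith [Real.pi_pos]) (by nlinarith [Real.pi_pos])
        rw [Real.sin_sub_pi] at h4
        linarith
      rw [crv_A (by rw [c2]; exact h3), ws, if_neg hτ, mul_one]
      show (1 : Circle) = _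
      rw [Circle.exp_two_pi]

end PT

/-- the pattern, parametrised by the circle: `G` on the upper half, `A` on the lower -/
theorem exists_pattern : ∃ P : Pattern, (Set.range fun u => ((P.c u).1.1, (P.c u).2)) = Geo.Pat ∧
    P.WindOne ∧ P.Unknotted :=
  ⟨PT.PP, PT.range_crv, PT.windOne, PT.roundUnknotted.unknotted⟩

end Pool.Agent.Helper60.Fin
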