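import Pool.Agent.Helper60.Fin.MainDefs

/-! A concordance gives a tube. -/

set_option autoImplicit false

namespace Pool.Agent.Helper60.Fin

open Set Geo

/-- clamping to the unit interval -/
noncomputable def cl1 (t : ℝ) : ℝ := max 0 (min t 1)

theorem cl1_mem (t : ℝ) : 0 ≤ cl1 t ∧ cl1 t ≤ 1 :=
  ⟨le_max_left _ _, max_le zero_le_one (min_le_right _ _)⟩

theorem continuous_cl1 : Continuous cl1 := by
  unfold cl1
  fun_prop

theorem cl1_of_nonpos {t : ℝ} (h : t ≤ 0) : cl1 t = 0 := by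
  unfold cl1
  rw [min_eq_left (by linarith), max_eq_left h]

theorem cl1_of_one_le {t : ℝ} (h : 1 ≤ t) : cl1 t = 1 := by
  unfold cl1
  rw [min_eq_right h, max_eq_right zero_le_one]

theorem cl1_of_mem {t : ℝ} (h0 : 0 ≤ t) (h1 : t ≤ 1) : cl1 t = t := by
  unfold cl1
  rw [min_eq_left h1, max_eq_right h0]

section

variable (h : Circle × I01 × Disc → S3 × I01)

/-- the point of the domain of `h` -/
noncomputable def tofP (p : ℂ × ℝ × ℂ) (hp : p ∈ Dom) : Circle × I01 × Disc :=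
  (⟨p.1, by simpa [Submonoid.unitSphere] using hp.1⟩, ⟨cl1 p.2.1, cl1_mem p.2.1⟩, ⟨p.2.2, hp.2⟩)

open Classical in
/-- the level -/
noncomputable def tofL (p : ℂ × ℝ × ℂ) : ℝ :=
  if hp : p ∈ Dom then (p.2.1 - cl1 p.2.1) + (h (tofP p hp)).2.1 else 0

open Classical in
/-- the point of the sphere -/
noncomputable def tofX (p : ℂ × ℝ × ℂ) : ℂ × ℂ :=
  if hp : p ∈ Dom then (h (tofP p hp)).1.1 else 0

/-- the tube map -/
noncomputable def tofF (p : ℂ × ℝ × ℂ) : ℂ × ℂ := Real.exp (tofL h p) • tofX h p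

theorem nrm_S3 (x : S3) : nrm x.1 = 1 := by
  unfold nrm
  rw [x.2, Real.sqrt_one]

theorem tofL_eq {p : ℂ × ℝ × ℂ} (hp : p ∈ Dom) :
    tofL h p = (p.2.1 - cl1 p.2.1) + (h (tofP p hp)).2.1 := dif_pos hp

theorem tofX_eq {p : ℂ × ℝ × ℂ} (hp : p ∈ Dom) : tofX h p = (h (tofP p hp)).1.1 := dif_pos hp

theorem nrm_tofF {p : ℂ × ℝ × ℂ} (hp : p ∈ Dom) : nrm (tofF h p) = Real.exp (tofL h p) := by
  rw [tofF, nrm_smul_of_pos (Real.exp_pos _), tofX_eq h hp, nrm_S3, mul_one]

theorem continuousOn_tofF (hc : Continuous h) : ContinuousOn (tofF h) Dom := by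
  rw [continuousOn_iff_continuous_domRestrict]
  have hP : Continuous (fun p : Dom => tofP p.1 p.2) := by
    unfold tofP
    refine Continuous.prodMk ?_ (Continuous.prodMk ?_ ?_)
    · exact Continuous.subtype_mk (by fun_prop) _
    · exact Continuous.subtype_mk (continuous_cl1.comp (by fun_prop)) _
    · exact Continuous.subtype_mk (by fun_prop) _
  have e : Dom.domRestrict (tofF h) = fun p : Dom =>
      Real.exp ((p.1.2.1 - cl1 p.1.2.1) + (h (tofP p.1 p.2)).2.1) • (h (tofP p.1 p.2)).1.1 := by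
    funext p
    show tofF h p.1 = _
    rw [tofF, tofL_eq h p.2, tofX_eq h p.2]
  rw [e]
  have h1 : Continuous (fun p : Dom => (h (tofP p.1 p.2)).2.1) :=
    continuous_subtype_val.comp (continuous_snd.comp (hc.comp hP))
  have h2 : Continuous (fun p : Dom => (h (tofP p.1 p.2)).1.1) :=
    continuous_subtype_val.comp (continuous_fst.comp (hc.comp hP))
  have h3 : Continuous (fun p : Dom => p.1.2.1 - cl1 p.1.2.1) := by
    have := continuous_cl1
    fun_prop
  exact (Real.continuous_exp.comp (h3.add h1)).smul h2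

variable (h0 : ∀ p, (h p).2 = i0 ↔ p.2.1 = i0) (h1 : ∀ p, (h p).2 = i1 ↔ p.2.1 = i1)

include h0 in
theorem tof_lv0 {p : ℂ × ℝ × ℂ} (hp : p ∈ Dom) (ht : p.2.1 ≤ 0) : (h (tofP p hp)).2.1 = 0 := by
  have e : (tofP p hp).2.1 = i0 := Subtype.ext (cl1_of_nonpos ht)
  rw [(h0 _).2 e]
  rfl

include h1 in
theorem tof_lv1 {p : ℂ × ℝ × ℂ} (hp : p ∈ Dom) (ht : 1 ≤ p.2.1) : (h (tofP p hp)).2.1 = 1 := by
  have e : (tofP p hp).2.1 = i1 := Subtype.ext (cl1_of_one_le ht)
  rw [(h1 _).2 e]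
  rfl

include h0 h1 in
theorem cl1_tofL {p : ℂ × ℝ × ℂ} (hp : p ∈ Dom) : cl1 (tofL h p) = (h (tofP p hp)).2.1 := by
  have hm := (h (tofP p hp)).2.2
  rw [tofL_eq h hp]
  rcases le_total p.2.1 0 with ht | ht
  · rw [tof_lv0 h h0 hp ht, cl1_of_nonpos ht, sub_zero, add_zero, cl1_of_nonpos ht]
  · rcases le_total p.2.1 1 with ht' | ht'
    · rw [cl1_of_mem ht ht', sub_self, zero_add, cl1_of_mem hm.1 hm.2]
    · rw [tof_lv1 h h1 hp ht', cl1_of_one_le ht', sub_add_cancel, cl1_of_one_le ht']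

include h0 h1 in
theorem injOn_tofF (hi : Function.Injective h) : InjOn (tofF h) Dom := by
  intro p hp q hq he
  have hn := congrArg nrm he
  rw [nrm_tofF h hp, nrm_tofF h hq] at hn
  have hL : tofL h p = tofL h q := Real.exp_injective hn
  have h2 : (h (tofP p hp)).2.1 = (h (tofP q hq)).2.1 := by
    rw [← cl1_tofL h h0 h1 hp, ← cl1_tofL h h0 h1 hq, hL]
  have h3 : p.2.1 - cl1 p.2.1 = q.2.1 - cl1 q.2.1 := by
    have := hL
    rw [tofL_eq h hp, tofL_eq h hq, h2] at this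
    linarith
  have h4 : tofX h p = tofX h q := by
    have h5 : Real.exp (tofL h q) • tofX h p = Real.exp (tofL h q) • tofX h q := by
      rw [← hL]
      unfold tofF at he
      rw [he, hL]
    exact smul_right_injective _ (Real.exp_pos (tofL h q)).ne' h5
  rw [tofX_eq h hp, tofX_eq h hq] at h4
  have h6 : h (tofP p hp) = h (tofP q hq) := Prod.ext (Subtype.ext h4) (Subtype.ext h2)
  have h7 := hi h6
  have h8 : p.1 = q.1 := congrArg (fun t : Circle × I01 × Disc => (t.1 : ℂ)) h7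
  have h9 : cl1 p.2.1 = cl1 q.2.1 := congrArg (fun t : Circle × I01 × Disc => t.2.1.1) h7
  have h10 : p.2.2 = q.2.2 := congrArg (fun t : Circle × I01 × Disc => t.2.2.1) h7
  refine Prod.ext h8 (Prod.ext ?_ h10)
  rw [h9] at h3
  linarith

theorem tofP_congr {p q : ℂ × ℝ × ℂ} (hp : p ∈ Dom) (hq : q ∈ Dom) (e1 : p.1 = q.1)
    (e2 : cl1 p.2.1 = cl1 q.2.1) (e3 : p.2.2 = q.2.2) : tofP p hp = tofP q hq := by
  refine Prod.ext ?_ (Prod.ext ?_ ?_)
  · exact Subtype.ext e1
  · exact Subtype.ext e2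
  · exact Subtype.ext e3

end

/-- a concordance gives a tube -/
theorem tube_of_concordant {J K : Set S3} (h : Concordant J K)
    (hJ : Subtype.val '' J = Geo.Jn) (hK : Subtype.val '' K = Geo.Kn) :
    ∃ D : Geo.Tube, Geo.StartsJ D ∧ Geo.EndsK D := by
  obtain ⟨h, hc, hi, h0, h1, hJ', hK'⟩ := h
  have hD : ∀ {u : ℂ} {t : ℝ} {w : ℂ}, ‖u‖ = 1 → ‖w‖ ≤ 1 → ((u, t, w) : ℂ × ℝ × ℂ) ∈ Dom :=
    fun hu hw => ⟨hu, hw⟩
  let D : Tube :=
    { f := tofF h
      cont := continuousOn_tofF h hc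
      inj := injOn_tofF h h0 h1 hi
      low := by
        intro u t w hu hw ht
        have hp := hD (t := t) hu hw
        have hq := hD (t := 0) hu hw
        have e : tofP (u, t, w) hp = tofP (u, 0, w) hq :=
          tofP_congr hp hq rfl (by
            show cl1 t = cl1 0
            rw [cl1_of_nonpos ht, cl1_of_nonpos le_rfl]) rfl
        have eL : tofL h (u, t, w) = t + tofL h (u, 0, w) := by
          rw [tofL_eq h hp, tofL_eq h hq, e]
          show t - cl1 t + _ = t + (0 - cl1 0 + _)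
          rw [cl1_of_nonpos ht, cl1_of_nonpos le_rfl]
          ring
        have eX : tofX h (u, t, w) = tofX h (u, 0, w) := by
          rw [tofX_eq h hp, tofX_eq h hq, e]
        rw [tofF, tofF, eL, eX, Real.exp_add, mul_smul]
      high := by
        intro u t w hu hw ht
        have hp := hD (t := t) hu hw
        have hq := hD (t := 1) hu hw
        have e : tofP (u, t, w) hp = tofP (u, 1, w) hq :=
          tofP_congr hp hq rfl (by
            show cl1 t = cl1 1
            rw [cl1_of_one_le ht, cl1_of_one_le le_rfl]) rfl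
        have eL : tofL h (u, t, w) = (t - 1) + tofL h (u, 1, w) := by
          rw [tofL_eq h hp, tofL_eq h hq, e]
          show t - cl1 t + _ = (t - 1) + (1 - cl1 1 + _)
          rw [cl1_of_one_le ht, cl1_of_one_le le_rfl]
          ring
        have eX : tofX h (u, t, w) = tofX h (u, 1, w) := by
          rw [tofX_eq h hp, tofX_eq h hq, e]
        rw [tofF, tofF, eL, eX, Real.exp_add, mul_smul]
      nrm0 := by
        intro u w hu hw
        have hp := hD (t := 0) hu hw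
        rw [nrm_tofF h hp, tofL_eq h hp, tof_lv0 h h0 hp le_rfl]
        show Real.exp (0 - cl1 0 + 0) = 1
        rw [cl1_of_nonpos le_rfl, sub_zero, add_zero, Real.exp_zero]
      nrm1 := by
        intro u w hu hw
        have hp := hD (t := 1) hu hw
        rw [nrm_tofF h hp, tofL_eq h hp, tof_lv1 h h1 hp le_rfl]
        show Real.exp (1 - cl1 1 + 1) = Real.exp 1
        rw [cl1_of_one_le le_rfl, sub_self, zero_add]
      mid := by
        intro u t w hu hw ht0 ht1
        have hp := hD (t := t) hu hw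
        have hm := (h (tofP (u, t, w) hp)).2.2
        have e : cl1 t = t := cl1_of_mem ht0.le ht1.le
        have eL : tofL h (u, t, w) = (h (tofP (u, t, w) hp)).2.1 := by
          rw [tofL_eq h hp]
          show t - cl1 t + _ = _
          rw [e]
          ring
        have hne0 : (h (tofP (u, t, w) hp)).2.1 ≠ 0 := by
          intro he
          have h2 : (h (tofP (u, t, w) hp)).2 = i0 := Subtype.ext he
          have h3 := congrArg Subtype.val ((h0 _).1 h2)
          have h4 : cl1 t = 0 := h3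
          linarith
        have hne1 : (h (tofP (u, t, w) hp)).2.1 ≠ 1 := by
          intro he
          have h2 : (h (tofP (u, t, w) hp)).2 = i1 := Subtype.ext he
          have h3 := congrArg Subtype.val ((h1 _).1 h2)
          have h4 : cl1 t = 1 := h3
          linarith
        rw [nrm_tofF h hp, eL]
        exact ⟨Real.one_lt_exp_iff.2 (lt_of_le_of_ne hm.1 (Ne.symm hne0)),
          Real.exp_lt_exp.2 (lt_of_le_of_ne hm.2 hne1)⟩ }
  have hz : ‖(0:ℂ)‖ ≤ 1 := by simp
  have f0 : ∀ (u : ℂ) (hu : ‖u‖ = 1), D.f (u, 0, 0) =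
      (h (⟨u, by simpa [Submonoid.unitSphere] using hu⟩, i0, d0)).1.1 := by
    intro u hu
    have hp := hD (t := 0) hu hz
    have e : tofP (u, 0, 0) hp = (⟨u, by simpa [Submonoid.unitSphere] using hu⟩, i0, d0) := by
      refine Prod.ext rfl (Prod.ext ?_ rfl)
      exact Subtype.ext (cl1_of_nonpos le_rfl)
    show tofF h (u, 0, 0) = _
    rw [tofF, tofL_eq h hp, tof_lv0 h h0 hp le_rfl, tofX_eq h hp, e]
    show Real.exp (0 - cl1 0 + 0) • _ = _
    rw [cl1_of_nonpos le_rfl, sub_zero, add_zero, Real.exp_zero, one_smul]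
  have f1 : ∀ (u : ℂ) (hu : ‖u‖ = 1), D.f (u, 1, 0) =
      Real.exp 1 • (h (⟨u, by simpa [Submonoid.unitSphere] using hu⟩, i1, d0)).1.1 := by
    intro u hu
    have hp := hD (t := 1) hu hz
    have e : tofP (u, 1, 0) hp = (⟨u, by simpa [Submonoid.unitSphere] using hu⟩, i1, d0) := by
      refine Prod.ext rfl (Prod.ext ?_ rfl)
      exact Subtype.ext (cl1_of_one_le le_rfl)
    show tofF h (u, 1, 0) = _
    rw [tofF, tofL_eq h hp, tof_lv1 h h1 hp le_rfl, tofX_eq h hp, e]
    show Real.exp (1 - cl1 1 + 1) • _ = _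
    rw [cl1_of_one_le le_rfl, sub_self, zero_add]
  refine ⟨D, ?_, ?_⟩
  · show {z | ∃ u : ℂ, ‖u‖ = 1 ∧ z = D.f (u, 0, 0)} = Geo.Jn
    rw [← hJ, ← hJ']
    ext z
    simp only [mem_ofPred_eq, mem_image, mem_range]
    constructor
    · rintro ⟨u, hu, rfl⟩
      exact ⟨_, ⟨⟨u, by simpa [Submonoid.unitSphere] using hu⟩, rfl⟩, (f0 u hu).symm⟩
    · rintro ⟨_, ⟨u, rfl⟩, rfl⟩
      exact ⟨u, Circle.norm_coe u, (f0 u (Circle.norm_coe u)).symm⟩
  · show {z | ∃ u : ℂ, ‖u‖ = 1 ∧ z = D.f (u, 1, 0)} = {z | ∃ k ∈ Geo.Kn, z = Real.exp 1 • k}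
    rw [← hK, ← hK']
    ext z
    simp only [mem_ofPred_eq, mem_image, mem_range]
    constructor
    · rintro ⟨u, hu, rfl⟩
      exact ⟨_, ⟨_, ⟨⟨u, by simpa [Submonoid.unitSphere] using hu⟩, rfl⟩, rfl⟩, f1 u hu⟩
    · rintro ⟨_, ⟨_, ⟨u, rfl⟩, rfl⟩, rfl⟩
      exact ⟨u, Circle.norm_coe u, (f1 u (Circle.norm_coe u)).symm⟩

end Pool.Agent.Helper60.Fin
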