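import Pool.Agent.Helper60.Fin.MainDefs

/-! The embedding `e` is 0-framed. -/

set_option autoImplicit false

namespace Pool.Agent.Helper60.Fin

open Set Geo AS

theorem continuous_eS : Continuous eS := by
  unfold eS
  refine Continuous.subtype_mk ?_ _
  exact Geo.continuous_eV.comp (by fun_prop)

theorem injective_eS : Function.Injective eS := by
  intro p q h
  have h1 : Geo.eV ((p.1 : ℂ), p.2.1) = Geo.eV ((q.1 : ℂ), q.2.1) := congrArg Subtype.val h
  have h2 := Geo.injOn_eV (mem_ST p) (mem_ST q) h1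
  exact Prod.ext (Subtype.ext (congrArg Prod.fst h2)) (Subtype.ext (congrArg Prod.snd h2))

/-- the trefoil in `S³` -/
def KS : Set S3 := range fun u : Circle => eS (u, d0)

theorem val_KS (z : S3) : z ∈ KS ↔ z.1 ∈ Geo.Kn := by
  constructor
  · rintro ⟨u, rfl⟩
    exact ⟨u, Circle.norm_coe u, rfl⟩
  · rintro ⟨u, hu, h⟩
    exact ⟨⟨u, by simpa [Submonoid.unitSphere] using hu⟩, Subtype.ext h.symm⟩

theorem isClosed_KS : IsClosed KS := by
  refine IsCompact.isClosed ?_
  exact isCompact_range (continuous_eS.comp (by fun_prop))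

/-- normalisation to the sphere -/
noncomputable def nz (z : ℂ × ℂ) (hz : z ≠ 0) : S3 := ⟨(nrm z)⁻¹ • z, by
  have h : nrm ((nrm z)⁻¹ • z) = 1 := by
    rw [nrm_smul_of_pos (inv_pos.2 (nrm_pos.2 hz)), inv_mul_cancel₀ (nrm_pos.2 hz).ne']
  rw [← nrm_sq, h, one_pow]⟩

/-- the open cone over the complement of `K` -/
def UK : Set (ℂ × ℂ) := {z | ∃ hz : z ≠ 0, nz z hz ∉ KS}

theorem continuous_nz : Continuous (fun z : {z : ℂ × ℂ // z ≠ 0} => nz z.1 z.2) := by
  unfold nz
  refine Continuous.subtype_mk ?_ _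
  have h : ∀ z : {z : ℂ × ℂ // z ≠ 0}, nrm z.1 ≠ 0 := fun z => (nrm_pos.2 z.2).ne'
  exact ((continuous_nrm.comp continuous_subtype_val).inv₀ h).smul continuous_subtype_val

theorem isOpen_UK : IsOpen UK := by
  have h1 : IsOpen {z : {z : ℂ × ℂ // z ≠ 0} | nz z.1 z.2 ∉ KS} :=
    isClosed_KS.isOpen_compl.preimage continuous_nz
  have h2 : IsOpen (Subtype.val '' {z : {z : ℂ × ℂ // z ≠ 0} | nz z.1 z.2 ∉ KS}) :=
    (isOpen_ne (x := (0 : ℂ × ℂ))).isOpenMap_subtype_val _ h1
  have e : UK = Subtype.val '' {z : {z : ℂ × ℂ // z ≠ 0} | nz z.1 z.2 ∉ KS} := by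
    ext z
    constructor
    · rintro ⟨hz, h⟩
      exact ⟨⟨z, hz⟩, h, rfl⟩
    · rintro ⟨⟨z, hz⟩, h, rfl⟩
      exact ⟨hz, h⟩
  rw [e]
  exact h2

theorem nz_of_sph (x : S3) (hz : x.1 ≠ 0) : nz x.1 hz = x := by
  refine Subtype.ext ?_
  show (nrm x.1)⁻¹ • x.1 = x.1
  have : nrm x.1 = 1 := by
    unfold nrm
    rw [x.2, Real.sqrt_one]
  rw [this, inv_one, one_smul]

theorem S3_ne (x : S3) : x.1 ≠ 0 := by
  intro h
  have := x.2
  rw [h] at this
  simp at this

open Classical in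
/-- homogeneous extension of a function on the complement of `K` -/
noncomputable def extF (f : {z : S3 // z ∉ KS} → Circle) (z : ℂ × ℂ) : ℂ :=
  if h : z ∈ UK then (f ⟨nz z h.choose, h.choose_spec⟩ : ℂ) else 1

theorem extF_ne (f : {z : S3 // z ∉ KS} → Circle) (z : ℂ × ℂ) : extF f z ≠ 0 := by
  unfold extF
  split_ifs
  · exact Circle.coe_ne_zero _
  · exact one_ne_zero

theorem mem_UK (x : S3) (hx : x ∉ KS) : x.1 ∈ UK := ⟨S3_ne x, by rwa [nz_of_sph]⟩

theorem extF_eq (f : {z : S3 // z ∉ KS} → Circle) (x : S3) (hx : x ∉ KS) :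
    extF f x.1 = f ⟨x, hx⟩ := by
  unfold extF
  rw [dif_pos (mem_UK x hx)]
  have e : ∀ (hz : x.1 ≠ 0) (h : nz x.1 hz ∉ KS),
      (⟨nz x.1 hz, h⟩ : {z : S3 // z ∉ KS}) = ⟨x, hx⟩ := fun hz h => Subtype.ext (nz_of_sph x hz)
  rw [e]

theorem continuousAt_extF {f : {z : S3 // z ∉ KS} → Circle} (hf : Continuous f) {z : ℂ × ℂ}
    (hz : z ∈ UK) : ContinuousAt (extF f) z := by
  have h1 : ContinuousOn (extF f) UK := by
    rw [continuousOn_iff_continuous_domRestrict]
    have e : UK.domRestrict (extF f) = fun z : UK =>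
        (f ⟨nz z.1 z.2.choose, z.2.choose_spec⟩ : ℂ) := by
      funext z
      show extF f z.1 = _
      unfold extF
      rw [dif_pos z.2]
    rw [e]
    refine continuous_subtype_val.comp (hf.comp ?_)
    refine Continuous.subtype_mk ?_ _
    exact continuous_nz.comp (Continuous.subtype_mk continuous_subtype_val
      (fun z : UK => z.2.choose))
  exact h1.continuousAt (isOpen_UK.mem_nhds hz)

theorem Ex_sub : Ex ⊆ UK := by
  rintro z ⟨hz, hz'⟩
  have h1 : ‖z.1‖ ^ 2 + ‖z.2‖ ^ 2 = 1 := by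
    rw [← nrm_sq, show nrm z = 1 from hz, one_pow]
  refine mem_UK ⟨z, h1⟩ ?_
  intro hK
  obtain ⟨u, hu, h⟩ := (val_KS _).1 hK
  exact hz' ⟨u, 0, hu, by simp, h⟩

theorem lonE_mem (s : ℝ) : lonE 1 s ∈ Ex := by
  have hu : ‖ee s‖ = 1 := by
    unfold ee
    rw [show (2 * Real.pi * s * Complex.I : ℂ) = ((2 * Real.pi * s : ℝ) : ℂ) * Complex.I by
      push_cast; ring, Complex.norm_exp_ofReal_mul_I]
  have hST : ((ee s, (1:ℝ)) : ℂ × ℂ) ∈ Geo.ST := ⟨hu, by simp⟩
  refine ⟨eV_sph hST, ?_⟩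
  rintro ⟨u, w, hu', hw, h⟩
  have h2 : ((u, w) : ℂ × ℂ) ∈ Geo.ST := ⟨hu', hw.le⟩
  have h3 := injOn_eV hST h2 h
  have h4 : ((1:ℝ) : ℂ) = w := congrArg Prod.snd h3
  rw [← h4] at hw
  simp at hw

theorem continuous_ee : Continuous ee := by
  unfold ee
  fun_prop

theorem continuous_lonE : Continuous (lonE 1) := by
  unfold lonE
  exact continuous_eV.comp (continuous_ee.prodMk continuous_const)

theorem ee_add_one (s : ℝ) : ee (s + 1) = ee s := by
  unfold ee
  rw [show (2 * Real.pi * ((s + 1 : ℝ) : ℂ) * Complex.I : ℂ) = 2 * Real.pi * s * Complex.I +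
    2 * Real.pi * Complex.I by push_cast; ring, Complex.exp_add, Complex.exp_two_pi_mul_I, mul_one]

theorem lonE_add_one (s : ℝ) : lonE 1 (s + 1) = lonE 1 s := by
  unfold lonE
  rw [ee_add_one]

/-- from vanishing transport to a periodic lift -/
theorem lift_of_hasTr {F : ℂ × ℂ → ℂ} {γ : ℝ → ℂ × ℂ} {S : Set (ℂ × ℂ)} (hF : ∀ x ∈ S, ContinuousAt F x)
    (hF1 : ∀ x ∈ S, ‖F x‖ = 1) (hγ : Continuous γ) (hm : ∀ s, γ s ∈ S) (hp : ∀ s, γ (s + 1) = γ s)
    (h : HasTr (mint (ang F)) γ 1) : ∃ τ : ℝ → ℝ, Continuous τ ∧ (∀ t, τ (t + 1) = τ t) ∧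
      ∀ t, F (γ t) = Circle.exp (τ t) := by
  have hA : AngCont (ang F) S := angCont_ang hF (fun x hx h0 => by
    have := hF1 x hx
    rw [h0] at this
    simp at this)
  obtain ⟨m, hm0, hm1, hmm⟩ := h
  let σ : ℝ → ℝ := fun t => 2 * Real.pi * (ang F (γ t) + (Multiplicative.toAdd (m t) : ℤ))
  have hσc : ContinuousOn σ (Icc 0 1) := by
    intro s hs
    rw [Metric.continuousWithinAt_iff]
    intro ε hε
    have hpi := Real.pi_pos
    obtain ⟨δ, hδ, hd⟩ := hA (γ s) (hm s) (ε / (2 * Real.pi)) (by positivity)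
    obtain ⟨η, hη, hη'⟩ := Metric.continuousAt_iff.1 (hγ.continuousAt (x := s)) δ hδ
    obtain ⟨e, he, hme⟩ := hmm s hs
    refine ⟨min η e, lt_min hη he, fun {t} ht htd => ?_⟩
    have h1 := hd (γ t) (γ s) (hη' (htd.trans_le (min_le_left _ _))) (by rw [dist_self]; exact hδ)
    have h2 := hme t ht s hs (by
      have := htd.trans_le (min_le_right η e)
      rwa [Real.dist_eq] at this) (by rw [sub_self, abs_zero]; exact he)
    have h3 : cint (ang F) (γ t) (γ s) = Multiplicative.toAdd (m s) - Multiplicative.toAdd (m t) := by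
      have h4 := congrArg Multiplicative.toAdd h2
      simp only [mint, toAdd_ofAdd, toAdd_mul, toAdd_inv] at h4
      rw [h4]
      ring
    rw [Real.dist_eq]
    have h5 : σ t - σ s = 2 * Real.pi *
        (ang F (γ t) - ang F (γ s) - (round (ang F (γ t) - ang F (γ s)) : ℝ)) := by
      have h6 : ((round (ang F (γ t) - ang F (γ s)) : ℤ) : ℝ) =
          (Multiplicative.toAdd (m s) : ℤ) - (Multiplicative.toAdd (m t) : ℤ) := by
        have : round (ang F (γ t) - ang F (γ s)) =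
          Multiplicative.toAdd (m s) - Multiplicative.toAdd (m t) := h3
        rw [this]
        push_cast
        ring
      simp only [σ]
      rw [h6]
      ring
    rw [h5, abs_mul, abs_of_pos (by positivity : (0:ℝ) < 2 * Real.pi)]
    calc 2 * Real.pi * |ang F (γ t) - ang F (γ s) - (round (ang F (γ t) - ang F (γ s)) : ℝ)|
        < 2 * Real.pi * (ε / (2 * Real.pi)) := by
          exact mul_lt_mul_of_pos_left h1 (by positivity)
      _ = ε := by field_simp
  have hσ01 : σ 0 = σ 1 := by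
    simp only [σ]
    have : γ 1 = γ 0 := by have := hp 0; rwa [zero_add] at this
    rw [this, hm0, hm1]
  refine ⟨σ ∘ Int.fract, hσc.comp_fract'' hσ01, ?_, ?_⟩
  · intro t
    simp
  · intro t
    have hper : ∀ n : ℤ, ∀ s, γ (s + n) = γ s := by
      have hP : Function.Periodic γ 1 := hp
      intro n s
      have := hP.int_mul n s
      simpa using this
    have h1 : γ t = γ (Int.fract t) := by
      have := hper ⌊t⌋ (Int.fract t)
      rwa [Int.fract_add_floor] at this
    rw [h1]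
    set s := Int.fract t with hs
    show F (γ s) = Circle.exp (σ (Int.fract t))
    rw [← hs, Circle.coe_exp]
    simp only [σ]
    have hn : ‖F (γ s)‖ = 1 := hF1 _ (hm s)
    have h2 : (((2 * Real.pi * (ang F (γ s) + ((Multiplicative.toAdd (m s) : ℤ) : ℝ)) : ℝ) : ℂ) * Complex.I) =
        (Complex.arg (F (γ s)) : ℂ) * Complex.I +
          (Multiplicative.toAdd (m s) : ℤ) * (2 * Real.pi * Complex.I) := by
      unfold ang
      have hpi : (Real.pi : ℂ) ≠ 0 := by exact_mod_cast Real.pi_ne_zero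
      push_cast
      field_simp
    rw [h2, Complex.exp_add, Complex.exp_int_mul_two_pi_mul_I, mul_one]
    have h3 := Complex.norm_mul_exp_arg_mul_I (F (γ s))
    rw [hn, Complex.ofReal_one, one_mul] at h3
    exact h3.symm

theorem zeroFramed_eS : ZeroFramed eS (range fun u : Circle => eS (u, d0)) := by
  refine ⟨continuous_eS, injective_eS, rfl, ?_⟩
  intro f hf hm
  have hF : ∀ x ∈ Ex, ContinuousAt (extF f) x := fun x hx => continuousAt_extF hf (Ex_sub hx)
  have hF1 : ∀ x ∈ Ex, ‖extF f x‖ = 1 := by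
    intro x hx
    unfold extF
    rw [dif_pos (Ex_sub hx)]
    exact Circle.norm_coe _
  have hA : AngCont (ang (extF f)) Ex := angCont_ang hF (fun x _ => extF_ne f x)
  have hG : GFlat (mint (ang (extF f))) Ex := gflat_mint hA
  obtain ⟨m, u, hu⟩ := tref_int hG
  have hc : HasTr cf (lonE 1) 1 := cf_lonE one_pos le_rfl
  have hcm : HasTr (fun x y => (cf x y) ^ m) (lonE 1) 1 := by
    have := hc.map (zpowGroupHom m : Multiplicative ℤ →* Multiplicative ℤ)
    simpa using this
  have h1 : HasTr (mint (ang (extF f))) (lonE 1) 1 := by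
    have h2 := HasTr.gauge hu continuous_lonE.continuousOn (fun s _ => lonE_mem s) hcm
    have h3 : lonE 1 1 = lonE 1 0 := by
      have := lonE_add_one 0
      rwa [zero_add] at this
    rw [h3] at h2
    simpa using h2
  obtain ⟨τ, hτ, hτp, hτe⟩ := lift_of_hasTr hF hF1 continuous_lonE lonE_mem lonE_add_one h1
  refine ⟨τ, hτ, hτp, ?_⟩
  intro t
  have h2 := hτe t
  have h3 : lonE 1 t = (eS (Circle.exp (2 * Real.pi * t), ⟨1, by simp⟩)).1 := by
    unfold lonE eS ee
    simp only [Circle.coe_exp]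
    push_cast
    rfl
  rw [h3, extF_eq f _ (hm _)] at h2
  exact Circle.ext h2

end Pool.Agent.Helper60.Fin
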