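import Pool.Agent.Helper60.Fin.Level2
import Pool.Agent.Helper60.Fin.TubeOf
import Pool.Agent.Helper60.Fin.ZeroFr
import Pool.Agent.Helper60.Fin.Pattern

/-! The final statement. Definitions: MainDefs.lean. -/

set_option autoImplicit false

namespace Pool.Agent.Helper60.Fin

open Set

theorem main : ∃ P : Pattern, P.Unknotted ∧ P.WindOne ∧ ∃ (K : Set S3) (e : Circle × Disc → S3),
    ZeroFramed e K ∧ ¬ Concordant (P.sat e) K := by
  obtain ⟨P, hP, hw, hu⟩ := exists_pattern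
  refine ⟨P, hu, hw, range fun u : Circle => eS (u, d0), eS, zeroFramed_eS, fun hc => ?_⟩
  have key : ∃ D : Geo.Tube, Geo.StartsJ D ∧ Geo.EndsK D := by
    refine tube_of_concordant hc ?_ ?_
    · rw [Geo.Jn, ← hP]
      ext z
      simp only [Pattern.sat, mem_image, mem_range]
      constructor
      · rintro ⟨_, ⟨u, rfl⟩, rfl⟩
        exact ⟨_, ⟨u, rfl⟩, rfl⟩
      · rintro ⟨_, ⟨u, rfl⟩, rfl⟩
        exact ⟨_, ⟨u, rfl⟩, rfl⟩
    · ext z
      simp only [Geo.Kn, mem_image, mem_range, mem_ofPred_eq]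
      constructor
      · rintro ⟨_, ⟨u, rfl⟩, rfl⟩
        exact ⟨u, Circle.norm_coe u, rfl⟩
      · rintro ⟨u, hu, rfl⟩
        exact ⟨_, ⟨⟨u, by simpa [Submonoid.unitSphere] using hu⟩, rfl⟩, rfl⟩
  obtain ⟨D, h1, h2⟩ := key
  exact no_tube h1 h2

end Pool.Agent.Helper60.Fin
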