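import Mathlib

/-! # Satellite operators on topological concordance: definitions

The definitions used by the statement of `Pool.Agent.Results.MP_b8a826_gt.NontrivialOperator.result`.
`Sanity.lean` checks them on the core of the solid torus (the identity operator). -/

set_option autoImplicit false

namespace Pool.Agent.Helper60.Fin

open Set

/-- the 3-sphere: the unit sphere of `ℂ²` -/
abbrev S3 : Type := {z : ℂ × ℂ // ‖z.1‖ ^ 2 + ‖z.2‖ ^ 2 = 1}
/-- the closed unit disc of `ℂ` -/
abbrev Disc : Type := {w : ℂ // ‖w‖ ≤ 1}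
/-- the unit interval `[0,1]` -/
abbrev I01 : Type := {t : ℝ // 0 ≤ t ∧ t ≤ 1}

/-- the centre of the disc -/
def d0 : Disc := ⟨0, by simp⟩
/-- the two ends of the interval -/
def i0 : I01 := ⟨0, by norm_num⟩
def i1 : I01 := ⟨1, by norm_num⟩

/-- Topological concordance of two subsets `J, K` of the 3-sphere: there is a properly embedded, flat
annulus in `S³ × [0,1]` from `J × 0` to `K × 1`, that is an embedding `h` of `S¹ × [0,1] × D` (the annulus
`h(S¹ × [0,1] × 0)` together with a product neighbourhood) in `S³ × [0,1]`, meeting the boundary level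
`S³ × i` exactly in `h(S¹ × i × D)` for `i = 0, 1`, such that `h(S¹ × 0 × 0) = J × 0` and
`h(S¹ × 1 × 0) = K × 1`. (By Freedman and Quinn, Theorem 9.3, an annulus has such a neighbourhood if and
only if it is locally flat. Orientations of `J` and `K` are ignored.) -/
def Concordant (J K : Set S3) : Prop :=
  ∃ h : Circle × I01 × Disc → S3 × I01, Continuous h ∧ Function.Injective h ∧
    (∀ p, (h p).2 = i0 ↔ p.2.1 = i0) ∧ (∀ p, (h p).2 = i1 ↔ p.2.1 = i1) ∧
    (range fun u : Circle => (h (u, i0, d0)).1) = J ∧ (range fun u : Circle => (h (u, i1, d0)).1) = K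

/-- a pattern: a simple closed curve in the interior of the solid torus `V = S¹ × D` -/
structure Pattern where
  c : Circle → Circle × ℂ
  cont : Continuous c
  inj : Function.Injective c
  int : ∀ u, ‖(c u).2‖ < 1

/-- winding number one: the first coordinate `S¹ → S¹` of the curve has degree one (it is covered by a
map `σ : ℝ → ℝ` with `σ(t + 1) = σ(t) + 1`), so the curve generates `H₁(V) = ℤ` -/
def Pattern.WindOne (P : Pattern) : Prop :=
  ∃ σ : ℝ → ℝ, Continuous σ ∧ (∀ t, σ (t + 1) = σ t + 1) ∧
    ∀ t, (P.c (Circle.exp (2 * Real.pi * t))).1 = Circle.exp (2 * Real.pi * σ t)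

/-- the standard unknotted embedding `(u, w) ↦ (u √(1 - |w|²/2), w/√2)` of the open solid torus in the
3-sphere; its core is the great circle `z₂ = 0` and its longitudes `w = const` are parallel to the core
with linking number zero -/
noncomputable def stdEmb (p : Circle × ℂ) (h : ‖p.2‖ < 1) : S3 :=
  ⟨((p.1 : ℂ) * Real.sqrt (1 - ‖p.2‖ ^ 2 / 2), p.2 / Real.sqrt 2), by
    have h0 := norm_nonneg p.2
    have h1 : ‖p.2‖ ^ 2 < 1 := by nlinarith
    have h2 : (0:ℝ) ≤ 1 - ‖p.2‖ ^ 2 / 2 := by linarith
    simp only [norm_mul, norm_div, Circle.norm_coe, Complex.norm_real, Real.norm_eq_abs, one_mul,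
      sq_abs, div_pow, Real.sq_sqrt h2, Real.sq_sqrt (by norm_num : (0:ℝ) ≤ 2)]
    ring⟩

/-- the pattern is unknotted: its image under the standard embedding of the solid torus in the 3-sphere
is taken to the great circle `z₂ = 0` by a homeomorphism of the 3-sphere -/
def Pattern.Unknotted (P : Pattern) : Prop :=
  ∃ φ : S3 ≃ₜ S3, φ '' (range fun u => stdEmb (P.c u) (P.int u)) = {z : S3 | z.1.2 = 0}

/-- `e` is a 0-framed tubular neighbourhood of the knot `K`: an embedding of the solid torus `S¹ × D` in
the 3-sphere with core `K` such that every continuous map from the complement of `K` to the circle has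
degree zero on the longitude `u ↦ e(u, 1)`, that is, the longitude is a Seifert longitude: it has linking
number zero with `K` -/
def ZeroFramed (e : Circle × Disc → S3) (K : Set S3) : Prop :=
  Continuous e ∧ Function.Injective e ∧ (range fun u : Circle => e (u, d0)) = K ∧
    ∀ f : {z : S3 // z ∉ K} → Circle, Continuous f →
      ∀ hm : ∀ u : Circle, e (u, ⟨1, by simp⟩) ∉ K,
        ∃ τ : ℝ → ℝ, Continuous τ ∧ (∀ t, τ (t + 1) = τ t) ∧
          ∀ t, f ⟨e (Circle.exp (2 * Real.pi * t), ⟨1, by simp⟩), hm _⟩ = Circle.exp (τ t)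

/-- the satellite `P(K)`: the image of the pattern under the tubular neighbourhood `e` of `K` -/
def Pattern.sat (P : Pattern) (e : Circle × Disc → S3) : Set S3 :=
  range fun u => e ((P.c u).1, ⟨(P.c u).2, (P.int u).le⟩)

end Pool.Agent.Helper60.Fin
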