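import Pool.Agent.Helper60.Geo.TrefTube
import Pool.Agent.Helper60.Fin.Stmt

/-! The tubular neighbourhood of the trefoil; the definitions of the statement are in Stmt.lean. -/

set_option autoImplicit false

namespace Pool.Agent.Helper60.Fin

open Set

/-- the pattern becomes a round circle -/
def Pattern.RoundUnknotted (P : Pattern) : Prop :=
  ∃ φ : S3 ≃ₜ S3, ∃ c : ℝ, 0 < c ∧ c ≤ 1 ∧
    φ '' (range fun u => stdEmb (P.c u) (P.int u)) =
      {z : S3 | z.1.2.im = 0 ∧ z.1.1.re = Real.sqrt (1 - c ^ 2)}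

/-! ### the tubular neighbourhood of the trefoil -/

theorem mem_ST (p : Circle × Disc) : ((p.1 : ℂ), p.2.1) ∈ Geo.ST := ⟨Circle.norm_coe p.1, p.2.2⟩

/-- the tubular neighbourhood of the trefoil -/
noncomputable def eS (p : Circle × Disc) : S3 := ⟨Geo.eV ((p.1 : ℂ), p.2.1), by
  have h : Geo.nrm (Geo.eV ((p.1 : ℂ), p.2.1)) = 1 := Geo.eV_sph (mem_ST p)
  rw [← Geo.nrm_sq, h, one_pow]⟩

end Pool.Agent.Helper60.Fin
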