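import Pool.Agent.Helper60.Fin.PatPL
import Pool.Agent.Helper60.Fin.MainDefs

/-! Level preserving homeomorphisms of the 3-sphere (the level is `Re z₂`). -/

set_option autoImplicit false

namespace Pool.Agent.Helper60.Fin.PT

open Set Filter Topology

/-- homeomorphism from a map and its inverse -/
def mkH (f g : S3 → S3) (hf : Continuous f) (hg : Continuous g) (h1 : ∀ z, g (f z) = z)
    (h2 : ∀ z, f (g z) = z) : S3 ≃ₜ S3 where
  toFun := f
  invFun := g
  left_inv := h1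
  right_inv := h2
  continuous_toFun := hf
  continuous_invFun := hg

theorem sq_norm (z : ℂ) : ‖z‖ ^ 2 = z.re ^ 2 + z.im ^ 2 := by
  rw [← Complex.normSq_eq_norm_sq, Complex.normSq_apply]; ring

theorem S3_eq (z : S3) : z.1.1.re ^ 2 + z.1.1.im ^ 2 + (z.1.2.re ^ 2 + z.1.2.im ^ 2) = 1 := by
  rw [← sq_norm, ← sq_norm]; exact z.2

/-! ### rotation of the first coordinate -/

/-- multiply the first coordinate by a unit complex number depending on the level -/
def rotA (u : ℝ → ℂ) (hu : ∀ x, ‖u x‖ = 1) (z : S3) : S3 :=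
  ⟨(z.1.1 * u z.1.2.re, z.1.2), by
    show ‖z.1.1 * u z.1.2.re‖ ^ 2 + ‖z.1.2‖ ^ 2 = 1
    rw [norm_mul, hu, mul_one]; exact z.2⟩

theorem continuous_rotA {u : ℝ → ℂ} (hu : ∀ x, ‖u x‖ = 1) (hc : Continuous u) :
    Continuous (rotA u hu) := by
  unfold rotA
  refine Continuous.subtype_mk ?_ _
  fun_prop

theorem conj_norm {u : ℝ → ℂ} (hu : ∀ x, ‖u x‖ = 1) (x : ℝ) : ‖(starRingEnd ℂ) (u x)‖ = 1 := by
  rw [Complex.norm_conj, hu]

theorem mul_conj_one {c : ℂ} (hc : ‖c‖ = 1) : c * (starRingEnd ℂ) c = 1 := by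
  rw [Complex.mul_conj, Complex.normSq_eq_norm_sq, hc]; norm_num

theorem rotA_inv {u v : ℝ → ℂ} (hu : ∀ x, ‖u x‖ = 1) (hv : ∀ x, ‖v x‖ = 1)
    (h : ∀ x, u x * v x = 1) (z : S3) : rotA v hv (rotA u hu z) = z := by
  apply Subtype.ext
  show (z.1.1 * u z.1.2.re * v z.1.2.re, z.1.2) = z.1
  rw [mul_assoc, h, mul_one]

/-- the homeomorphism -/
def HA (u : ℝ → ℂ) (hu : ∀ x, ‖u x‖ = 1) (hc : Continuous u) : S3 ≃ₜ S3 :=
  mkH (rotA u hu) (rotA (fun x => (starRingEnd ℂ) (u x)) (conj_norm hu)) (continuous_rotA hu hc)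
    (continuous_rotA _ (Complex.continuous_conj.comp hc))
    (rotA_inv _ _ fun x => mul_conj_one (hu x))
    (rotA_inv _ _ fun x => by rw [mul_comm]; exact mul_conj_one (hu x))

/-! ### rotation about the first axis -/

/-- the vector `(Im z₁, Im z₂)` -/
def vv (z : ℂ × ℂ) : ℂ := ⟨z.1.im, z.2.im⟩

/-- point with given coordinates -/
def pt (X : ℝ) (v : ℂ) (x : ℝ) : ℂ × ℂ := (⟨X, v.re⟩, ⟨x, v.im⟩)

theorem pt_norm (X : ℝ) (v : ℂ) (x : ℝ) :
    ‖(pt X v x).1‖ ^ 2 + ‖(pt X v x).2‖ ^ 2 = X ^ 2 + ‖v‖ ^ 2 + x ^ 2 := by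
  rw [sq_norm, sq_norm, sq_norm v]
  show X ^ 2 + v.re ^ 2 + (x ^ 2 + v.im ^ 2) = _
  ring

theorem vv_norm (z : S3) : z.1.1.re ^ 2 + ‖vv z.1‖ ^ 2 + z.1.2.re ^ 2 = 1 := by
  rw [sq_norm (vv z.1)]
  have := S3_eq z
  show z.1.1.re ^ 2 + (z.1.1.im ^ 2 + z.1.2.im ^ 2) + z.1.2.re ^ 2 = 1
  linarith

theorem vv_pt (X : ℝ) (v : ℂ) (x : ℝ) : vv (pt X v x) = v := rfl

theorem pt_vv (z : ℂ × ℂ) : pt z.1.re (vv z) z.2.re = z := rfl

theorem continuous_mk {Ω : Type*} [TopologicalSpace Ω] {f g : Ω → ℝ} (hf : Continuous f)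
    (hg : Continuous g) : Continuous fun y => (⟨f y, g y⟩ : ℂ) := by
  have : (fun y => (⟨f y, g y⟩ : ℂ)) = fun y => (f y : ℂ) + (g y : ℂ) * Complex.I := by
    funext y
    apply Complex.ext <;> simp
  rw [this]
  fun_prop

theorem continuous_vv : Continuous vv :=
  continuous_mk (Complex.continuous_im.comp continuous_fst) (Complex.continuous_im.comp continuous_snd)

theorem continuous_pt {Ω : Type*} [TopologicalSpace Ω] {X x : Ω → ℝ} {v : Ω → ℂ} (hX : Continuous X)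
    (hv : Continuous v) (hx : Continuous x) : Continuous fun y => pt (X y) (v y) (x y) :=
  (continuous_mk hX (Complex.continuous_re.comp hv)).prodMk
    (continuous_mk hx (Complex.continuous_im.comp hv))

def rotB (u : ℝ → ℂ) (hu : ∀ x, ‖u x‖ = 1) (z : S3) : S3 :=
  ⟨pt z.1.1.re (vv z.1 * u z.1.2.re) z.1.2.re, by
    rw [pt_norm, norm_mul, hu, mul_one]; exact vv_norm z⟩

theorem continuous_rotB {u : ℝ → ℂ} (hu : ∀ x, ‖u x‖ = 1) (hc : Continuous u) :
    Continuous (rotB u hu) := by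
  unfold rotB
  refine Continuous.subtype_mk ?_ _
  refine continuous_pt (by fun_prop) ?_ (by fun_prop)
  exact (continuous_vv.comp continuous_subtype_val).mul (hc.comp (by fun_prop))

theorem rotB_inv {u v : ℝ → ℂ} (hu : ∀ x, ‖u x‖ = 1) (hv : ∀ x, ‖v x‖ = 1)
    (h : ∀ x, u x * v x = 1) (z : S3) : rotB v hv (rotB u hu z) = z := by
  apply Subtype.ext
  show pt z.1.1.re (vv z.1 * u z.1.2.re * v z.1.2.re) z.1.2.re = z.1
  rw [mul_assoc, h, mul_one, pt_vv]

def HB (u : ℝ → ℂ) (hu : ∀ x, ‖u x‖ = 1) (hc : Continuous u) : S3 ≃ₜ S3 :=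
  mkH (rotB u hu) (rotB (fun x => (starRingEnd ℂ) (u x)) (conj_norm hu)) (continuous_rotB hu hc)
    (continuous_rotB _ (Complex.continuous_conj.comp hc))
    (rotB_inv _ _ fun x => mul_conj_one (hu x))
    (rotB_inv _ _ fun x => by rw [mul_comm]; exact mul_conj_one (hu x))

/-! ### the stretch along the meridians -/

/-- radius of the level sphere -/
noncomputable def MM (x : ℝ) : ℝ := Real.sqrt (1 - x ^ 2)

theorem continuous_MM : Continuous MM := by unfold MM; fun_prop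

theorem MM_sq (z : S3) : MM z.1.2.re ^ 2 = z.1.1.re ^ 2 + ‖vv z.1‖ ^ 2 := by
  have h := vv_norm z
  rw [MM, Real.sq_sqrt] <;> nlinarith [sq_nonneg z.1.1.re, sq_nonneg ‖vv z.1‖]

theorem MM_nonneg (x : ℝ) : 0 ≤ MM x := Real.sqrt_nonneg _

theorem re_le (z : S3) : -MM z.1.2.re ≤ z.1.1.re ∧ z.1.1.re ≤ MM z.1.2.re := by
  have h := MM_sq z
  have h0 := MM_nonneg z.1.2.re
  have : |z.1.1.re| ≤ MM z.1.2.re := by
    apply abs_le_of_sq_le_sq _ h0
    nlinarith [sq_nonneg ‖vv z.1‖]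
  exact abs_le.1 this

/-- the new first coordinate -/
noncomputable def nX (A B : ℝ → ℝ) (z : S3) : ℝ :=
  pl (MM z.1.2.re) (A z.1.2.re) (B z.1.2.re) z.1.1.re

/-- the new length of `vv` -/
noncomputable def nL (A B : ℝ → ℝ) (z : S3) : ℝ := Real.sqrt (MM z.1.2.re ^ 2 - nX A B z ^ 2)

theorem nX_mem {A B : ℝ → ℝ} (h : ∀ x, PLok (MM x) (A x) (B x)) (z : S3) :
    nX A B z ^ 2 ≤ MM z.1.2.re ^ 2 := by
  have h1 := pl_mem (h z.1.2.re) (re_le z).1 (re_le z).2
  exact sq_le_sq' h1.1 h1.2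

theorem nL_sq {A B : ℝ → ℝ} (h : ∀ x, PLok (MM x) (A x) (B x)) (z : S3) :
    nL A B z ^ 2 = MM z.1.2.re ^ 2 - nX A B z ^ 2 :=
  Real.sq_sqrt (sub_nonneg.2 (nX_mem h z))

theorem re_of_vv_zero {z : S3} (hz : vv z.1 = 0) :
    z.1.1.re = MM z.1.2.re ∨ z.1.1.re = -MM z.1.2.re := by
  have h := MM_sq z
  rw [hz, norm_zero] at h
  apply sq_eq_sq_iff_eq_or_eq_neg.1
  rw [h]; ring

theorem nL_zero {A B : ℝ → ℝ} (h : ∀ x, PLok (MM x) (A x) (B x)) {z : S3} (hz : vv z.1 = 0) :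
    nL A B z = 0 := by
  have h1 : nX A B z ^ 2 = MM z.1.2.re ^ 2 := by
    rcases re_of_vv_zero hz with h2 | h2
    · rw [nX, h2, pl_end (h _)]
    · rw [nX, h2, pl_neg_end (h _)]; ring
  rw [nL, h1, sub_self, Real.sqrt_zero]

/-- the stretch -/
noncomputable def str (A B : ℝ → ℝ) (h : ∀ x, PLok (MM x) (A x) (B x)) (z : S3) : S3 :=
  ⟨pt (nX A B z) (vv z.1 * ((nL A B z / ‖vv z.1‖ : ℝ) : ℂ)) z.1.2.re, by
    have h1 := nL_sq h z
    have h2 := MM_sq z
    have h3 := vv_norm z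
    have h4 : ‖vv z.1 * ((nL A B z / ‖vv z.1‖ : ℝ) : ℂ)‖ = nL A B z := by
      rw [norm_mul, Complex.norm_real, Real.norm_eq_abs, abs_div, abs_norm]
      by_cases hz : vv z.1 = 0
      · rw [nL_zero h hz, hz, norm_zero, zero_mul]
      · rw [mul_div_cancel₀ _ (norm_ne_zero_iff.2 hz)]
        exact abs_of_nonneg (Real.sqrt_nonneg _)
    rw [pt_norm, h4]
    nlinarith⟩

theorem continuous_str {A B : ℝ → ℝ} (h : ∀ x, PLok (MM x) (A x) (B x)) (hA : Continuous A)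
    (hB : Continuous B) : Continuous (str A B h) := by
  have c0 : Continuous fun z : S3 => z.1.2.re := by fun_prop
  have c1 : Continuous (nX A B) := by
    refine continuous_pl (continuous_MM.comp c0) (hA.comp c0) (hB.comp c0) (by fun_prop)
      (fun z => h _) (fun z => (re_le z).1) (fun z => (re_le z).2)
  have c2 : Continuous (nL A B) := by
    unfold nL
    exact (((continuous_MM.comp c0).pow 2).sub (c1.pow 2)).sqrt
  unfold str
  refine Continuous.subtype_mk ?_ _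
  refine continuous_pt c1 ?_ c0
  exact continuous_dir (continuous_vv.comp continuous_subtype_val) c2 (fun z hz => nL_zero h hz)

theorem str_inv {A B : ℝ → ℝ} (h : ∀ x, PLok (MM x) (A x) (B x)) (h' : ∀ x, PLok (MM x) (B x) (A x))
    (z : S3) : str B A h' (str A B h z) = z := by
  have e1 : nX B A (str A B h z) = z.1.1.re := pl_inv (h _) (re_le z).1 (re_le z).2
  have e3 : (str A B h z).1.2.re = z.1.2.re := rfl
  have e2 : nL B A (str A B h z) = ‖vv z.1‖ := by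
    rw [nL, e1, e3, MM_sq z]
    rw [show z.1.1.re ^ 2 + ‖vv z.1‖ ^ 2 - z.1.1.re ^ 2 = ‖vv z.1‖ ^ 2 by ring]
    exact Real.sqrt_sq (norm_nonneg _)
  have e4 : vv (str A B h z).1 = vv z.1 * ((nL A B z / ‖vv z.1‖ : ℝ) : ℂ) := rfl
  apply Subtype.ext
  show pt (nX B A (str A B h z)) (vv (str A B h z).1 *
    ((nL B A (str A B h z) / ‖vv (str A B h z).1‖ : ℝ) : ℂ)) (str A B h z).1.2.re = z.1
  rw [e1, e2, e3]
  conv_rhs => rw [← pt_vv z.1]
  congr 1
  by_cases hz : vv z.1 = 0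
  · rw [e4, hz, zero_mul, zero_mul]
  · have hn : ‖vv z.1‖ ≠ 0 := norm_ne_zero_iff.2 hz
    have h5 : nL A B z ≠ 0 := by
      intro h6
      have h7 := nL_sq h z
      rw [h6] at h7
      have h8 : nX A B z = MM z.1.2.re ∨ nX A B z = -MM z.1.2.re := by
        apply sq_eq_sq_iff_eq_or_eq_neg.1
        linarith
      have h9 : z.1.1.re = MM z.1.2.re ∨ z.1.1.re = -MM z.1.2.re := by
        rcases h8 with h8 | h8
        · left
          have := pl_inv (h z.1.2.re) (re_le z).1 (re_le z).2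
          rw [← this]
          show pl _ _ _ (nX A B z) = _
          rw [h8, pl_end (h' _)]
        · right
          have := pl_inv (h z.1.2.re) (re_le z).1 (re_le z).2
          rw [← this]
          show pl _ _ _ (nX A B z) = _
          rw [h8, pl_neg_end (h' _)]
      have h10 := MM_sq z
      have h11 : z.1.1.re ^ 2 = MM z.1.2.re ^ 2 := by
        rcases h9 with h9 | h9 <;> rw [h9]
        ring
      have h12 : ‖vv z.1‖ ^ 2 = 0 := by linarith
      exact hn (pow_eq_zero_iff (two_ne_zero)|>.1 h12)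
    have h6 : ‖vv (str A B h z).1‖ = nL A B z := by
      rw [e4, norm_mul, Complex.norm_real, Real.norm_eq_abs, abs_div, abs_norm,
        mul_div_cancel₀ _ hn]
      exact abs_of_nonneg (Real.sqrt_nonneg _)
    rw [h6, e4, mul_assoc, ← Complex.ofReal_mul]
    have h7 : nL A B z / ‖vv z.1‖ * (‖vv z.1‖ / nL A B z) = 1 := by
      field_simp
    rw [h7, Complex.ofReal_one, mul_one]

noncomputable def HS (A B : ℝ → ℝ) (h : ∀ x, PLok (MM x) (A x) (B x)) (hA : Continuous A)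
    (hB : Continuous B) : S3 ≃ₜ S3 :=
  mkH (str A B h) (str B A fun x => (h x).symm) (continuous_str h hA hB)
    (continuous_str _ hB hA) (str_inv h _) (str_inv _ h)

end Pool.Agent.Helper60.Fin.PT
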