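import Mathlib

/-! Level preserving homeomorphisms of the 3-sphere: auxiliary facts for the unknottedness of the
pattern. -/

set_option autoImplicit false

namespace Pool.Agent.Helper60.Fin.PT

open Set Filter Topology

/-- the piecewise linear self-map of `[-M, M]` taking `A` to `B` -/
noncomputable def pl (M A B X : ℝ) : ℝ := X + (B - A) * min ((M - X) / (M - A)) ((X + M) / (A + M))

/-- the conditions on the parameters -/
structure PLok (M A B : ℝ) : Prop where
  a0 : 0 ≤ A
  a1 : A ≤ M
  b0 : 0 ≤ B
  b1 : B ≤ M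
  ab : A = M ↔ B = M

theorem PLok.symm {M A B : ℝ} (h : PLok M A B) : PLok M B A := ⟨h.b0, h.b1, h.a0, h.a1, h.ab.symm⟩

variable {M A B X : ℝ}

theorem pl_eq (hA : A = M) (hB : B = M) : pl M A B X = X := by
  unfold pl
  rw [hA, hB, sub_self, zero_mul, add_zero]

theorem pl_low (h : PLok M A B) (hA : A < M) (hXA : X ≤ A) :
    pl M A B X = -M + (X + M) * ((B + M) / (A + M)) := by
  have h1 : 0 < M - A := by linarith
  have h2 : 0 < A + M := by linarith [h.a0]
  have h3 : (X + M) / (A + M) ≤ (M - X) / (M - A) := by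
    refine le_trans ((div_le_one h2).2 (by linarith)) ((one_le_div h1).2 (by linarith))
  rw [pl, min_eq_right h3]
  field_simp
  ring

theorem pl_high (h : PLok M A B) (hA : A < M) (hXA : A ≤ X) :
    pl M A B X = M - (M - X) * ((M - B) / (M - A)) := by
  have h1 : 0 < M - A := by linarith
  have h2 : 0 < A + M := by linarith [h.a0]
  have h3 : (M - X) / (M - A) ≤ (X + M) / (A + M) := by
    refine le_trans ((div_le_one h1).2 (by linarith)) ((one_le_div h2).2 (by linarith))
  rw [pl, min_eq_left h3]
  field_simp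
  ring

theorem pl_A (h : PLok M A B) : pl M A B A = B := by
  rcases h.a1.lt_or_eq with hA | hA
  · rw [pl_high h hA le_rfl]
    have h1 : M - A ≠ 0 := by linarith
    field_simp
    ring
  · rw [pl_eq hA (h.ab.1 hA), hA, h.ab.1 hA]

theorem pl_low_le (h : PLok M A B) (hA : A < M) (hX : -M ≤ X) (hXA : X ≤ A) :
    -M ≤ pl M A B X ∧ pl M A B X ≤ B := by
  rw [pl_low h hA hXA]
  have h2 : 0 < A + M := by linarith [h.a0]
  have h3 : 0 ≤ B + M := by linarith [h.b0, h.a0]
  have h4 : 0 ≤ X + M := by linarith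
  constructor
  · have : 0 ≤ (X + M) * ((B + M) / (A + M)) := mul_nonneg h4 (div_nonneg h3 h2.le)
    linarith
  · have : (X + M) * ((B + M) / (A + M)) ≤ B + M := by
      rw [mul_div_assoc', div_le_iff₀ h2, mul_comm (B + M)]
      exact mul_le_mul_of_nonneg_right (by linarith) h3
    linarith

theorem pl_high_le (h : PLok M A B) (hA : A < M) (hX : X ≤ M) (hXA : A ≤ X) :
    B ≤ pl M A B X ∧ pl M A B X ≤ M := by
  rw [pl_high h hA hXA]
  have h1 : 0 < M - A := by linarith
  have h3 : 0 ≤ M - B := by linarith [h.b1]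
  have h4 : 0 ≤ M - X := by linarith
  constructor
  · have : (M - X) * ((M - B) / (M - A)) ≤ M - B := by
      rw [mul_div_assoc', div_le_iff₀ h1, mul_comm (M - B)]
      exact mul_le_mul_of_nonneg_right (by linarith) h3
    linarith
  · have : 0 ≤ (M - X) * ((M - B) / (M - A)) := mul_nonneg h4 (div_nonneg h3 h1.le)
    linarith

theorem pl_mem (h : PLok M A B) (hX : -M ≤ X) (hX' : X ≤ M) :
    -M ≤ pl M A B X ∧ pl M A B X ≤ M := by
  rcases h.a1.lt_or_eq with hA | hA
  · rcases le_total X A with hXA | hXA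
    · have := pl_low_le h hA hX hXA
      exact ⟨this.1, this.2.trans h.b1⟩
    · have := pl_high_le h hA hX' hXA
      exact ⟨by linarith [h.b0, h.a0, this.1], this.2⟩
  · rw [pl_eq hA (h.ab.1 hA)]
    exact ⟨hX, hX'⟩

theorem pl_inv (h : PLok M A B) (hX : -M ≤ X) (hX' : X ≤ M) :
    pl M B A (pl M A B X) = X := by
  rcases h.a1.lt_or_eq with hA | hA
  · have hB : B < M := lt_of_le_of_ne h.b1 (fun e => hA.ne (h.ab.2 e))
    rcases le_total X A with hXA | hXA
    · have h5 := pl_low_le h hA hX hXA
      rw [pl_low h.symm hB h5.2, pl_low h hA hXA]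
      have h2 : 0 < A + M := by linarith [h.a0]
      have h3 : 0 < B + M := by linarith [h.b0, h.a0]
      field_simp
      ring
    · have h5 := pl_high_le h hA hX' hXA
      rw [pl_high h.symm hB h5.1, pl_high h hA hXA]
      have h2 : 0 < M - A := by linarith
      have h3 : 0 < M - B := by linarith
      field_simp
      ring
  · rw [pl_eq (h.ab.1 hA) hA, pl_eq hA (h.ab.1 hA)]

theorem pl_neg_end (h : PLok M A B) : pl M A B (-M) = -M := by
  rcases h.a1.lt_or_eq with hA | hA
  · rw [pl_low h hA (by linarith [h.a0])]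
    ring
  · rw [pl_eq hA (h.ab.1 hA)]

theorem pl_end (h : PLok M A B) : pl M A B M = M := by
  rcases h.a1.lt_or_eq with hA | hA
  · rw [pl_high h hA h.a1]
    ring
  · rw [pl_eq hA (h.ab.1 hA)]

/-- a product of a function tending to zero and a bounded function -/
theorem continuousAt_mul_bdd {Ω : Type*} [TopologicalSpace Ω] {f g : Ω → ℝ} {x : Ω}
    (hf : ContinuousAt f x) (h0 : f x = 0) (hg : ∀ y, |g y| ≤ 1) :
    ContinuousAt (fun y => f y * g y) x := by
  have h1 : Tendsto f (𝓝 x) (𝓝 0) := by rw [← h0]; exact hf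
  have h2 : Tendsto (fun y => f y * g y) (𝓝 x) (𝓝 0) := by
    refine squeeze_zero_norm (a := fun y => |f y|) (fun y => ?_) ?_
    · rw [Real.norm_eq_abs, abs_mul]
      calc |f y| * |g y| ≤ |f y| * 1 := mul_le_mul_of_nonneg_left (hg y) (abs_nonneg _)
        _ = |f y| := mul_one _
    · have := h1.abs
      rwa [abs_zero] at this
  have h3 : f x * g x = 0 := by rw [h0, zero_mul]
  show Tendsto _ _ (𝓝 (f x * g x))
  rw [h3]
  exact h2

/-- joint continuity -/
theorem continuous_pl {Ω : Type*} [TopologicalSpace Ω] {M A B X : Ω → ℝ} (hM : Continuous M)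
    (hA : Continuous A) (hB : Continuous B) (hX : Continuous X) (h : ∀ y, PLok (M y) (A y) (B y))
    (h1 : ∀ y, -M y ≤ X y) (h2 : ∀ y, X y ≤ M y) :
    Continuous fun y => pl (M y) (A y) (B y) (X y) := by
  rw [continuous_iff_continuousAt]
  intro x
  unfold pl
  refine hX.continuousAt.add ?_
  rcases (h x).a1.lt_or_eq with hlt | heq
  · refine ((hB.sub hA).continuousAt).mul ?_
    have c1 : ContinuousAt (fun y => (M y - X y) / (M y - A y)) x :=
      ((hM.sub hX).continuousAt).div ((hM.sub hA).continuousAt) (by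
        show M x - A x ≠ 0
        linarith)
    have c2 : ContinuousAt (fun y => (X y + M y) / (A y + M y)) x :=
      ((hX.add hM).continuousAt).div ((hA.add hM).continuousAt) (by
        show A x + M x ≠ 0
        linarith [(h x).a0])
    exact Filter.Tendsto.min c1 c2
  · refine continuousAt_mul_bdd (f := fun y => B y - A y) (hB.sub hA).continuousAt ?_ ?_
    · rw [(h x).ab.1 heq, heq, sub_self]
    · intro y
      have e1 : 0 ≤ M y - X y := by linarith [h2 y]
      have e2 : 0 ≤ M y - A y := by linarith [(h y).a1]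
      have e3 : 0 ≤ X y + M y := by linarith [h1 y]
      have e4 : 0 ≤ A y + M y := by linarith [(h y).a0, (h y).a1]
      rw [abs_le]
      constructor
      · have : 0 ≤ min ((M y - X y) / (M y - A y)) ((X y + M y) / (A y + M y)) :=
          le_min (div_nonneg e1 e2) (div_nonneg e3 e4)
        linarith
      · rcases le_total (X y) (A y) with h3 | h3
        · exact (min_le_right _ _).trans (div_le_one_of_le₀ (by linarith) e4)
        · exact (min_le_left _ _).trans (div_le_one_of_le₀ (by linarith) e2)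

/-- a vector rescaled to a prescribed length -/
theorem continuous_dir {Ω : Type*} [TopologicalSpace Ω] {V : Ω → ℂ} {s : Ω → ℝ} (hV : Continuous V)
    (hs : Continuous s) (h0 : ∀ y, V y = 0 → s y = 0) :
    Continuous fun y => V y * ((s y / ‖V y‖ : ℝ) : ℂ) := by
  rw [continuous_iff_continuousAt]
  intro x
  by_cases hx : V x = 0
  · have h1 : Tendsto s (𝓝 x) (𝓝 0) := by rw [← h0 x hx]; exact hs.continuousAt
    have h2 : Tendsto (fun y => V y * ((s y / ‖V y‖ : ℝ) : ℂ)) (𝓝 x) (𝓝 0) := by
      refine squeeze_zero_norm (a := fun y => |s y|) (fun y => ?_) ?_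
      · rw [norm_mul, Complex.norm_real, Real.norm_eq_abs, abs_div, abs_norm]
        by_cases hy : ‖V y‖ = 0
        · rw [hy, zero_mul]; exact abs_nonneg _
        · rw [mul_div_cancel₀ _ hy]
      · have := h1.abs
        rwa [abs_zero] at this
    show Tendsto _ _ (𝓝 (V x * ((s x / ‖V x‖ : ℝ) : ℂ)))
    rw [hx, zero_mul]
    exact h2
  · refine hV.continuousAt.mul ?_
    refine Complex.continuous_ofReal.continuousAt.comp ?_
    exact hs.continuousAt.div hV.norm.continuousAt (norm_ne_zero_iff.2 hx)

end Pool.Agent.Helper60.Fin.PT
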