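import Pool.Agent.Helper60.Fin.L1d

/-! First level: definitions of the intermediate structure `Pre` and of the outcome `Lev1`. -/

set_option autoImplicit false

namespace Pool.Agent.Helper60.Fin

open Set AS Geo Alg

/-- the outcome of the first level -/
structure Lev1 (D : Tube) where
  G : Type
  [inst : Group G]
  deg : G →* Multiplicative ℤ
  hf : Finite deg.ker
  hp : IsPGroup 5 deg.ker
  t : G
  ht : deg t = Multiplicative.ofAdd 1
  T : ℂ × ℂ → ℂ × ℂ → G
  flat : GFlat T D.O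
  y : G
  hy : y ∈ deg.ker
  hyc : ∀ g, g * y = y * g
  hy1 : y ≠ 1
  hy5 : y ^ 5 = 1
  lonE : ∀ g, HasTr T (Geo.lonE 1) g → g = y
  hEK : GaugeEq (fun a b => deg (T a b)) cf D.EK

attribute [instance] Lev1.inst

/-- a flat function with values in `Γ` whose class with values in `L ⋊ ℤ` is nontrivial at one end -/
structure Pre (D : Tube) where
  F : Type
  [fF : Field F]
  [finF : Finite F]
  [ch : CharP F 5]
  om : Fˣ
  hom : (om : F) ^ 2 - om + 1 = 0
  σ : F ≃+* F
  hσ : σ (om : F) = ((om⁻¹ : Fˣ) : F)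
  m : ℕ
  H : HData (Fin m → F) (Matrix (Fin m) (Fin m) F)
  ht : ∀ x, H.tz 1 x = (Mt F om m).mulVec x
  hs : ∀ X, H.sz 1 X = Mt F om m * X * ((Mt F om m).map σ).transpose
  hb : ∀ x y, H.b x y = Matrix.vecMulVec x (fun j => σ (y j))
  hu : ∀ n : ℤ, ((om ^ n : Fˣ) : F) ≠ 1 → IsUnit (1 - rL H (Multiplicative.ofAdd n))
  T : ℂ × ℂ → ℂ × ℂ → Gam H
  flat : GFlat T D.O
  deg : GaugeEq (fun x y => Gam.deg H (T x y)) cf D.EK
  ne : ¬ Tri (fun x y => prL H (T x y)) D.EJ ∨ ¬ Tri (fun x y => prL H (T x y)) D.EK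

attribute [instance] Pre.fF Pre.finF Pre.ch

end Pool.Agent.Helper60.Fin
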