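import Pool.Agent.Helper60.Fin.PreDef

set_option autoImplicit false

namespace Pool.Agent.Helper60.Fin

open Set AS Geo Alg

/-- the transport along the longitude of the trefoil at the lower end -/
theorem Pre.exists_y {D : Tube} (hJ : StartsJ D) (hK : EndsK D) (P : Pre D) :
    ∃ y : Gam P.H, (∀ g, HasTr P.T (Geo.lonE 1) g → g = y) ∧ (∀ g, g * y = y * g) ∧ y.a = 0 ∧ y.d = 0 ∧
      (y = 1 → Tri (fun x y => prL P.H (P.T x y)) Ex) := by
  have hTE : GFlat P.T Ex := P.flat.mono (fun z hz => Sph_diff_subset_O hJ (Ex_subset hz))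
  obtain ⟨U, V, hUV⟩ := exists_UW hTE
  have hdeg : GFlat (fun x y => Gam.deg P.H (P.T x y)) D.O := P.flat.map _
  obtain ⟨c, m, -, hm, -, hcm⟩ := T0_jend hJ hK hdeg P.deg
  obtain ⟨hU, hV⟩ := deg_of_UW hTE hcm hUV
  obtain ⟨hrel, -, -, hlon⟩ := tref_rel hTE hUV
  have hd : (U.d = 3 ∧ V.d = 2) ∨ (U.d = -3 ∧ V.d = -2) := by
    rcases hm with rfl | rfl
    · exact Or.inl ⟨by rw [hU]; norm_num, by rw [hV]; norm_num⟩
    · exact Or.inr ⟨by rw [hU]; norm_num, by rw [hV]; norm_num⟩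
  obtain ⟨l1, l2, l3, l4⟩ :=
    lam_formula P.F P.om P.m P.σ P.hom P.hσ P.H P.ht P.hs P.hb U V hrel hd
  refine ⟨U ^ 2 * ((U * V⁻¹) ^ 6)⁻¹, ?_, l1, l2, l3, ?_⟩
  · intro g hg
    obtain ⟨a, ha⟩ := hlon g hg
    rw [ha, l1 a⁻¹, mul_assoc, inv_mul_cancel, mul_one]
  · intro h1
    obtain ⟨x, hx1, hx2⟩ := l4 h1
    have hF : GFlat (fun x y => prL P.H (P.T x y)) Ex := hTE.map _
    have h2 := UW.map (prL P.H) hUV
    exact (tref_tri hF h2).2 ⟨x, hx1, hx2⟩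

end Pool.Agent.Helper60.Fin
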