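import Pool.Agent.Helper60.Fin.Stmt

/-! # Checks of the definitions

The core of the solid torus is an unknotted pattern with winding number one, its satellites are the
companions, and every knot with a 0-framed tubular neighbourhood is concordant to itself: the identity
operator is trivial in the sense of `Concordant`. -/

set_option autoImplicit false

namespace Pool.Agent.Helper60.Fin

open Set

/-- a knot with a tubular neighbourhood is concordant to itself (by the product annulus) -/
theorem ZeroFramed.concordant_self {e : Circle × Disc → S3} {K : Set S3} (h : ZeroFramed e K) :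
    Concordant K K := by
  obtain ⟨hc, hi, hK, -⟩ := h
  refine ⟨fun p => (e (p.1, p.2.2), p.2.1), ?_, ?_, fun _ => Iff.rfl, fun _ => Iff.rfl, hK, hK⟩
  · exact (hc.comp (by fun_prop)).prodMk (by fun_prop)
  · rintro ⟨u, t, w⟩ ⟨u', t', w'⟩ he
    have h1 := hi (Prod.mk.inj he).1
    have h2 : t = t' := (Prod.mk.inj he).2
    exact Prod.ext (Prod.mk.inj h1).1 (Prod.ext h2 (Prod.mk.inj h1).2)

/-- the core of the solid torus -/
def corePattern : Pattern where
  c u := (u, 0)
  cont := by fun_prop
  inj _ _ h := (Prod.mk.inj h).1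
  int _ := by simp

theorem corePattern_sat {e : Circle × Disc → S3} {K : Set S3} (h : ZeroFramed e K) :
    corePattern.sat e = K := h.2.2.1

theorem corePattern_windOne : corePattern.WindOne :=
  ⟨id, continuous_id, fun _ => rfl, fun _ => rfl⟩

theorem corePattern_unknotted : corePattern.Unknotted := by
  refine ⟨Homeomorph.refl _, ?_⟩
  ext z
  constructor
  · rintro ⟨_, ⟨u, rfl⟩, rfl⟩
    show (0:ℂ) / Real.sqrt 2 = 0
    rw [zero_div]
  · intro hz
    have hz' : z.1.2 = 0 := hz
    have h1 : ‖z.1.1‖ = 1 := by
      have h2 := z.2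
      rw [hz', norm_zero] at h2
      nlinarith [norm_nonneg z.1.1]
    refine ⟨z, ⟨⟨z.1.1, by simpa [Submonoid.unitSphere] using h1⟩, ?_⟩, rfl⟩
    refine Subtype.ext (Prod.ext ?_ ?_)
    · show z.1.1 * (Real.sqrt (1 - ‖(0:ℂ)‖ ^ 2 / 2) : ℂ) = z.1.1
      simp
    · show (0:ℂ) / Real.sqrt 2 = z.1.2
      rw [hz', zero_div]

/-- the identity operator is trivial -/
theorem corePattern_trivial {e : Circle × Disc → S3} {K : Set S3} (h : ZeroFramed e K) :
    Concordant (corePattern.sat e) K := by
  rw [corePattern_sat h]
  exact h.concordant_self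

end Pool.Agent.Helper60.Fin
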