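import Pool.Agent.Helper60.Geo.JEnd

/-! The integer class of the concordance exterior. -/

set_option autoImplicit false

namespace Pool.Agent.Helper60.Fin

open Set AS Geo

/-! ### auxiliary facts on abelian transports -/

section aux

variable {Ω A : Type*} [PseudoMetricSpace Ω] [CommGroup A] {T T' : Ω → Ω → A} {S : Set Ω}
  {γ : ℝ → Ω} {g : A}

/-- transports along loops are gauge invariant in abelian groups -/
theorem HasTr.gauge_comm (h : GaugeEq T T' S) (hγ : ContinuousOn γ (Icc 0 1))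
    (hm : ∀ s ∈ Icc (0:ℝ) 1, γ s ∈ S) (hl : γ 0 = γ 1) (hg : HasTr T γ g) : HasTr T' γ g := by
  obtain ⟨u, hu⟩ := h
  have := HasTr.gauge hu hγ hm hg
  rwa [hl, mul_comm (u (γ 1))⁻¹ g, mul_assoc, inv_mul_cancel, mul_one] at this

end aux

theorem GaugeEq.mono' {Ω G : Type*} [PseudoMetricSpace Ω] [Group G] {T T' : Ω → Ω → G}
    {S S' : Set Ω} (h : GaugeEq T T' S) (hs : S' ⊆ S) : GaugeEq T T' S' := by
  obtain ⟨u, hu⟩ := h
  exact ⟨u, fun a ha => hu a (hs ha)⟩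

variable {D : Tube}

/-- the region where `cf` is flat -/
def CK : Set (ℂ × ℂ) := {z | nrm z ≠ 0 ∧ ∀ k ∈ Kn, z ≠ nrm z • k}

theorem mem_CK_of (hK : EndsK D) {z : ℂ × ℂ} (hz : z ∈ D.O) (h : Real.exp 1 ≤ nrm z) : z ∈ CK := by
  have hpos : 0 < nrm z := lt_of_lt_of_le (Real.exp_pos 1) h
  refine ⟨hpos.ne', fun k hk he => hz.2 ?_⟩
  have hk2 : Real.exp 1 • k ∈ {z | ∃ k ∈ Kn, z = Real.exp 1 • k} := ⟨k, hk, rfl⟩
  rw [← hK] at hk2
  obtain ⟨u, hu, hu2⟩ := hk2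
  refine ⟨u, Real.log (nrm z), hu, ?_⟩
  have hlog : 1 ≤ Real.log (nrm z) := by
    rw [Real.le_log_iff_exp_le hpos]; exact h
  rw [D.high u _ 0 hu (by simp) hlog, ← hu2, smul_smul, ← Real.exp_add]
  rw [sub_add_cancel, Real.exp_log hpos]
  exact he

theorem SK_subset_O : D.SK ⊆ D.O := by
  intro z hz
  refine ⟨?_, hz.2⟩
  rintro rfl
  have := hz.1
  simp [nrm] at this
  exact absurd this.symm (Real.exp_pos 1).ne'

theorem SJ_subset_O : D.SJ ⊆ D.O := by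
  intro z hz
  refine ⟨?_, hz.2⟩
  rintro rfl
  have := hz.1
  simp [nrm] at this

theorem EK_sub_O : D.EK ⊆ D.O := fun z hz => D.Xar_subset_O (by norm_num) (D.EK_subset hz)

/-- extension of the class `cf` over the exterior -/
theorem exists_T0 (hK : EndsK D) : ∃ T₀ : ℂ × ℂ → ℂ × ℂ → Multiplicative ℤ, GFlat T₀ D.O ∧
    GaugeEq T₀ cf D.EK := by
  have hcf : GFlat cf D.EK := kend_int_surj hK
  -- the cochain of `cf`
  let c : List (ℂ × ℂ) → ℤ := fun l => match l with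
    | [x, y] => Multiplicative.toAdd (cf x y)
    | _ => 0
  have hc : NZ D.EK 3 (dT (cT : ℂ × ℂ → ℂ × ℂ → (ℤ →ₗ[ℤ] ℤ)) c) := by
    intro a ha
    obtain ⟨e, he, h⟩ := hcf a ha
    refine ⟨e, he, fun l hl hx => ?_⟩
    match l, hl, hx with
    | [x, y, z], _, hx =>
      have h1 := h x y z (hx x (by simp)) (hx y (by simp)) (hx z (by simp))
      have h2 : Multiplicative.toAdd (cf x y) + Multiplicative.toAdd (cf y z) =
        Multiplicative.toAdd (cf x z) := by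
        rw [← toAdd_mul, h1]
      rw [dT_three]
      simp only [cT, LinearMap.id_apply, c]
      omega
  have h2 : dT (cT : ℂ × ℂ → ℂ × ℂ → (ℤ →ₗ[ℤ] ℤ)) c ∈
      Zc (cT : ℂ × ℂ → ℂ × ℂ → (ℤ →ₗ[ℤ] ℤ)) D.X D.EK 2 :=
    ⟨hc, nz_dT_dT (flat_cT _) c _⟩
  obtain ⟨b, hb, hb2⟩ := D.acyclic_EK (k := ℤ) (V := ℤ) 2 h2
  let T' : ℂ × ℂ → ℂ × ℂ → Multiplicative ℤ := fun x y => Multiplicative.ofAdd (c [x, y] - b [x, y])
  have hT' : GFlat T' D.X := by
    intro a ha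
    obtain ⟨e, he, h⟩ := hb2 a ha
    refine ⟨e, he, fun x y z hx hy hz => ?_⟩
    have h1 := h [x, y, z] rfl (by simp [hx, hy, hz])
    rw [Pi.sub_apply, dT_three, dT_three] at h1
    simp only [cT, LinearMap.id_apply] at h1
    simp only [T']
    rw [← ofAdd_add]
    congr 1
    omega
  obtain ⟨T₀, h0, h1⟩ := D.extend_flat hT'
  refine ⟨T₀, h0, (GaugeEq.mono' h1 D.EK_subset).symm.trans ?_⟩
  refine ⟨fun _ => 1, fun a ha => ?_⟩
  obtain ⟨e, he, h⟩ := hb a ha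
  refine ⟨e, he, fun x y hx hy => ?_⟩
  have h3 := h [x, y] rfl (by simp [hx, hy])
  simp only [T', h3, c, sub_zero, inv_one, one_mul, mul_one, ofAdd_toAdd]

/-- it is `cf` on the whole upper level -/
theorem T0_SK (hK : EndsK D) {T₀ : ℂ × ℂ → ℂ × ℂ → Multiplicative ℤ} (hT : GFlat T₀ D.O)
    (hc : GaugeEq T₀ cf D.EK) : GaugeEq T₀ cf D.SK := by
  obtain ⟨K, hKc, hKm, hK0, hK1⟩ := D.SK_push
  obtain ⟨u, hu, -⟩ := transport_lemma (R := D.SK) hT hKc (fun s hs a ha => (hKm s hs a ha).1)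
  have hcf : GFlat cf CK := gflat_cf
  obtain ⟨v, hv, -⟩ := transport_lemma (R := D.SK) hcf hKc
    (fun s hs a ha => mem_CK_of hK (hKm s hs a ha).1 (hKm s hs a ha).2)
  obtain ⟨w, hw⟩ := hc
  simp only [hK0] at hu hv
  have h1 : GaugeEq (fun x y => T₀ (K 1 x) (K 1 y)) (fun x y => cf (K 1 x) (K 1 y)) D.SK := by
    refine ⟨fun x => w (K 1 x), fun a ha => ?_⟩
    obtain ⟨e, he, h⟩ := hw (K 1 a) (hK1 a ha)
    have hcont : ContinuousAt (K 1) a := by
      have := hKc 1 (by simp) a ha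
      exact this.comp (f := fun x : ℂ × ℂ => ((1 : ℝ), x)) (by fun_prop)
    obtain ⟨δ, hδ, h'⟩ := Metric.continuousAt_iff.1 hcont e he
    exact ⟨δ, hδ, fun x y hx hy => h _ _ (h' hx) (h' hy)⟩
  have h2 : GaugeEq T₀ (fun x y => T₀ (K 1 x) (K 1 y)) D.SK := ⟨u, hu⟩
  have h3 : GaugeEq cf (fun x y => cf (K 1 x) (K 1 y)) D.SK := ⟨v, hv⟩
  exact (h2.trans h1).trans h3.symm

theorem mer_mem_SK {u : ℂ} {r : ℝ} (hu : ‖u‖ = 1) (hr : 0 < r) (hr1 : r ≤ 1) (s : ℝ) :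
    D.mer u 1 r s ∈ D.SK := by
  refine ⟨?_, (D.mer_mem hu hr hr1 s).2⟩
  refine D.nrm1 u _ hu ?_
  rw [norm_mul, Complex.norm_real, Real.norm_of_nonneg hr.le]
  have : ‖Complex.exp (2 * Real.pi * s * Complex.I)‖ = 1 := by
    have h := Complex.norm_exp_ofReal_mul_I (2 * Real.pi * s)
    push_cast at h
    exact h
  rw [this, mul_one]; exact hr1

theorem mer_loop {u : ℂ} {t r : ℝ} : D.mer u t r 0 = D.mer u t r 1 := by
  simp only [Tube.mer]
  congr 3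
  simp [Complex.exp_two_pi_mul_I]

theorem T0_mer (hK : EndsK D) {T₀ : ℂ × ℂ → ℂ × ℂ → Multiplicative ℤ} (hT : GFlat T₀ D.O)
    (hc : GaugeEq T₀ cf D.EK) {u : ℂ} {t r : ℝ} (hu : ‖u‖ = 1) (hr : 0 < r) (hr1 : r ≤ 1)
    {g : Multiplicative ℤ} (hg : HasTr T₀ (D.mer u t r) g) :
    g = Multiplicative.ofAdd 1 ∨ g = Multiplicative.ofAdd (-1) := by
  have hu1 : ‖(1:ℂ)‖ = 1 := by simp
  obtain ⟨g1, hg1⟩ := exists_hasTr hT (γ := D.mer 1 1 r) (D.mer_cont hu1 hr hr1).continuousOn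
    (fun s _ => D.mer_mem hu1 hr hr1 s)
  have h2 : HasTr cf (D.mer 1 1 r) g1 :=
    HasTr.gauge_comm (T0_SK hK hT hc) (D.mer_cont hu1 hr hr1).continuousOn
      (fun s _ => mer_mem_SK hu1 hr hr1 s) mer_loop hg1
  obtain ⟨a, ha⟩ := D.mer_conj hT hu1 hu hr hr1 hr hr1 hg1 hg
  have h3 : g = g1 := by rw [ha, mul_comm a⁻¹ g1, mul_assoc, inv_mul_cancel, mul_one]
  rw [h3]
  exact kend_mer hK hr hr1 h2

theorem Pat_norm_lt {p : ℂ × ℂ} (hp : p ∈ Pat) : ‖p.2‖ < 1 := by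
  rcases hp with ⟨r, ⟨h0, h1⟩, rfl⟩ | ⟨r, ⟨h0, h1⟩, rfl⟩
  · simp only [Gc, Complex.norm_real, Real.norm_eq_abs]
    rw [abs_lt]; constructor <;> linarith
  · have h : ‖(Ac r).2‖ ^ 2 < 1 := by
      have e : ‖(Ac r).2‖ ^ 2 = (r - 1/2) ^ 2 + (hh r) ^ 2 := by
        rw [← Complex.normSq_eq_norm_sq, Complex.normSq_apply]
        simp [Ac]
        ring
      rw [e]
      have h2 : |hh r| ≤ 1/2 := by
        unfold hh
        rw [abs_le]
        constructor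
        · nlinarith [mul_nonneg h0 (sub_nonneg.2 h1), sq_nonneg (r - 1/2)]
        · nlinarith [mul_nonneg h0 (sub_nonneg.2 h1), sq_nonneg (r - 1/2)]
      have h3 : (hh r) ^ 2 ≤ (1/2) ^ 2 := sq_le_sq' (abs_le.1 h2).1 (abs_le.1 h2).2
      nlinarith
    nlinarith [norm_nonneg (Ac r).2]

/-- the lower end -/
theorem T0_jend (hJ : StartsJ D) (hK : EndsK D) {T₀ : ℂ × ℂ → ℂ × ℂ → Multiplicative ℤ}
    (hT : GFlat T₀ D.O) (hc : GaugeEq T₀ cf D.EK) :
    ∃ c m : ℤ, (c = 1 ∨ c = -1) ∧ (m = 1 ∨ m = -1) ∧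
      GaugeEq (TV T₀) (patT (Multiplicative.ofAdd c) 1) VP ∧
      GaugeEq (fun x y => (cf x y) ^ m) T₀ Ex := by
  have hTJ : GFlat T₀ (Sph \ Jn) := by
    rw [← SJ_eq hJ]; exact hT.mono SJ_subset_O
  have hTE : GFlat T₀ Ex := hTJ.mono Ex_subset
  obtain ⟨m, hm⟩ := tref_int hTE
  -- continuity of the standard loops
  have hee : Continuous ee := by unfold ee; fun_prop
  have cl : Continuous (lonE 1) := by
    unfold lonE; exact continuous_eV.comp (hee.prodMk continuous_const)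
  have cm : Continuous (merE 1) := by
    unfold merE; exact continuous_eV.comp (continuous_const.prodMk (by fun_prop))
  have nee : ∀ s, ‖ee s‖ = 1 := by
    intro s
    have h := Complex.norm_exp_ofReal_mul_I (2 * Real.pi * s)
    push_cast at h
    exact h
  have hin : ∀ p : ℂ × ℂ, ‖p.1‖ = 1 → ‖p.2‖ = 1 → eV p ∈ Ex := by
    intro p h1 h2
    refine ⟨eV_sph ⟨h1, h2.le⟩, ?_⟩
    rintro ⟨u, w, hu, hw, he⟩
    have := injOn_eV (show p ∈ Geo.ST from ⟨h1, h2.le⟩) (show (u, w) ∈ Geo.ST from ⟨hu, hw.le⟩) he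
    rw [this] at h2
    exact absurd h2 hw.ne
  have ml : ∀ s, lonE 1 s ∈ Ex := fun s => hin _ (nee s) (by simp)
  have mm : ∀ s, merE 1 s ∈ Ex := fun s => hin _ (by simp) (by simp [nee])
  have ee01 : ee 0 = ee 1 := by simp [ee, Complex.exp_two_pi_mul_I]
  have ll : lonE 1 0 = lonE 1 1 := by simp only [lonE, ee01]
  have lm : merE 1 0 = merE 1 1 := by simp only [merE, ee01]
  -- transport of `T₀` along the longitude and meridian of `e`
  have t1 : HasTr T₀ (lonE 1) 1 := by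
    have h := HasTr.map (zpowGroupHom m) (cf_lonE one_pos le_rfl)
    rw [map_one] at h
    exact HasTr.gauge_comm hm cl.continuousOn (fun s _ => ml s) ll h
  have t2 : HasTr T₀ (merE 1) (Multiplicative.ofAdd 1 ^ m) := by
    have h := HasTr.map (zpowGroupHom m) (cf_merE one_pos le_rfl)
    exact HasTr.gauge_comm hm cm.continuousOn (fun s _ => mm s) lm h
  -- classification on the pattern side
  have hV : GFlat (TV T₀) VP := TV_flat hTJ
  obtain ⟨b, l, hbl, u, hu, hu0⟩ := pat_classify hV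
  have hus : GaugeEq (patT b l) (TV T₀) VP :=
    GaugeEq.symm (T := TV T₀) (T' := patT b l) ⟨u, hu⟩
  -- the loops `gl`, `gm0` lie in `VP`
  have hVP : ∀ p : ℂ × ℂ, ‖p.1‖ = 1 → ‖p.2‖ = 1 → p ∈ VP :=
    fun p h1 h2 => ⟨⟨h1, h2.le⟩, fun hp => absurd h2 (Pat_norm_lt hp).ne⟩
  have cgl : Continuous gl := by unfold gl; exact (hee.neg).prodMk continuous_const
  have cgm : Continuous gm0 := by unfold gm0; exact continuous_const.prodMk hee
  have s1 : HasTr (TV T₀) gl l := by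
    refine HasTr.gauge_comm hus cgl.continuousOn (fun s _ => hVP _ ?_ ?_) ?_ (patT_gl hbl)
    · simp [gl, nee]
    · simp [gl]
    · simp only [gl, ee01]
  have s2 : HasTr (TV T₀) gm0 (((beta b l)⁻¹ * (beta b l)⁻¹ * b * l * l)⁻¹) := by
    refine HasTr.gauge_comm hus cgm.continuousOn (fun s _ => hVP _ ?_ ?_) ?_ (patT_gm0 hbl)
    · simp [gm0]
    · simp [gm0, nee]
    · simp only [gm0, ee01]
  obtain ⟨a1, ha1⟩ := lonE_gl hTJ t1 s1
  obtain ⟨a2, ha2⟩ := merE_gm0 hTJ t2 s2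
  have hl1 : l = 1 := by
    rw [mul_comm a1⁻¹ l, mul_assoc, inv_mul_cancel, mul_one] at ha1
    exact ha1.symm
  subst hl1
  have hb2 : Multiplicative.ofAdd 1 ^ m = b := by
    rw [ha2, mul_comm a2⁻¹, mul_assoc, inv_mul_cancel, mul_one]
    unfold beta
    simp
  have hg : GaugeEq (TV T₀) (patT (Multiplicative.ofAdd (Multiplicative.toAdd b)) 1) VP := ⟨u, hu⟩
  have hu1 : ‖(1:ℂ)‖ = 1 := by simp
  obtain ⟨g1, hg1⟩ := exists_hasTr hT (γ := D.mer 1 0 1) (D.mer_cont hu1 one_pos le_rfl).continuousOn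
    (fun s _ => D.mer_mem hu1 one_pos le_rfl s)
  have hu2 : Multiplicative.toAdd b = 1 ∨ Multiplicative.toAdd b = -1 := by
    rcases T0_mer hK hT hc hu1 one_pos le_rfl hg1 with h | h
    · rw [h] at hg1
      exact jend_unit hJ hT hg one_pos le_rfl (Or.inl rfl) hg1
    · rw [h] at hg1
      exact jend_unit hJ hT hg one_pos le_rfl (Or.inr rfl) hg1
  have hmb : m = Multiplicative.toAdd b := by
    rw [← hb2, toAdd_zpow, toAdd_ofAdd]; simp
  exact ⟨Multiplicative.toAdd b, m, hu2, by rw [hmb]; exact hu2, hg, hm⟩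

end Pool.Agent.Helper60.Fin
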